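import Pool.Agent.H.MP_8387fc_lc.TJ.Red

/-!
# Module RedS: coding of functions by reals, searches
-/

set_option autoImplicit false

namespace Pool.Agent.TJ

open Pool.Agent.H.MP_ad67df_lc

private theorem RedS_search {y : Rl} {g : ℕ → ℕ} (hg : RI {orc y} g)
    (h : ∀ a, ∃ n, g (Nat.pair a n) = 0) : RI {orc y} fun a => Nat.find (h a) := by
  have hF := Nat.RecursiveIn.rfind hg
  refine Nat.RecursiveIn.of_eq hF fun a => ?_
  rw [Part.eq_some_iff]
  refine Nat.mem_rfind.2 ⟨?_, ?_⟩
  · refine (Part.mem_map_iff _).2 ⟨_, Part.mem_some _, ?_⟩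
    exact decide_eq_true (Nat.find_spec (h a))
  · intro m hm
    refine (Part.mem_map_iff _).2 ⟨_, Part.mem_some _, ?_⟩
    exact decide_eq_false (Nat.find_min (h a) hm)

/-- Every function is computable from a real. -/
theorem exists_code (g : ℕ → ℕ) : ∃ c : Rl, RI {orc c} g := by
  let c : Rl := fun n => decide (g n.unpair.1 = n.unpair.2)
  have hT : RI {orc c} fun p => 1 - (c p).toNat := by
    have h1 : RI {orc c} fun x : ℕ => 1 - x :=
      RI.of_comp (Primrec.nat_sub.to_comp.comp (Computable.const 1) Computable.id)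
    exact RI.comp h1 (RI.ofOracle c)
  have hval : ∀ a n, (1 - (c (Nat.pair a n)).toNat = 0 ↔ g a = n) := by
    intro a n
    show (1 - (decide (g (Nat.pair a n).unpair.1 = (Nat.pair a n).unpair.2)).toNat = 0) ↔ _
    rw [Nat.unpair_pair]
    by_cases h : g a = n
    · simp [h]
    · simp [h]
  have hex : ∀ a, ∃ n, 1 - (c (Nat.pair a n)).toNat = 0 := fun a => ⟨g a, (hval a _).2 rfl⟩
  refine ⟨c, Nat.RecursiveIn.of_eq (RedS_search hT hex) fun a => ?_⟩
  have h2 : g a = Nat.find (hex a) := (hval a _).1 (Nat.find_spec (hex a))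
  exact congrArg Part.some h2.symm

/-- Searches. -/
theorem RI_search {y : Rl} {g : ℕ → ℕ} (hg : RI {orc y} g) (h : ∀ a, ∃ n, g (Nat.pair a n) = 0) :
    RI {orc y} fun a => Nat.find (h a) :=
  RedS_search hg h

end Pool.Agent.TJ
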