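import Pool.Agent.H.MP_8387fc_lc.TJ.Apx
import Pool.Agent.H.MP_8387fc_lc.TJ.RedS

/-!
# Module App: universally measurable functions are computable almost everywhere

`c` codes `L, C` of `apx_fun` for the measure `ν m` and the bit `n` and the error `2 ^ (- pair m n)`.
Borel-Cantelli (`measure_limsup_atTop_eq_zero` or `ae_eventually_notMem`): for almost all `z` all but
finitely many bits of `js fun m => f (X m z)` are given by the clopen sets.
-/

set_option autoImplicit false

namespace Pool.Agent.TJ

open MeasureTheory Pool.Agent.H.MP_ad67df_lc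

/-- The test of a clopen set, on a long initial segment of the join. -/
private def App_G (a : (ℕ × List Bool) × (ℕ × List (List Bool))) : Bool :=
  decide (((List.range a.2.1).map fun i => a.1.2.getD (Nat.pair a.1.1 i) false) ∈ a.2.2)

private theorem App_G_primrec : Primrec App_G := by
  have h1 : Primrec (fun a : (ℕ × List Bool) × (ℕ × List (List Bool)) =>
      (List.range a.2.1).map fun i => a.1.2.getD (Nat.pair a.1.1 i) false) := by
    refine Primrec.list_map (Primrec.list_range.comp (Primrec.fst.comp Primrec.snd)) ?_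
    have h2 : Primrec (fun p : ((ℕ × List Bool) × (ℕ × List (List Bool))) × ℕ =>
        p.1.1.2.getD (Nat.pair p.1.1.1 p.2) false) :=
      (Primrec.list_getD false).comp
        (Primrec.snd.comp (Primrec.fst.comp Primrec.fst))
        (Primrec₂.natPair.comp (Primrec.fst.comp (Primrec.fst.comp Primrec.fst)) Primrec.snd)
    exact h2
  have h3 : Primrec (fun a : (ℕ × List Bool) × (ℕ × List (List Bool)) =>
      decide (@List.idxOf (List Bool) instBEqOfDecidableEq
        ((List.range a.2.1).map fun i => a.1.2.getD (Nat.pair a.1.1 i) false) a.2.2 <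
        a.2.2.length)) := by
    refine (Primrec.nat_lt.decide).comp ?_ (Primrec.list_length.comp
      (Primrec.snd.comp Primrec.snd))
    exact Primrec.list_idxOf.comp h1 (Primrec.snd.comp Primrec.snd)
  refine h3.of_eq fun a => ?_
  unfold App_G
  congr 1
  exact propext (@List.idxOf_lt_length_iff _ instBEqOfDecidableEq _ _ _)

private def App_S (p : ℕ) : ℕ :=
  Nat.pair p.unpair.1.unpair.1
    ((Encodable.decode (α := ℕ × List (List Bool)) p.unpair.2).getD (0, [])).1 + 1

private theorem App_S_comp : Computable App_S := by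
  have h1 : Primrec (fun p : ℕ =>
      ((Encodable.decode (α := ℕ × List (List Bool)) p.unpair.2).getD (0, [])).1) :=
    Primrec.fst.comp (Primrec.option_getD.comp
      (Primrec.decode.comp (Primrec.snd.comp Primrec.unpair)) (Primrec.const (0, [])))
  have h2 : Primrec (fun p : ℕ => p.unpair.1.unpair.1) :=
    Primrec.fst.comp (Primrec.unpair.comp (Primrec.fst.comp Primrec.unpair))
  exact (Primrec.succ.comp (Primrec₂.natPair.comp h2 h1)).to_comp

private def App_F (p : ℕ) : ℕ :=
  (App_G ((p.unpair.1.unpair.1,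
      (Encodable.decode (α := List Bool) p.unpair.2.unpair.1).getD []),
    (Encodable.decode (α := ℕ × List (List Bool)) p.unpair.2.unpair.2).getD (0, []))).toNat

private theorem App_F_comp : Computable App_F := by
  have h1 : Primrec (fun p : ℕ =>
      (Encodable.decode (α := ℕ × List (List Bool)) p.unpair.2.unpair.2).getD (0, [])) :=
    Primrec.option_getD.comp (Primrec.decode.comp
      (Primrec.snd.comp (Primrec.unpair.comp (Primrec.snd.comp Primrec.unpair))))
      (Primrec.const (0, []))
  have h2 : Primrec (fun p : ℕ =>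
      (Encodable.decode (α := List Bool) p.unpair.2.unpair.1).getD []) :=
    Primrec.option_getD.comp (Primrec.decode.comp
      (Primrec.fst.comp (Primrec.unpair.comp (Primrec.snd.comp Primrec.unpair))))
      (Primrec.const [])
  have h3 : Primrec (fun p : ℕ => p.unpair.1.unpair.1) :=
    Primrec.fst.comp (Primrec.unpair.comp (Primrec.fst.comp Primrec.unpair))
  have h4 : Primrec App_F :=
    (Primrec.dom_bool Bool.toNat).comp (App_G_primrec.comp ((h3.pair h2).pair h1))
  exact h4.to_comp

private theorem App_col (x : ℕ → Rl) (m L s : ℕ) (hs : Nat.pair m L < s) :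
    ((List.range L).map fun i => (bpre (js x) s).getD (Nat.pair m i) false) = bpre (x m) L := by
  unfold bpre
  apply List.ext_getElem
  · rw [List.length_map, List.length_range, List.length_ofFn]
  · intro i h1 h2
    rw [List.length_map, List.length_range] at h1
    rw [List.getElem_map, List.getElem_range, List.getElem_ofFn]
    have h3 : Nat.pair m i < s := lt_trans (Nat.pair_lt_pair_right m h1) hs
    have h4 : Nat.pair m i < (List.ofFn fun j : Fin s => js x j.val).length := by
      rw [List.length_ofFn]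
      exact h3
    rw [List.getD_eq_getElem _ _ h4, List.getElem_ofFn]
    show x (Nat.pair m i).unpair.1 (Nat.pair m i).unpair.2 = x m i
    rw [Nat.unpair_pair]

/-- The real given by the clopen sets is computable. -/
private theorem App_le (x : ℕ → Rl) (c : Rl) (L : ℕ → ℕ) (C : ℕ → List (List Bool))
    (hc : RI {orc c} fun k => Encodable.encode (L k, C k)) :
    Le (fun k => decide (bpre (x k.unpair.1) (L k) ∈ C k)) (jn (js x) c) := by
  rw [le_iff]
  have hg : RI {orc (jn (js x) c)} fun k => Encodable.encode (L k, C k) := RI_mono (jn_r _ _) hc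
  have hid : RI {orc (jn (js x) c)} fun k => k := RI.of_comp Computable.id
  have hS : RI {orc (jn (js x) c)} fun k =>
      App_S (Nat.pair k (Encodable.encode (L k, C k))) :=
    RI.comp (RI.of_comp App_S_comp) (RI.pair hid hg)
  have hB : RI {orc (jn (js x) c)} fun k =>
      Encodable.encode (bpre (js x) (App_S (Nat.pair k (Encodable.encode (L k, C k))))) :=
    RI.comp (RI_mono (jn_l _ _) (RI.ofBpre (js x))) hS
  have hF := RI.comp (RI.of_comp App_F_comp) (RI.pair hid (RI.pair hB hg))
  refine RI_congr hF fun k => ?_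
  simp only [App_F, App_S, Nat.unpair_pair, Encodable.encodek, Option.getD_some]
  congr 1
  unfold App_G
  simp only
  rw [App_col x k.unpair.1 (L k) _ (Nat.lt_succ_self _)]

/-- The real given by clopen sets is computable. -/
theorem app_le (x : ℕ → Rl) (c : Rl) (L : ℕ → ℕ) (C : ℕ → List (List Bool))
    (hc : RI {orc c} fun k => Encodable.encode (L k, C k)) :
    Le (fun k => decide (bpre (x k.unpair.1) (L k) ∈ C k)) (jn (js x) c) :=
  App_le x c L C hc

/-- Sequences of functions. -/
theorem lusin_seq (ν : ℕ → Measure Rl) (hν : ∀ m, IsFiniteMeasure (ν m)) {g : ℕ → Rl → Rl}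
    (hg : ∀ m, UM (g m)) :
    ∃ c : Rl, ∀ X : ℕ → Rl → Rl, (∀ m, Measurable (X m)) → (∀ m, coin.map (X m) ≤ ν m) →
      ∀ᵐ z ∂coin, Le (js fun m => g m (X m z)) (jn (js fun m => X m z) c) := by
  have h1 : ∀ k : ℕ, ∃ (L : ℕ) (C : List (List Bool)),
      ν k.unpair.1 {z | g k.unpair.1 z k.unpair.2 ≠ decide (bpre z L ∈ C)} ≤
        (2⁻¹ : ENNReal) ^ k := by
    intro k
    have := hν k.unpair.1
    exact apx_fun (ν k.unpair.1) (hg _ _ (hν _)) k.unpair.2
      (ENNReal.pow_pos (ENNReal.inv_pos.2 (by norm_num)) k)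
  choose L C hLC using h1
  obtain ⟨c, hc⟩ := exists_code fun k => Encodable.encode (L k, C k)
  refine ⟨c, fun X hX hXν => ?_⟩
  have h2 : ∀ k : ℕ, coin {z | g k.unpair.1 (X k.unpair.1 z) k.unpair.2 ≠
      decide (bpre (X k.unpair.1 z) (L k) ∈ C k)} ≤ (2⁻¹ : ENNReal) ^ k := by
    intro k
    have h3 := Measure.le_map_apply (μ := coin) (hX k.unpair.1).aemeasurable
      {w | g k.unpair.1 w k.unpair.2 ≠ decide (bpre w (L k) ∈ C k)}
    exact h3.trans ((hXν k.unpair.1 _).trans (hLC k))
  have h4 : (∑' k : ℕ, coin {z | g k.unpair.1 (X k.unpair.1 z) k.unpair.2 ≠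
      decide (bpre (X k.unpair.1 z) (L k) ∈ C k)}) ≠ ⊤ := by
    refine ne_top_of_le_ne_top ?_ (ENNReal.tsum_le_tsum h2)
    rw [ENNReal.tsum_geometric]
    exact ENNReal.inv_ne_top.2 (by norm_num)
  filter_upwards [ae_eventually_notMem h4] with z hz
  obtain ⟨N, hN⟩ := Filter.eventually_atTop.1 hz
  refine Le.trans (le_of_ev N fun k hk => ?_) (App_le (fun m => X m z) c L C hc)
  exact not_not.1 (hN k hk)

theorem lusin (ν : ℕ → Measure Rl) (hν : ∀ m, IsFiniteMeasure (ν m)) {f : Rl → Rl} (hf : UM f) :
    ∃ c : Rl, ∀ X : ℕ → Rl → Rl, (∀ m, Measurable (X m)) → (∀ m, coin.map (X m) ≤ ν m) →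
      ∀ᵐ z ∂coin, Le (js fun m => f (X m z)) (jn (js fun m => X m z) c) :=
  lusin_seq ν hν (g := fun _ => f) fun _ => hf

/-- One function. -/
theorem lusin_one {f : Rl → Rl} (hf : UM f) {g : Rl → Rl} (hg : Measurable g) :
    ∃ c : Rl, ∀ᵐ z ∂coin, Le (f (g z)) (jn (g z) c) := by
  have hfin : ∀ _ : ℕ, IsFiniteMeasure (coin.map g) := fun _ => inferInstance
  obtain ⟨c, hc⟩ := lusin (fun _ => coin.map g) hfin hf
  refine ⟨c, ?_⟩
  filter_upwards [hc (fun _ => g) (fun _ => hg) fun _ => le_refl _] with z hz
  have h1 : Le (js fun _ => g z) (g z) := by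
    rw [le_iff]
    exact RI.comp (RI.ofOracle (g z)) (RI.of_comp (Primrec.snd.comp Primrec.unpair).to_comp)
  exact Le.trans (js_ge (fun _ => f (g z)) 0)
    (Le.trans hz (jn_lub (Le.trans h1 (jn_l _ _)) (jn_r _ _)))

end Pool.Agent.TJ
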