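import Pool.Agent.H.MP_8387fc_lc.TJ.Defs

/-!
# Module Apx: approximation of measurable functions by clopen sets
-/

set_option autoImplicit false

namespace Pool.Agent.TJ

open MeasureTheory Pool.Agent.H.MP_ad67df_lc

private theorem apx_cyl (s : Finset ℕ) (S : Set (∀ i : s, (fun _ : ℕ => Bool) i)) :
    ∃ (L : ℕ) (C : List (List Bool)), {z : Rl | bpre z L ∈ C} = cylinder s S := by
  classical
  refine ⟨s.sup id + 1,
    (bins (s.sup id + 1)).filter fun σ => decide ((fun n => σ.getD n false) ∈ cylinder s S), ?_⟩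
  ext z
  have hz : ∀ i ∈ s, (bpre z (s.sup id + 1)).getD i false = z i := by
    intro i hi
    have hi' : i < s.sup id + 1 := by
      have : id i ≤ s.sup id := Finset.le_sup hi
      simp only [id] at this
      omega
    rw [List.getD_eq_getElem?_getD, bpre_getElem? z hi']
    rfl
  have hb : bpre z (s.sup id + 1) ∈ bins (s.sup id + 1) := mem_bins.2 (bpre_length z _)
  simp only [Set.mem_ofPred_eq, List.mem_filter, hb, true_and, decide_eq_true_eq, mem_cylinder]
  have heq : s.restrict (fun n => (bpre z (s.sup id + 1)).getD n false) = s.restrict z := by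
    funext i
    exact hz i.1 i.2
  rw [heq]

theorem apx_set (ν : Measure Rl) [IsFiniteMeasure ν] {E : Set Rl} (hE : NullMeasurableSet E ν)
    {ε : ENNReal} (hε : 0 < ε) : ∃ (L : ℕ) (C : List (List Bool)),
      ν (symmDiff E {z | bpre z L ∈ C}) ≤ ε := by
  have hm : MeasurableSet (toMeasurable ν E) := measurableSet_toMeasurable ν E
  have hae : toMeasurable ν E =ᵐ[ν] E := hE.toMeasurable_ae_eq
  obtain ⟨t, ht, hlt⟩ := exists_measure_symmDiff_lt_of_generateFrom_isSetRing
    (μ := ν) (C := measurableCylinders (fun _ : ℕ => Bool)) isSetRing_measurableCylinders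
    ⟨{Set.univ}, Set.countable_singleton _, by
      intro A hA
      rw [Set.mem_singleton_iff] at hA
      rw [hA]
      exact univ_mem_measurableCylinders _, by simp⟩
    generateFrom_measurableCylinders.symm hm hε
  obtain ⟨s, S, -, rfl⟩ := (mem_measurableCylinders t).1 ht
  obtain ⟨L, C, hLC⟩ := apx_cyl s S
  refine ⟨L, C, ?_⟩
  rw [hLC, symmDiff_comm]
  have hcongr : ν (symmDiff (cylinder s S) E) = ν (symmDiff (cylinder s S) (toMeasurable ν E)) := by
    apply measure_congr
    filter_upwards [hae] with z hz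
    have hz' : (z ∈ toMeasurable ν E) = (z ∈ E) := hz
    change (z ∈ symmDiff (cylinder s S) E) = (z ∈ symmDiff (cylinder s S) (toMeasurable ν E))
    rw [Set.mem_symmDiff, Set.mem_symmDiff, hz']
  rw [hcongr]
  exact hlt.le

theorem apx_fun (ν : Measure Rl) [IsFiniteMeasure ν] {f : Rl → Rl} (hf : AEMeasurable f ν) (n : ℕ)
    {ε : ENNReal} (hε : 0 < ε) : ∃ (L : ℕ) (C : List (List Bool)),
      ν {z | f z n ≠ decide (bpre z L ∈ C)} ≤ ε := by
  have hms : MeasurableSet {x : Rl | x n = true} := by
    have : Measurable (fun x : Rl => x n) := measurable_pi_apply n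
    exact this (measurableSet_singleton true)
  have hE : NullMeasurableSet {z | f z n = true} ν := hf.nullMeasurable hms
  obtain ⟨L, C, h⟩ := apx_set ν hE hε
  refine ⟨L, C, ?_⟩
  have heq : {z | f z n ≠ decide (bpre z L ∈ C)} =
      symmDiff {z | f z n = true} {z | bpre z L ∈ C} := by
    ext z
    rw [Set.mem_symmDiff]
    simp only [Set.mem_ofPred_eq, ne_eq]
    by_cases hC : bpre z L ∈ C <;> cases hfz : f z n <;> simp [hC]
  rw [heq]
  exact h

end Pool.Agent.TJ
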