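import Pool.Agent.H.MP_8387fc_lc.TJ.Defs

/-!
# Module CoinC: the measure of a cylinder
-/

set_option autoImplicit false

namespace Pool.Agent.TJ

open MeasureTheory Pool.Agent.H.MP_ad67df_lc

private theorem CoinC_box (s : List Bool) : {z : Rl | bpre z s.length = s} =
    Set.pi (Finset.range s.length) (fun i => {s.getD i false}) := by
  ext z
  rw [Set.mem_pi]
  constructor
  · intro h i hi
    have hi' : i < s.length := by simpa using hi
    have h1 := bpre_getElem? z hi'
    have h2 : bpre z s.length = s := h
    rw [h2] at h1
    show z i = s.getD i false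
    rw [List.getD_eq_getElem?_getD, h1]
    rfl
  · intro h
    show bpre z s.length = s
    apply List.ext_getElem?
    intro i
    by_cases hi : i < s.length
    · have h1 : z i = s.getD i false := h i (by simpa using hi)
      rw [bpre_getElem? z hi, h1, List.getElem?_eq_getElem hi, List.getD_eq_getElem _ _ hi]
    · rw [List.getElem?_eq_none (by rw [bpre_length]; omega), List.getElem?_eq_none (by omega)]

private theorem CoinC_cb (b : Bool) : cb {b} = 2⁻¹ := by
  cases b <;> simp [cb]

theorem meas_cyl (s : List Bool) : MeasurableSet {z : Rl | bpre z s.length = s} := by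
  rw [CoinC_box]
  exact MeasurableSet.pi (Finset.countable_toSet _) fun i _ => measurableSet_singleton _

theorem coin_cyl (s : List Bool) : coin {z | bpre z s.length = s} = (2⁻¹ : ENNReal) ^ s.length := by
  rw [CoinC_box]
  unfold coin
  rw [Measure.infinitePi_pi (fun _ => cb) (fun i _ => measurableSet_singleton _),
    Finset.prod_congr rfl (fun i _ => CoinC_cb _), Finset.prod_const, Finset.card_range]

end Pool.Agent.TJ
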