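import Pool.Agent.H.MP_8387fc_lc.TJ.AvoS
import Pool.Agent.H.MP_8387fc_lc.TJ.CoinC

/-!
# Module Avoid: computing a real which avoids an open set of measure less than 1

`avoid`: apply `searchG` to the relation `T p w s`: for some `v` with `bpre v (M p) = w` (equivalently all, by `hloc`)
`(2⁻¹) ^ (p + 2) < coin ({z | bpre z s.length = s} \ D p v)`. The string `s` has a certificate if and only if
`coin ({z | bpre z s.length = s} \ O v) ≠ 0`: from left to right by `hm`
(`cyl \ D ⊆ (cyl \ O) ∪ (O \ D)`), from right to left take `p` large and use `hD`. The empty string has one by `h1`; if `s` has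
one, then `s ++ [false]` or `s ++ [true]`, by additivity. The real `z` found by the search is not in `O v`, since `O v` is open
and all cylinders `bpre z n` meet its complement. (Compare `BasA.lean`.)
-/

set_option autoImplicit false

namespace Pool.Agent.TJ

open MeasureTheory Pool.Agent.H.MP_ad67df_lc

private theorem Avoid_open {U : Set Rl} (hU : IsOpen U) {z : Rl} (hz : z ∈ U) :
    ∃ n, ∀ w, bpre w n = bpre z n → w ∈ U := by
  obtain ⟨I, u, hu, hI⟩ := isOpen_pi_iff.1 hU z hz
  refine ⟨I.sup id + 1, fun w hw => hI ?_⟩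
  intro i hi
  have h1 : i < I.sup id + 1 := by
    have h2 : id i ≤ I.sup id := Finset.le_sup (Finset.mem_coe.1 hi)
    simp only [id] at h2
    omega
  have h3 := bpre_getElem? w h1
  rw [hw, bpre_getElem? z h1] at h3
  have h4 : z i = w i := Option.some.inj h3
  rw [← h4]
  exact (hu i (Finset.mem_coe.1 hi)).2

private theorem Avoid_key {O : Set Rl} {D : ℕ → Set Rl} (hD : ∀ p, D p ⊆ O)
    (hm : ∀ p, coin (O \ D p) ≤ (2⁻¹ : ENNReal) ^ (p + 2)) (C : Set Rl) :
    (∃ p, (2⁻¹ : ENNReal) ^ (p + 2) < coin (C \ D p)) ↔ coin (C \ O) ≠ 0 := by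
  constructor
  · rintro ⟨p, hp⟩ h0
    refine absurd hp (not_lt_of_ge ?_)
    have hsub : C \ D p ⊆ (C \ O) ∪ (O \ D p) := by
      rintro z ⟨h1, h2⟩
      by_cases h3 : z ∈ O
      · exact Or.inr ⟨h3, h2⟩
      · exact Or.inl ⟨h1, h3⟩
    calc coin (C \ D p) ≤ coin ((C \ O) ∪ (O \ D p)) := measure_mono hsub
      _ ≤ coin (C \ O) + coin (O \ D p) := measure_union_le _ _
      _ = coin (O \ D p) := by rw [h0, zero_add]
      _ ≤ _ := hm p
  · intro h
    obtain ⟨p, hp⟩ := ENNReal.exists_inv_two_pow_lt h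
    refine ⟨p, ?_⟩
    calc (2⁻¹ : ENNReal) ^ (p + 2) ≤ (2⁻¹ : ENNReal) ^ p :=
          pow_le_pow_of_le_one (by simp) (by simp) (by omega)
      _ < coin (C \ O) := hp
      _ ≤ coin (C \ D p) := measure_mono fun z hz => ⟨hz.1, fun h1 => hz.2 (hD p h1)⟩

theorem avoid {O : Rl → Set Rl} {D : ℕ → Rl → Set Rl} {M : ℕ → ℕ} (hO : ∀ v, IsOpen (O v))
    (h1 : ∀ v, coin (O v) < 1) (hD : ∀ p v, D p v ⊆ O v) (hDm : ∀ p v, MeasurableSet (D p v))
    (hm : ∀ p v, coin (O v \ D p v) ≤ (2⁻¹ : ENNReal) ^ (p + 2))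
    (hloc : ∀ p v v', bpre v (M p) = bpre v' (M p) → D p v = D p v') :
    ∃ c : Rl, ∀ v : Rl, ∃ z : Rl, Le z (jn v c) ∧ z ∉ O v := by
  obtain ⟨c, hc⟩ := searchG M fun p w s => ∃ v, bpre v (M p) = w ∧
    (2⁻¹ : ENNReal) ^ (p + 2) < coin ({z | bpre z s.length = s} \ D p v)
  refine ⟨c, fun v => ?_⟩
  have key : ∀ s : List Bool, (∃ p, ∃ v', bpre v' (M p) = bpre v (M p) ∧
      (2⁻¹ : ENNReal) ^ (p + 2) < coin ({z | bpre z s.length = s} \ D p v')) ↔
      coin ({z | bpre z s.length = s} \ O v) ≠ 0 := by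
    intro s
    rw [← Avoid_key (fun p => hD p v) (fun p => hm p v)]
    constructor
    · rintro ⟨p, v', h2, h3⟩
      rw [hloc p v' v h2] at h3
      exact ⟨p, h3⟩
    · rintro ⟨p, h3⟩
      exact ⟨p, v, rfl, h3⟩
  have hA : coin ({z | bpre z ([] : List Bool).length = []} \ O v) ≠ 0 := by
    intro h0
    have hsub : (Set.univ : Set Rl) ⊆ ({z | bpre z ([] : List Bool).length = []} \ O v) ∪ O v := by
      intro z _
      by_cases h4 : z ∈ O v
      · exact Or.inr h4
      · exact Or.inl ⟨rfl, h4⟩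
    have h7 : (1 : ENNReal) ≤ coin (O v) := by
      calc (1 : ENNReal) = coin Set.univ := measure_univ.symm
        _ ≤ coin (({z | bpre z ([] : List Bool).length = []} \ O v) ∪ O v) := measure_mono hsub
        _ ≤ coin ({z | bpre z ([] : List Bool).length = []} \ O v) + coin (O v) :=
          measure_union_le _ _
        _ = coin (O v) := by rw [h0, zero_add]
    exact absurd (h1 v) (not_lt_of_ge h7)
  have hB : ∀ s : List Bool, (∃ p, ∃ v', bpre v' (M p) = bpre v (M p) ∧
      (2⁻¹ : ENNReal) ^ (p + 2) < coin ({z | bpre z s.length = s} \ D p v')) →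
      ∃ a, ∃ p, ∃ v', bpre v' (M p) = bpre v (M p) ∧
      (2⁻¹ : ENNReal) ^ (p + 2) < coin ({z | bpre z (s ++ [a]).length = s ++ [a]} \ D p v') := by
    intro s hs
    have hs' := (key s).1 hs
    have hsub : {z | bpre z s.length = s} \ O v ⊆
        ({z | bpre z (s ++ [false]).length = s ++ [false]} \ O v) ∪
        ({z | bpre z (s ++ [true]).length = s ++ [true]} \ O v) := by
      rintro z ⟨h1, h2⟩
      have h1' : bpre z s.length = s := h1
      have h4 : ∀ a, z s.length = a → z ∈ {z | bpre z (s ++ [a]).length = s ++ [a]} \ O v := by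
        intro a ha
        refine ⟨?_, h2⟩
        show bpre z (s ++ [a]).length = s ++ [a]
        rw [List.length_append, List.length_singleton, bpre_succ, h1', ha]
      rcases Bool.eq_false_or_eq_true (z s.length) with h | h
      · exact Or.inr (h4 true h)
      · exact Or.inl (h4 false h)
    by_contra hcon
    have h5 : ∀ a, coin ({z | bpre z (s ++ [a]).length = s ++ [a]} \ O v) = 0 := by
      intro a
      by_contra hne
      obtain ⟨k, hk⟩ := (key (s ++ [a])).2 hne
      exact hcon ⟨a, k, hk⟩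
    apply hs'
    refine le_antisymm ?_ (zero_le)
    exact (measure_mono hsub).trans ((measure_union_le _ _).trans (by rw [h5, h5, add_zero]))
  obtain ⟨z, hz1, hz2⟩ := hc v ((key []).2 hA) hB
  refine ⟨z, hz1, fun hzO => ?_⟩
  obtain ⟨n, hn⟩ := Avoid_open (hO v) hzO
  have h2 := (key (bpre z n)).1 (hz2 n)
  apply h2
  have h3 : {w | bpre w (bpre z n).length = bpre z n} \ O v = ∅ := by
    rw [Set.sdiff_eq_empty]
    intro w hw
    have hw' : bpre w (bpre z n).length = bpre z n := hw
    rw [bpre_length] at hw'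
    exact hn w hw'
  rw [h3, measure_empty]

end Pool.Agent.TJ
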