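import Pool.Agent.H.MP_8387fc_lc.TJ.CoinC

/-!
# Module Coin: measure preserving transformations
-/

set_option autoImplicit false

namespace Pool.Agent.TJ

open MeasureTheory Pool.Agent.H.MP_ad67df_lc

private theorem Coin_cb (b : Bool) : cb {b} = 2⁻¹ := by
  rw [cb, Measure.smul_apply, Measure.add_apply]
  cases b <;> simp

/-- the first `N` coordinates -/
private def Coin_r (N : ℕ) (z : Rl) : Fin N → Bool := fun i => z i

private theorem Coin_meas (N : ℕ) : Measurable (Coin_r N) :=
  measurable_pi_lambda _ fun i => measurable_pi_apply _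

private theorem Coin_one (N : ℕ) (w : Fin N → Bool) :
    coin (Coin_r N ⁻¹' {w}) = (2⁻¹ : ENNReal) ^ N := by
  have h : Coin_r N ⁻¹' {w} = Set.pi (Finset.range N : Finset ℕ)
      (fun i => if h : i < N then ({w ⟨i, h⟩} : Set Bool) else Set.univ) := by
    ext z
    rw [Set.mem_preimage, Set.mem_singleton_iff, Set.mem_pi]
    constructor
    · intro hz i hi
      have hi' : i < N := Finset.mem_range.1 (Finset.mem_coe.1 hi)
      rw [dif_pos hi', Set.mem_singleton_iff, ← hz]
      rfl
    · intro hz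
      funext i
      have h1 := hz i (Finset.mem_coe.2 (Finset.mem_range.2 i.isLt))
      rw [dif_pos i.isLt, Set.mem_singleton_iff] at h1
      exact h1
  rw [h, coin, Measure.infinitePi_pi]
  · rw [Finset.prod_congr rfl (fun i hi => by
      rw [dif_pos (Finset.mem_range.1 hi), Coin_cb]), Finset.prod_const, Finset.card_range]
  · intro i _
    exact MeasurableSet.of_discrete

private theorem Coin_fin (N : ℕ) (A : Finset (Fin N → Bool)) :
    coin (Coin_r N ⁻¹' (A : Set (Fin N → Bool))) = A.card * (2⁻¹ : ENNReal) ^ N := by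
  have h : Coin_r N ⁻¹' (A : Set (Fin N → Bool)) = ⋃ w ∈ A, Coin_r N ⁻¹' {w} := by
    ext z
    simp
  rw [h, measure_biUnion_finset]
  · rw [Finset.sum_congr rfl fun w _ => Coin_one N w, Finset.sum_const, nsmul_eq_mul]
  · intro w _ w' _ hww
    refine Set.disjoint_left.2 fun z hz hz' => hww ?_
    rw [Set.mem_preimage, Set.mem_singleton_iff] at hz hz'
    rw [← hz, ← hz']
  · intro w _
    exact Coin_meas N (measurableSet_singleton w)

/-- Transformations which permute the initial segments of length `N`, for arbitrarily large `N`,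
preserve the measure. -/
theorem mp_perm {T : Rl → Rl} (h : ∀ m, ∃ N, m ≤ N ∧ ∃ e : (Fin N → Bool) ≃ (Fin N → Bool),
    ∀ z : Rl, (fun i : Fin N => T z i) = e fun i => z i) : MeasurePreserving T coin coin := by
  have hT : Measurable T := by
    refine measurable_pi_iff.2 fun i => ?_
    obtain ⟨N, hN, e, he⟩ := h (i + 1)
    have h1 : (fun z => T z i) = fun z => e (Coin_r N z) ⟨i, hN⟩ := by
      funext z
      exact congrFun (he z) ⟨i, hN⟩
    rw [h1]
    exact (measurable_of_countable fun w : Fin N → Bool => e w ⟨i, hN⟩).comp (Coin_meas N)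
  refine ⟨hT, ?_⟩
  refine Measure.eq_infinitePi (μ := fun _ : ℕ => cb) fun s t mt => ?_
  rw [← Measure.infinitePi_pi (μ := fun _ : ℕ => cb) fun i _ => mt i]
  change Measure.map T coin (Set.pi s t) = coin (Set.pi s t)
  rw [Measure.map_apply hT (MeasurableSet.pi s.countable_toSet fun i _ => mt i)]
  obtain ⟨N, hN, e, he⟩ := h (s.sup id + 1)
  have hs : ∀ i ∈ s, i < N := by
    intro i hi
    have : id i ≤ s.sup id := Finset.le_sup hi
    simp only [id] at this
    omega
  classical
  obtain ⟨A, hA⟩ : ∃ A : Finset (Fin N → Bool), ∀ w, w ∈ A ↔ ∀ i : Fin N, (i : ℕ) ∈ s → w i ∈ t i :=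
    ⟨Finset.univ.filter fun w => ∀ i : Fin N, (i : ℕ) ∈ s → w i ∈ t i, fun w => by simp⟩
  have hS : Set.pi (s : Set ℕ) t = Coin_r N ⁻¹' (A : Set (Fin N → Bool)) := by
    ext z
    rw [Set.mem_preimage, Finset.mem_coe, hA, Set.mem_pi]
    constructor
    · intro hz i hi
      exact hz i (Finset.mem_coe.2 hi)
    · intro hz i hi
      exact hz ⟨i, hs i (Finset.mem_coe.1 hi)⟩ (Finset.mem_coe.1 hi)
  have hTS : T ⁻¹' (Coin_r N ⁻¹' (A : Set (Fin N → Bool))) =
      Coin_r N ⁻¹' ((A.map e.symm.toEmbedding : Finset (Fin N → Bool)) : Set (Fin N → Bool)) := by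
    ext z
    rw [Set.mem_preimage, Set.mem_preimage, Set.mem_preimage, Finset.mem_coe, Finset.mem_coe,
      Finset.mem_map_equiv, Equiv.symm_symm]
    have h1 : Coin_r N (T z) = e (Coin_r N z) := he z
    rw [h1]
  rw [hS, hTS, Coin_fin, Coin_fin, Finset.card_map]

theorem coin_xr (y : Rl) : MeasurePreserving (fun z => xr z y) coin coin := by
  refine mp_perm fun m => ⟨m, le_rfl, ?_⟩
  have hinv : Function.Involutive fun (w : Fin m → Bool) (i : Fin m) => xor (w i) (y i) := by
    intro w
    funext i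
    simp
  refine ⟨hinv.toPerm _, fun z => ?_⟩
  rfl

end Pool.Agent.TJ
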