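import Pool.Agent.H.MP_8387fc_lc.TJ.BasD
import Pool.Agent.H.MP_8387fc_lc.TJ.Coin

/-!
# Module BasA: the measure part of the basis lemma

Take an open set `U`, which contains `N`, with `coin U ≤ 1 / 8`. Let `D n` be the union of the
cylinders of length `n` which are contained in `U`; `U` is the increasing union of the `D n`. Choose
`m k` with `coin (U \ D (m k)) ≤ 2 ^ (- (k + 3))`, and let `T k` be the list (without repetitions) of
the strings of length `m k` whose cylinder is not contained in `U`. Say that `s` is good if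
`cyl s \ (U ∪ {z | xr z v ∈ U})` has positive measure. For `s.length ≤ m k` the number
`cnt (T k) s (bpre v (m k)) * 2 ^ (- m k)` is the measure of `cyl s \ (D ∪ {z | xr z v ∈ D})`,
`D = D (m k)`, and `coin ((U \ D) ∪ {z | xr z v ∈ U \ D}) ≤ 2 ^ (- (k + 2))` (`coin_xr`). Hence `s` is
good if and only if `∃ k, Cert m T v s k` (for the direction from left to right take `k` large, such
that `s.length ≤ m k`; choose `m k ≥ k`). The empty string is good, `s` good implies that `s0` or `s1`
is good, and if all `bpre z n` are good, then `z ∉ U` and `xr z v ∉ U`, since `U` is open.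
-/

set_option autoImplicit false

namespace Pool.Agent.TJ

open MeasureTheory Pool.Agent.H.MP_ad67df_lc

open Filter Topology

private def BasA_D (U : Set Rl) (n : ℕ) : Set Rl := {z | ∀ w, bpre w n = bpre z n → w ∈ U}

private def BasA_G (U : Set Rl) (v : Rl) (s : List Bool) : Set Rl :=
  {z | bpre z s.length = s ∧ z ∉ U ∧ xr z v ∉ U}

private theorem BasA_le {w z : Rl} {n n' : ℕ} (h : n ≤ n') (he : bpre w n' = bpre z n') :
    bpre w n = bpre z n := by
  rw [← bpre_take w h, ← bpre_take z h, he]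

private theorem BasA_mono {U : Set Rl} : Monotone (BasA_D U) :=
  fun _ _ h _ hz w hw => hz w (BasA_le h hw)

private theorem BasA_sub {U : Set Rl} (n : ℕ) : BasA_D U n ⊆ U := fun z hz => hz z rfl

private theorem BasA_open {U : Set Rl} (hU : IsOpen U) {z : Rl} (hz : z ∈ U) :
    ∃ n, z ∈ BasA_D U n := by
  obtain ⟨I, u, hu, hI⟩ := isOpen_pi_iff.1 hU z hz
  refine ⟨I.sup id + 1, fun w hw => hI ?_⟩
  intro i hi
  have h1 : i < I.sup id + 1 := by
    have h2 : id i ≤ I.sup id := Finset.le_sup (Finset.mem_coe.1 hi)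
    simp only [id] at h2
    omega
  have h3 := bpre_getElem? w h1
  rw [hw, bpre_getElem? z h1] at h3
  have h4 : z i = w i := Option.some.inj h3
  rw [← h4]
  exact (hu i (Finset.mem_coe.1 hi)).2

private theorem BasA_meas (U : Set Rl) (n : ℕ) : MeasurableSet (BasA_D U n) := by
  have h : BasA_D U n = ⋃ s ∈ {s : List Bool | s.length = n ∧ ∀ w, bpre w n = s → w ∈ U},
      {z : Rl | bpre z s.length = s} := by
    ext z
    rw [Set.mem_iUnion₂]
    constructor
    · intro hz
      refine ⟨bpre z n, ⟨bpre_length z n, hz⟩, ?_⟩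
      show bpre z (bpre z n).length = bpre z n
      rw [bpre_length]
    · rintro ⟨s, ⟨hs1, hs2⟩, hs3⟩
      have h1 : bpre z s.length = s := hs3
      rw [hs1] at h1
      intro w hw
      exact hs2 w (hw.trans h1)
  rw [h]
  exact MeasurableSet.biUnion (Set.to_countable _) fun s _ => meas_cyl s

private theorem BasA_xr (z v : Rl) (n : ℕ) :
    bpre (xr z v) n = List.zipWith xor (bpre z n) (bpre v n) := by
  apply List.ext_getElem?
  intro i
  rw [List.getElem?_zipWith]
  by_cases hi : i < n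
  · rw [bpre_getElem? _ hi, bpre_getElem? _ hi, bpre_getElem? _ hi]
    rfl
  · rw [List.getElem?_eq_none (by rw [bpre_length]; omega),
      List.getElem?_eq_none (l := bpre z n) (by rw [bpre_length]; omega)]

private theorem BasA_notMem {U : Set Rl} {n : ℕ} {T : List (List Bool)}
    (hT : ∀ t, t ∈ T ↔ ∃ w, w ∉ U ∧ bpre w n = t) (z : Rl) :
    z ∉ BasA_D U n ↔ bpre z n ∈ T := by
  rw [hT]
  constructor
  · intro h
    by_contra hc
    push Not at hc
    exact h fun w hw => by
      by_contra hwU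
      exact hc w hwU hw
  · rintro ⟨w, hw, he⟩ hz
    exact hw (hz w he)

private theorem BasA_cnt {U : Set Rl} {n : ℕ} {T : List (List Bool)} (hnd : T.Nodup)
    (hT : ∀ t, t ∈ T ↔ ∃ w, w ∉ U ∧ bpre w n = t) (v : Rl) (s : List Bool) (hs : s.length ≤ n) :
    coin {z | bpre z s.length = s ∧ z ∉ BasA_D U n ∧ xr z v ∉ BasA_D U n} =
      cnt T s (bpre v n) * (2⁻¹ : ENNReal) ^ n := by
  have hlen : ∀ t ∈ T, t.length = n := by
    intro t ht
    obtain ⟨w, -, he⟩ := (hT t).1 ht
    rw [← he, bpre_length]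
  have h : {z | bpre z s.length = s ∧ z ∉ BasA_D U n ∧ xr z v ∉ BasA_D U n} =
      ⋃ t ∈ (T.filter fun t => decide (t.take s.length = s) &&
        decide (List.zipWith xor t (bpre v n) ∈ T)).toFinset, {z : Rl | bpre z n = t} := by
    ext z
    rw [Set.mem_iUnion₂]
    constructor
    · rintro ⟨h1, h2, h3⟩
      refine ⟨bpre z n, ?_, rfl⟩
      rw [List.mem_toFinset, List.mem_filter, Bool.and_eq_true, decide_eq_true_iff,
        decide_eq_true_iff]
      refine ⟨(BasA_notMem hT z).1 h2, ?_, ?_⟩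
      · rw [bpre_take z hs, h1]
      · rw [← BasA_xr]
        exact (BasA_notMem hT _).1 h3
    · rintro ⟨t, ht, hz⟩
      rw [List.mem_toFinset, List.mem_filter, Bool.and_eq_true, decide_eq_true_iff,
        decide_eq_true_iff] at ht
      obtain ⟨h1, h2, h3⟩ := ht
      have hz' : bpre z n = t := hz
      rw [← hz'] at h1 h2 h3
      rw [bpre_take z hs] at h2
      rw [← BasA_xr] at h3
      exact ⟨h2, (BasA_notMem hT z).2 h1, (BasA_notMem hT _).2 h3⟩
  have hF : ∀ t ∈ (T.filter fun t => decide (t.take s.length = s) &&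
        decide (List.zipWith xor t (bpre v n) ∈ T)).toFinset, t.length = n := by
    intro t ht
    rw [List.mem_toFinset] at ht
    exact hlen t (List.mem_of_mem_filter ht)
  rw [h, measure_biUnion_finset]
  · rw [Finset.sum_congr rfl (g := fun _ => (2⁻¹ : ENNReal) ^ n), Finset.sum_const,
      List.toFinset_card_of_nodup (hnd.filter _), nsmul_eq_mul]
    · rfl
    · intro t ht
      have h1 := coin_cyl t
      rw [hF t ht] at h1
      exact h1
  · intro t _ t' _ htt
    refine Set.disjoint_left.2 fun z hz hz' => htt ?_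
    have h1 : bpre z n = t := hz
    have h2 : bpre z n = t' := hz'
    rw [← h1, ← h2]
  · intro t ht
    have h1 := meas_cyl t
    rw [hF t ht] at h1
    exact h1

private theorem BasA_ar (a b c : ℕ) :
    (2⁻¹ : ENNReal) ^ b < c * (2⁻¹ : ENNReal) ^ a ↔ 2 ^ a < 2 ^ b * c := by
  have h1 : ∀ n : ℕ, (2⁻¹ : ENNReal) ^ n ≠ ⊤ := fun n => ENNReal.pow_ne_top (by simp)
  rw [← ENNReal.toReal_lt_toReal (h1 b) (ENNReal.mul_ne_top (ENNReal.natCast_ne_top c) (h1 a)),
    ENNReal.toReal_mul, ENNReal.toReal_pow, ENNReal.toReal_pow, ENNReal.toReal_inv,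
    ENNReal.toReal_natCast, ENNReal.toReal_ofNat, inv_pow, inv_pow, ← div_eq_mul_inv,
    inv_eq_one_div, div_lt_div_iff₀ (by positivity) (by positivity), one_mul, mul_comm]
  exact_mod_cast Iff.rfl

private theorem BasA_key {U : Set Rl} {m : ℕ → ℕ} {T : ℕ → List (List Bool)}
    (hm : ∀ k, k ≤ m k) (hmU : ∀ k, coin (U \ BasA_D U (m k)) ≤ (2⁻¹ : ENNReal) ^ (k + 3))
    (hnd : ∀ k, (T k).Nodup) (hT : ∀ k t, t ∈ T k ↔ ∃ w, w ∉ U ∧ bpre w (m k) = t)
    (hUm : MeasurableSet U) (v : Rl) (s : List Bool) :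
    (∃ k, Cert m T v s k) ↔ 0 < coin (BasA_G U v s) := by
  constructor
  · rintro ⟨k, hk1, hk2⟩
    rw [← BasA_ar, ← BasA_cnt (hnd k) (hT k) v s hk1] at hk2
    rw [pos_iff_ne_zero]
    intro h0
    refine absurd hk2 (not_lt_of_ge ?_)
    have hsub : {z | bpre z s.length = s ∧ z ∉ BasA_D U (m k) ∧ xr z v ∉ BasA_D U (m k)} ⊆
        BasA_G U v s ∪ ((U \ BasA_D U (m k)) ∪
          (fun z => xr z v) ⁻¹' (U \ BasA_D U (m k))) := by
      rintro z ⟨h1, h2, h3⟩
      by_cases h4 : z ∈ U
      · exact Or.inr (Or.inl ⟨h4, h2⟩)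
      · by_cases h5 : xr z v ∈ U
        · exact Or.inr (Or.inr ⟨h5, h3⟩)
        · exact Or.inl ⟨h1, h4, h5⟩
    have h6 : coin ((fun z => xr z v) ⁻¹' (U \ BasA_D U (m k))) =
        coin (U \ BasA_D U (m k)) :=
      (coin_xr v).measure_preimage (hUm.diff (BasA_meas U (m k))).nullMeasurableSet
    calc coin {z | bpre z s.length = s ∧ z ∉ BasA_D U (m k) ∧ xr z v ∉ BasA_D U (m k)}
        ≤ coin (BasA_G U v s ∪ ((U \ BasA_D U (m k)) ∪
          (fun z => xr z v) ⁻¹' (U \ BasA_D U (m k)))) := measure_mono hsub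
      _ ≤ coin (BasA_G U v s) + (coin (U \ BasA_D U (m k)) +
          coin ((fun z => xr z v) ⁻¹' (U \ BasA_D U (m k)))) :=
        (measure_union_le _ _).trans (add_le_add_right (measure_union_le _ _) _)
      _ ≤ (2⁻¹ : ENNReal) ^ (k + 3) + (2⁻¹ : ENNReal) ^ (k + 3) := by
        rw [h0, h6, zero_add]
        exact add_le_add (hmU k) (hmU k)
      _ = (2⁻¹ : ENNReal) ^ (k + 2) := by
        rw [← mul_two, pow_succ, mul_assoc, ENNReal.inv_mul_cancel (by norm_num) (by norm_num),
          mul_one]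
  · intro hpos
    have ht : Tendsto (fun k : ℕ => (2⁻¹ : ENNReal) ^ k) atTop (𝓝 0) :=
      ENNReal.tendsto_pow_atTop_nhds_zero_of_lt_one (by simp)
    obtain ⟨k, hk1, hk2⟩ := ((ht.eventually_lt_const hpos).and (eventually_ge_atTop s.length)).exists
    have hs : s.length ≤ m k := hk2.trans (hm k)
    refine ⟨k, hs, ?_⟩
    rw [← BasA_ar, ← BasA_cnt (hnd k) (hT k) v s hs]
    calc (2⁻¹ : ENNReal) ^ (k + 2) ≤ (2⁻¹ : ENNReal) ^ k :=
          pow_le_pow_of_le_one (by simp) (by simp) (by omega)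
      _ < coin (BasA_G U v s) := hk1
      _ ≤ _ := by
          refine measure_mono ?_
          rintro z ⟨h1, h2, h3⟩
          exact ⟨h1, fun h => h2 (BasA_sub _ h), fun h => h3 (BasA_sub _ h)⟩

theorem cover {N : Set Rl} (hN : coin N = 0) : ∃ (m : ℕ → ℕ) (T : ℕ → List (List Bool)), ∀ v : Rl,
    (∃ k, Cert m T v [] k) ∧
    (∀ s, (∃ k, Cert m T v s k) → ∃ a k, Cert m T v (s ++ [a]) k) ∧
    ∀ z, (∀ n, ∃ k, Cert m T v (bpre z n) k) → z ∉ N ∧ xr z v ∉ N := by
  obtain ⟨U, hNU, hUo, hU8⟩ := N.exists_isOpen_le_add coin (ε := 8⁻¹) (by simp)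
  rw [hN, zero_add] at hU8
  have hUm : MeasurableSet U := hUo.measurableSet
  have hL : ∀ n, ∃ L : List (List Bool), L.Nodup ∧ ∀ t, t ∈ L ↔ ∃ w, w ∉ U ∧ bpre w n = t := by
    intro n
    have hfin : {t : List Bool | ∃ w, w ∉ U ∧ bpre w n = t}.Finite := by
      refine (List.finite_length_eq Bool n).subset ?_
      rintro t ⟨w, -, rfl⟩
      exact bpre_length w n
    refine ⟨hfin.toFinset.toList, Finset.nodup_toList _, fun t => ?_⟩
    rw [Finset.mem_toList, Set.Finite.mem_toFinset]
    rfl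
  choose L hLn hLm using hL
  have hlim : Tendsto (fun n => coin (U \ BasA_D U n)) atTop (𝓝 0) := by
    have h1 := tendsto_measure_iInter_atTop (μ := coin) (s := fun n => U \ BasA_D U n)
      (fun n => (hUm.diff (BasA_meas U n)).nullMeasurableSet)
      (fun n n' h => Set.sdiff_subset_sdiff_right (BasA_mono h)) ⟨0, measure_ne_top _ _⟩
    have h2 : ⋂ n, (U \ BasA_D U n) = ∅ := by
      rw [Set.eq_empty_iff_forall_notMem]
      intro z hz
      rw [Set.mem_iInter] at hz
      obtain ⟨n, hn⟩ := BasA_open hUo (hz 0).1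
      exact (hz n).2 hn
    rw [h2, measure_empty] at h1
    exact h1
  have hm : ∀ k : ℕ, ∃ n, k ≤ n ∧ coin (U \ BasA_D U n) ≤ (2⁻¹ : ENNReal) ^ (k + 3) := by
    intro k
    have h1 : (0 : ENNReal) < (2⁻¹ : ENNReal) ^ (k + 3) :=
      pos_iff_ne_zero.2 (pow_ne_zero _ (by simp))
    obtain ⟨n, hn1, hn2⟩ := ((hlim.eventually_lt_const h1).and (eventually_ge_atTop k)).exists
    exact ⟨n, hn2, hn1.le⟩
  choose m hmk hmU using hm
  refine ⟨m, fun k => L (m k), fun v => ?_⟩
  have key := BasA_key (T := fun k => L (m k)) hmk hmU (fun k => hLn (m k))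
    (fun k => hLm (m k)) hUm v
  refine ⟨?_, ?_, ?_⟩
  · rw [key, pos_iff_ne_zero]
    intro h0
    have hsub : (Set.univ : Set Rl) ⊆ BasA_G U v [] ∪ (U ∪ (fun z => xr z v) ⁻¹' U) := by
      intro z _
      by_cases h4 : z ∈ U
      · exact Or.inr (Or.inl h4)
      · by_cases h5 : xr z v ∈ U
        · exact Or.inr (Or.inr h5)
        · exact Or.inl ⟨rfl, h4, h5⟩
    have h6 : coin ((fun z => xr z v) ⁻¹' U) = coin U :=
      (coin_xr v).measure_preimage hUm.nullMeasurableSet
    have h7 : (1 : ENNReal) ≤ 8⁻¹ + 8⁻¹ := by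
      calc (1 : ENNReal) = coin Set.univ := measure_univ.symm
        _ ≤ coin (BasA_G U v [] ∪ (U ∪ (fun z => xr z v) ⁻¹' U)) := measure_mono hsub
        _ ≤ coin (BasA_G U v []) + (coin U + coin ((fun z => xr z v) ⁻¹' U)) :=
          (measure_union_le _ _).trans (add_le_add_right (measure_union_le _ _) _)
        _ ≤ 8⁻¹ + 8⁻¹ := by
          rw [h0, h6, zero_add]
          exact add_le_add hU8 hU8
    refine absurd h7 (not_le_of_gt ?_)
    rw [← ENNReal.toReal_lt_toReal (by simp) (by simp), ENNReal.toReal_add (by simp) (by simp)]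
    norm_num
  · intro s hs
    rw [key] at hs
    have hsub : BasA_G U v s ⊆ BasA_G U v (s ++ [false]) ∪ BasA_G U v (s ++ [true]) := by
      rintro z ⟨h1, h2, h3⟩
      have h4 : ∀ a, z s.length = a → z ∈ BasA_G U v (s ++ [a]) := by
        intro a ha
        refine ⟨?_, h2, h3⟩
        rw [List.length_append, List.length_singleton, bpre_succ, h1, ha]
      rcases Bool.eq_false_or_eq_true (z s.length) with h | h
      · exact Or.inr (h4 true h)
      · exact Or.inl (h4 false h)
    by_contra hc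
    push Not at hc
    have h5 : ∀ a, coin (BasA_G U v (s ++ [a])) = 0 := by
      intro a
      by_contra hne
      obtain ⟨k, hk⟩ := (key (s ++ [a])).2 (pos_iff_ne_zero.2 hne)
      exact hc a k hk
    have h6 : coin (BasA_G U v s) ≤ 0 :=
      (measure_mono hsub).trans ((measure_union_le _ _).trans (by rw [h5, h5, add_zero]))
    exact absurd hs (not_lt_of_ge h6)
  · intro z hz
    have h1 : ∀ n, (BasA_G U v (bpre z n)).Nonempty := by
      intro n
      exact nonempty_of_measure_ne_zero ((key (bpre z n)).1 (hz n)).ne'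
    constructor
    · intro hzN
      obtain ⟨n, hn⟩ := BasA_open hUo (hNU hzN)
      obtain ⟨w, hw1, hw2, -⟩ := h1 n
      rw [bpre_length] at hw1
      exact hw2 (hn w hw1)
    · intro hzN
      obtain ⟨n, hn⟩ := BasA_open hUo (hNU hzN)
      obtain ⟨w, hw1, -, hw3⟩ := h1 n
      rw [bpre_length] at hw1
      refine hw3 (hn _ ?_)
      rw [BasA_xr, BasA_xr, hw1]

end Pool.Agent.TJ
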