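import Pool.Agent.H.MP_8387fc_lc.TJ.BasD
import Pool.Agent.H.MP_8387fc_lc.TJ.RedS

/-!
# Module BasB: the search of the basis lemma

The real `c` codes the function `k ↦ Encodable.encode (m k, T k)` (`exists_code`). The initial
segments `bpre z n` are computed one after the other (`RI.prec` on encoded strings): given `s` search
for the code of a pair `(a, k)` with `Cert m T v (s ++ [a]) k` (`RI_search`; to have a total search for
all numbers, also for codes of strings without certificate, let the test succeed at once if `s` has no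
certificate, or search with a default; e.g. `RI_search` needs `∀ a, ∃ n, g (Nat.pair a n) = 0`: one can
work with the parameter `n` (the length) instead of the string, and prove by induction that the string
`s n` computed so far has a certificate). `Cert` is a primitive recursive property of
`(s, k, (m k, T k), bpre v (m k))`; `RI.ofBpre`, `jn_l`, `jn_r`, `RI_mono`.
-/

set_option autoImplicit false

namespace Pool.Agent.TJ

open Pool.Agent.H.MP_ad67df_lc

/-- the string coded by a number -/
private def BasB_str (p : ℕ) : List Bool := (Encodable.decode (α := List Bool) p).getD []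

private theorem BasB_str_encode (s : List Bool) : BasB_str (Encodable.encode s) = s := by
  unfold BasB_str
  rw [Encodable.encodek, Option.getD_some]

/-- the certificate property, with the string `w` instead of the initial segment -/
private def BasB_C (m : ℕ → ℕ) (T : ℕ → List (List Bool)) (w s : List Bool) (k : ℕ) : Prop :=
  s.length ≤ m k ∧ 2 ^ m k < 2 ^ (k + 2) * cnt (T k) s w

open Classical in
/-- the test of the search: state `p`, candidate `n`, codes `a`, `b` of initial segments -/
private noncomputable def BasB_F (m : ℕ → ℕ) (T : ℕ → List (List Bool)) (p n a b : ℕ) : ℕ :=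
  if ¬ BasB_C m T (BasB_str a) (BasB_str p.unpair.1) p.unpair.2 ∨
      BasB_C m T (BasB_str b) (BasB_str p.unpair.1 ++ [decide (n.unpair.1 = 1)]) n.unpair.2
  then 0 else 1

/-- the test with the initial segments of `v` -/
private noncomputable def BasB_g (m : ℕ → ℕ) (T : ℕ → List (List Bool)) (v : Rl) (q : ℕ) : ℕ :=
  BasB_F m T q.unpair.1 q.unpair.2 (Encodable.encode (bpre v (m q.unpair.1.unpair.2)))
    (Encodable.encode (bpre v (m q.unpair.2.unpair.2)))

private theorem BasB_g_eq (m : ℕ → ℕ) (T : ℕ → List (List Bool)) (v : Rl) (p n : ℕ) :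
    BasB_g m T v (Nat.pair p n) = 0 ↔ ¬ Cert m T v (BasB_str p.unpair.1) p.unpair.2 ∨
      Cert m T v (BasB_str p.unpair.1 ++ [decide (n.unpair.1 = 1)]) n.unpair.2 := by
  have h1 : ∀ s k, BasB_C m T (BasB_str (Encodable.encode (bpre v (m k)))) s k ↔
      Cert m T v s k := by
    intro s k
    rw [BasB_str_encode]
    rfl
  unfold BasB_g BasB_F
  rw [Nat.unpair_pair, ← h1, ← h1]
  split_ifs with h2
  · exact ⟨fun _ => h2, fun _ => rfl⟩
  · exact ⟨fun h => absurd h (by simp), fun h => absurd h h2⟩

private theorem BasB_fst {O : Set (ℕ →. ℕ)} : RI O fun n => n.unpair.1 :=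
  RI.of_comp (Computable.fst.comp Computable.unpair)

private theorem BasB_snd {O : Set (ℕ →. ℕ)} : RI O fun n => n.unpair.2 :=
  RI.of_comp (Computable.snd.comp Computable.unpair)

private theorem BasB_code (m : ℕ → ℕ) (T : ℕ → List (List Bool)) : ∃ c : Rl, ∀ v : Rl,
    RI {orc (jn v c)} (BasB_g m T v) := by
  obtain ⟨c, hc⟩ := exists_code fun n => Nat.pair (m n) (BasB_F m T n.unpair.1.unpair.1
    n.unpair.1.unpair.2 n.unpair.2.unpair.1 n.unpair.2.unpair.2)
  refine ⟨c, fun v => ?_⟩
  have h0 := RI_mono (jn_r v c) hc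
  have hm : RI {orc (jn v c)} m := by
    refine RI_congr (RI.comp BasB_fst h0) fun n => ?_
    rw [Nat.unpair_pair]
  have hF : RI {orc (jn v c)} fun n => BasB_F m T n.unpair.1.unpair.1
      n.unpair.1.unpair.2 n.unpair.2.unpair.1 n.unpair.2.unpair.2 := by
    refine RI_congr (RI.comp BasB_snd h0) fun n => ?_
    rw [Nat.unpair_pair]
  have hv : RI {orc (jn v c)} fun n => Encodable.encode (bpre v (m n)) :=
    RI.comp (RI_mono (jn_l v c) (RI.ofBpre v)) hm
  have h1 : RI {orc (jn v c)} fun q => q.unpair.1.unpair.2 := RI.comp BasB_snd BasB_fst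
  have h2 : RI {orc (jn v c)} fun q => q.unpair.2.unpair.2 := RI.comp BasB_snd BasB_snd
  have h3 := RI.comp hF (RI.pair (RI.of_comp (O := {orc (jn v c)}) Computable.id)
    (RI.pair (RI.comp hv h1) (RI.comp hv h2)))
  refine RI_congr h3 fun q => ?_
  simp only [Nat.unpair_pair, id]
  rfl

theorem search (m : ℕ → ℕ) (T : ℕ → List (List Bool)) : ∃ c : Rl, ∀ v : Rl,
    (∃ k, Cert m T v [] k) → (∀ s, (∃ k, Cert m T v s k) → ∃ a k, Cert m T v (s ++ [a]) k) →
    ∃ z : Rl, Le z (jn v c) ∧ ∀ n, ∃ k, Cert m T v (bpre z n) k := by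
  obtain ⟨c, hc⟩ := BasB_code m T
  refine ⟨c, fun v h0 hs => ?_⟩
  obtain ⟨k0, hk0⟩ := h0
  have hg := hc v
  have h : ∀ p, ∃ n, BasB_g m T v (Nat.pair p n) = 0 := by
    intro p
    by_cases hp : Cert m T v (BasB_str p.unpair.1) p.unpair.2
    · obtain ⟨a, k, hak⟩ := hs _ ⟨_, hp⟩
      refine ⟨Nat.pair a.toNat k, (BasB_g_eq m T v p _).2 (Or.inr ?_)⟩
      rw [Nat.unpair_pair]
      have ha : decide (a.toNat = 1) = a := by cases a <;> rfl
      simp only [ha]
      exact hak
    · exact ⟨0, (BasB_g_eq m T v p 0).2 (Or.inl hp)⟩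
  have hf := RI_search hg h
  have hspec : ∀ p, BasB_g m T v (Nat.pair p (Nat.find (h p))) = 0 := fun p => Nat.find_spec (h p)
  generalize hff : (fun p => Nat.find (h p)) = f at hf
  have hspec' : ∀ p, BasB_g m T v (Nat.pair p (f p)) = 0 := by
    intro p
    rw [← hff]
    exact hspec p
  -- the next state
  let nx : ℕ → ℕ := fun p => Nat.pair (addBit (Nat.pair p.unpair.1 (f p).unpair.1)) (f p).unpair.2
  have hnx : RI {orc (jn v c)} nx :=
    RI.pair (RI.comp (RI.of_comp computable_addBit) (RI.pair BasB_fst (RI.comp BasB_fst hf)))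
      (RI.comp BasB_snd hf)
  have hnx1 : ∀ p, BasB_str (nx p).unpair.1 =
      BasB_str p.unpair.1 ++ [decide ((f p).unpair.1 = 1)] := by
    intro p
    show BasB_str (Nat.pair _ _).unpair.1 = _
    rw [Nat.unpair_pair]
    show BasB_str (addBit _) = _
    unfold addBit
    rw [BasB_str_encode, Nat.unpair_pair]
    rfl
  have hnx2 : ∀ p, (nx p).unpair.2 = (f p).unpair.2 := by
    intro p
    show (Nat.pair _ _).unpair.2 = _
    rw [Nat.unpair_pair]
  have hnx3 : ∀ p, Cert m T v (BasB_str p.unpair.1) p.unpair.2 →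
      Cert m T v (BasB_str (nx p).unpair.1) (nx p).unpair.2 := by
    intro p hp
    rw [hnx1, hnx2]
    rcases (BasB_g_eq m T v p _).1 (hspec' p) with h1 | h1
    · exact absurd hp h1
    · exact h1
  -- the states
  let S : ℕ → ℕ := fun n => Nat.rec (Nat.pair (Encodable.encode ([] : List Bool)) k0)
    (fun _ IH => nx IH) n
  have hS : RI {orc (jn v c)} S := by
    have h1 : RI {orc (jn v c)} fun _ : ℕ => Nat.pair (Encodable.encode ([] : List Bool)) k0 :=
      RI.of_comp (Computable.const _)
    have h2 : RI {orc (jn v c)} fun x : ℕ => nx x.unpair.2.unpair.2 :=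
      RI.comp hnx (RI.comp BasB_snd BasB_snd)
    have h3 := RI.comp (RI.prec h1 h2) (g := fun s => Nat.pair 0 s)
      (RI.of_comp (Primrec₂.natPair.to_comp.comp (Computable.const 0) Computable.id))
    refine RI_congr h3 fun n => ?_
    simp only [Nat.unpair_pair]
    rfl
  have hS1 : ∀ n, Cert m T v (BasB_str (S n).unpair.1) (S n).unpair.2 := by
    intro n
    induction n with
    | zero =>
      show Cert m T v (BasB_str (Nat.pair _ _).unpair.1) (Nat.pair _ _).unpair.2
      rw [Nat.unpair_pair]
      show Cert m T v (BasB_str (Encodable.encode ([] : List Bool))) k0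
      rw [BasB_str_encode]
      exact hk0
    | succ n ih => exact hnx3 _ ih
  let z : Rl := fun n => decide ((f (S n)).unpair.1 = 1)
  have hz : ∀ n, bpre z n = BasB_str (S n).unpair.1 := by
    intro n
    induction n with
    | zero =>
      show bpre z 0 = BasB_str (Nat.pair _ _).unpair.1
      rw [Nat.unpair_pair]
      show _ = BasB_str (Encodable.encode ([] : List Bool))
      rw [BasB_str_encode]
      rfl
    | succ n ih =>
      rw [bpre_succ, ih]
      exact (hnx1 (S n)).symm
  refine ⟨z, le_iff.2 ?_, fun n => ⟨(S n).unpair.2, ?_⟩⟩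
  · have h1 : Computable fun n : ℕ => (decide (n.unpair.1 = 1)).toNat := by
      have h2 : Primrec fun n : ℕ => if n.unpair.1 = 1 then 1 else 0 :=
        Primrec.ite (Primrec.eq.comp (Primrec.fst.comp Primrec.unpair) (Primrec.const 1))
          (Primrec.const 1) (Primrec.const 0)
      refine (h2.of_eq fun n => ?_).to_comp
      by_cases h3 : n.unpair.1 = 1
      · rw [if_pos h3, decide_eq_true h3]
        rfl
      · rw [if_neg h3, decide_eq_false h3]
        rfl
    exact RI.comp (RI.of_comp h1) (RI.comp hf hS)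
  · rw [hz]
    exact hS1 n

end Pool.Agent.TJ
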