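import Pool.Agent.H.MP_8387fc_lc.TJ.Defs

/-!
# Module BasD: definitions for the basis lemma
-/

set_option autoImplicit false

namespace Pool.Agent.TJ

open Pool.Agent.H.MP_ad67df_lc

/-- The number of the strings `t` in the list `T` which extend `s` and for which `t + w` is in `T`. -/
def cnt (T : List (List Bool)) (s w : List Bool) : ℕ :=
  (T.filter fun t => decide (t.take s.length = s) && decide (List.zipWith xor t w ∈ T)).length

/-- Certificate: among the `2 ^ m k` strings of length `m k` more than the fraction
`2 ^ (- (k + 2))` is counted by `cnt`. -/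
def Cert (m : ℕ → ℕ) (T : ℕ → List (List Bool)) (v : Rl) (s : List Bool) (k : ℕ) : Prop :=
  s.length ≤ m k ∧ 2 ^ m k < 2 ^ (k + 2) * cnt (T k) s (bpre v (m k))

end Pool.Agent.TJ
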