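import Pool.Agent.H.MP_8387fc_lc.TJ.BasA
import Pool.Agent.H.MP_8387fc_lc.TJ.BasB
import Pool.Agent.H.MP_8387fc_lc.TJ.App

/-!
# Module Basis: joins of two reals with low values
-/

set_option autoImplicit false

namespace Pool.Agent.TJ

open MeasureTheory Pool.Agent.H.MP_ad67df_lc

/-- The basis lemma. -/
theorem basis {N : Set Rl} (hN : coin N = 0) :
    ∃ c : Rl, ∀ v : Rl, ∃ z : Rl, Le z (jn v c) ∧ z ∉ N ∧ xr z v ∉ N := by
  obtain ⟨m, T, hT⟩ := cover hN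
  obtain ⟨c, hc⟩ := search m T
  refine ⟨c, fun v => ?_⟩
  obtain ⟨h1, h2, h3⟩ := hT v
  obtain ⟨z, hz, hz'⟩ := hc v h1 h2
  exact ⟨z, hz, h3 z hz'⟩

theorem meas_jn (b : Rl) : Measurable fun z : Rl => jn b z := by
  refine measurable_pi_iff.2 fun n => ?_
  unfold jn
  by_cases h : n % 2 = 0
  · simp only [h, if_true]
    exact measurable_const
  · simp only [h, if_false]
    exact measurable_pi_apply _

/-- Every real `v` above `c` is the join of two reals `u₁, u₂` with `g₁ u₁ ≤ v`, `g₂ u₂ ≤ v`. -/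
theorem low_join2 {g₁ g₂ : Rl → Rl} (hg₁ : UM g₁) (hg₂ : UM g₂) (b : Rl) : ∃ c : Rl, ∀ v, Le c v →
    ∃ u₁ u₂ : Rl, Le b u₁ ∧ Le b u₂ ∧ Le (g₁ u₁) v ∧ Le (g₂ u₂) v ∧ Le u₁ v ∧ Le u₂ v ∧
      Le v (jn u₁ u₂) := by
  obtain ⟨a1, ha1⟩ := lusin_one hg₁ (meas_jn b)
  obtain ⟨a2, ha2⟩ := lusin_one hg₂ (meas_jn b)
  obtain ⟨c1, hc1⟩ := basis (N := {z | ¬ Le (g₁ (jn b z)) (jn (jn b z) a1)} ∪
    {z | ¬ Le (g₂ (jn b z)) (jn (jn b z) a2)}) (measure_union_null ha1 ha2)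
  refine ⟨jn (jn b (jn a1 a2)) c1, fun v hv => ?_⟩
  have hb : Le b v := ((jn_l _ _).trans (jn_l _ _)).trans hv
  have h1 : Le a1 v := ((jn_l _ _).trans ((jn_r _ _).trans (jn_l _ _))).trans hv
  have h2 : Le a2 v := ((jn_r _ _).trans ((jn_r _ _).trans (jn_l _ _))).trans hv
  have h3 : Le c1 v := (jn_r _ _).trans hv
  obtain ⟨z, hz, hz1, hz2⟩ := hc1 v
  have k1 : Le (g₁ (jn b z)) (jn (jn b z) a1) := by
    by_contra hn
    exact hz1 (Or.inl hn)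
  have k2 : Le (g₂ (jn b (xr z v))) (jn (jn b (xr z v)) a2) := by
    by_contra hn
    exact hz2 (Or.inr hn)
  have hzv : Le z v := hz.trans (jn_lub (Le.refl v) h3)
  have hxv : Le (xr z v) v := (xr_le z v).trans (jn_lub hzv (Le.refl v))
  have hu1 : Le (jn b z) v := jn_lub hb hzv
  have hu2 : Le (jn b (xr z v)) v := jn_lub hb hxv
  refine ⟨jn b z, jn b (xr z v), jn_l _ _, jn_l _ _, k1.trans (jn_lub hu1 h1),
    k2.trans (jn_lub hu2 h2), hu1, hu2, ?_⟩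
  have e : v = xr z (xr z v) := by
    funext n
    unfold xr
    cases z n <;> cases v n <;> rfl
  have h4 : Le (xr z (xr z v)) (jn (jn b z) (jn b (xr z v))) :=
    (xr_le z (xr z v)).trans (jn_lub ((jn_r _ _).trans (jn_l _ _))
      ((jn_r _ _).trans (jn_r _ _)))
  rw [← e] at h4
  exact h4

/-- Every real `v` above `c` is the join of two reals `u₁, u₂` with `f u₁ ≤ v`, `f u₂ ≤ v`. -/
theorem low_join {f : Rl → Rl} (hf : UM f) (b : Rl) : ∃ c : Rl, ∀ v, Le c v →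
    ∃ u₁ u₂ : Rl, Le b u₁ ∧ Le b u₂ ∧ Le (f u₁) v ∧ Le (f u₂) v ∧ Le u₁ v ∧ Le u₂ v ∧
      Le v (jn u₁ u₂) := low_join2 hf hf b

end Pool.Agent.TJ
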