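import Pool.Agent.H.MP_8387fc_lc.TJ.Red

/-!
# Module RedC: lower cones are countable
-/

set_option autoImplicit false

namespace Pool.Agent.TJ

open Pool.Agent.H.MP_ad67df_lc

/-- If `x ≤_T y`, then `x` is computed by one of the functionals `Phi e`. -/
theorem exists_Phi_of_le {x y : Rl} (h : Le x y) :
    ∃ e, ∀ i, ∃ t, Phi e (bpre y t) i = some (x i).toNat := by
  obtain ⟨e, he⟩ := exists_Phi y (f := fun n => Part.some (x n).toNat) h
  exact ⟨e, fun i => (he i (x i).toNat).1 (Part.mem_some _)⟩

theorem countable_le (y : Rl) : {x : Rl | Le x y}.Countable := by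
  classical
  have h1 : {x : Rl | Le x y} ⊆
      ⋃ e : ℕ, {x : Rl | ∀ i, ∃ t, Phi e (bpre y t) i = some (x i).toNat} := by
    intro x hx
    obtain ⟨e, he⟩ := exists_Phi_of_le hx
    exact Set.mem_iUnion.2 ⟨e, he⟩
  refine Set.Countable.mono h1 (Set.countable_iUnion fun e => Set.Subsingleton.countable ?_)
  intro a ha b hb
  funext i
  obtain ⟨t, ht⟩ := ha i
  obtain ⟨s, hs⟩ := hb i
  have h2 := Phi_mono (bpre_prefix y (le_max_left t s)) ht
  have h3 := Phi_mono (bpre_prefix y (le_max_right t s)) hs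
  have h4 : (a i).toNat = (b i).toNat := Option.some_injective _ (h2.symm.trans h3)
  cases hA : a i <;> cases hB : b i <;> simp_all

end Pool.Agent.TJ
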