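import Pool.Agent.H.MP_8387fc_lc.TJ.SchD
import Pool.Agent.H.MP_8387fc_lc.TJ.RedC

/-!
# Module Cod: coding, the combinatorial part

`z0 s` is the real `s 0 0 0 ...`.
-/

set_option autoImplicit false

namespace Pool.Agent.TJ

open Pool.Agent.H.MP_ad67df_lc

/-- The data of the decoder. `a < 2` is the number of the system, `y a j`, `j < 3`, are its three
reals. In the step `k` the real `y a (k % 3)` follows `Q (z0 (s a k))` up to `n a (k + 2)`. The index
of `Q (z0 (s a k))` is at most `n a k`, and `n a (k + 1)` bits suffice to distinguish it from the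
other functions with an index at most `n a k`. -/
structure Data (Q : Rl → Rl) (c x : Rl) (y : ℕ → ℕ → Rl) (n : ℕ → ℕ → ℕ)
    (s : ℕ → ℕ → List Bool) : Prop where
  ind : ∀ a k, ∃ e ≤ n a k, ∀ i, ∃ t, Phi e (bpre c t) i = some (Q (z0 (s a k)) i).toNat
  dis : ∀ a k, ∀ e ≤ n a k,
    (∀ i < n a (k + 1), ∃ t, Phi e (bpre c t) i = some (Q (z0 (s a k)) i).toNat) →
      ∀ i, ∃ t, Phi e (bpre c t) i = some (Q (z0 (s a k)) i).toNat
  inc : ∀ a k, n a (k + 1) < n a (k + 2)
  agr : ∀ a k, ∀ i < n a (k + 2), Q (y a (k % 3)) i = Q (z0 (s a k)) i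
  dif : ∀ a k, Q (y a (k % 3)) (n a (k + 2)) ≠ Q (z0 (s a k)) (n a (k + 2))
  bit : ∀ k, n 0 (k + 2) < n 1 (k + 2) ↔ x k = true

private theorem Cod_z0 (s : List Bool) : bpre (z0 s) s.length = s := by
  refine List.ext_getElem? fun i => ?_
  by_cases hi : i < s.length
  · rw [bpre_getElem? _ hi]
    unfold z0
    rw [List.getD_eq_getElem _ _ hi, List.getElem?_eq_getElem hi]
  · rw [List.getElem?_eq_none (by rw [bpre_length]; omega), List.getElem?_eq_none (by omega)]

private theorem Cod_z0_rep (s : List Bool) (j : ℕ) : z0 (s ++ List.replicate j false) = z0 s := by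
  funext n
  unfold z0
  by_cases hn : n < s.length
  · rw [List.getD_append _ _ _ _ hn]
  · rw [List.getD_append_right _ _ _ _ (by omega), List.getD_eq_default s false (by omega)]
    by_cases h2 : n - s.length < j
    · rw [List.getD_eq_getElem _ _ (by rw [List.length_replicate]; exact h2),
        List.getElem_replicate]
    · rw [List.getD_eq_default _ _ (by rw [List.length_replicate]; omega)]

private theorem Cod_ext {ρ : List Bool → List Bool} {Q : Rl → Rl} (h : Sch ρ Q) {y : Rl}
    {u : List Bool} (hy : bpre y u.length = u) {i : ℕ} (hi : i < (ρ u).length) :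
    (ρ u)[i]? = some (Q y i) := by
  have h1 := h.ext y u.length
  rw [hy] at h1
  rw [← bpre_getElem? (Q y) hi, h1]

/-- Deviation: `Q y` follows `Q (z0 s)` exactly up to some place `n ≥ N`, for all `y` which extend
some `t`, a proper extension of `s`. -/
theorem dev {ρ : List Bool → List Bool} {Q : Rl → Rl} (h : Sch ρ Q) (hi : Inc ρ) (s : List Bool)
    (N : ℕ) : ∃ (t : List Bool) (n : ℕ), s <+: t ∧ s.length < t.length ∧ N ≤ n ∧
      ∀ y : Rl, bpre y t.length = t → (∀ i < n, Q y i = Q (z0 s) i) ∧ Q y n ≠ Q (z0 s) n := by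
  classical
  obtain ⟨u, hu⟩ : ∃ u : List Bool, u = s ++ List.replicate (N + 1) false := ⟨_, rfl⟩
  have hul : u.length = s.length + (N + 1) := by rw [hu, List.length_append, List.length_replicate]
  have hzu : z0 u = z0 s := by rw [hu, Cod_z0_rep]
  have hz1 : bpre (z0 s) u.length = u := by rw [← hzu]; exact Cod_z0 u
  have hz2 : bpre (z0 s) (u ++ [false]).length = u ++ [false] := by
    have h1 : z0 (u ++ [false]) = z0 s := (Cod_z0_rep u 1).trans hzu
    rw [← h1]
    exact Cod_z0 _
  have hex := hi u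
  obtain ⟨h1, h2, h3⟩ := Nat.find_spec hex
  have hmin : ∀ i < Nat.find hex, (ρ (u ++ [false]))[i]? = (ρ (u ++ [true]))[i]? := by
    intro i hi'
    by_contra hne
    exact Nat.find_min hex hi' ⟨hi'.trans h1, hi'.trans h2, hne⟩
  obtain ⟨n, hn⟩ : ∃ n, n = Nat.find hex := ⟨_, rfl⟩
  rw [← hn] at h1 h2 h3 hmin
  have hyu : ∀ y : Rl, bpre y (u ++ [true]).length = u ++ [true] → bpre y u.length = u := by
    intro y hy
    have h4 := bpre_take y (k := u.length) (m := (u ++ [true]).length) (by simp)
    rw [hy] at h4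
    rw [← h4, List.take_left' rfl]
  have key : ∀ y : Rl, bpre y (u ++ [true]).length = u ++ [true] →
      (∀ i < n, Q y i = Q (z0 s) i) ∧ Q y n ≠ Q (z0 s) n := by
    intro y hy
    refine ⟨fun i hi' => ?_, fun he => h3 ?_⟩
    · have h4 := hmin i hi'
      rw [Cod_ext h hz2 (hi'.trans h1), Cod_ext h hy (hi'.trans h2)] at h4
      exact (Option.some.inj h4).symm
    · rw [Cod_ext h hz2 h1, Cod_ext h hy h2, he]
  refine ⟨u ++ [true], n, ?_, ?_, ?_, key⟩
  · rw [hu, List.append_assoc]
    exact List.prefix_append _ _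
  · rw [List.length_append, hul]
    omega
  · by_contra hlt
    have h5 : n < (ρ u).length := by
      have := h.len u
      omega
    have h6 := Cod_z0 (u ++ [true])
    refine (key _ h6).2 ?_
    have h7 := Cod_ext h (hyu _ h6) h5
    rw [Cod_ext h hz1 h5] at h7
    exact (Option.some.inj h7).symm

/-- Distinction of one function from finitely many others. -/
theorem dist_bound {c : Rl} (q : Rl) (M : ℕ) : ∃ d, ∀ e ≤ M,
    (∀ i < d, ∃ t, Phi e (bpre c t) i = some (q i).toNat) →
      ∀ i, ∃ t, Phi e (bpre c t) i = some (q i).toNat := by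
  classical
  have h1 : ∀ e, ∃ j, (∀ i < j + 1, ∃ t, Phi e (bpre c t) i = some (q i).toNat) →
      ∀ i, ∃ t, Phi e (bpre c t) i = some (q i).toNat := by
    intro e
    by_cases h : ∀ i, ∃ t, Phi e (bpre c t) i = some (q i).toNat
    · exact ⟨0, fun _ => h⟩
    · obtain ⟨i, hi⟩ := not_forall.1 h
      exact ⟨i, fun h2 => absurd (h2 i (Nat.lt_succ_self i)) hi⟩
  choose j hj using h1
  refine ⟨(Finset.range (M + 1)).sup j + 1, fun e he h2 => hj e fun i hi => h2 i ?_⟩
  have h3 : j e ≤ (Finset.range (M + 1)).sup j :=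
    Finset.le_sup (f := j) (Finset.mem_range.2 (Nat.lt_succ_of_le he))
  omega

end Pool.Agent.TJ
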