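import Pool.Agent.H.MP_8387fc_lc.TJ.Cod

/-!
# Module CodB: construction of the data

State before the step `k`: strings `S a j` (`a < 2`, `j < 3`), numbers `p a = n a k`,
`q a = n a (k + 1)`. Invariant: index of `Q (z0 (S a (k % 3)))` at most `p a`; `q a` bounds the
distinction (`dist_bound`, with `M = p a`) for it; index of `Q (z0 (S a ((k + 1) % 3)))` at most
`q a`. Step: `dev` for `S a (k % 3)` with a bound `N` larger than `q a`, the distinction bound for
`Q (z0 (S a ((k + 1) % 3)))` with `M = q a` and the index for `S a ((k + 2) % 3)`; first for `a = 0`,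
then for `a = 1` with a larger bound if `x k = true`, in the other order if `x k = false`. The reals
`y a j` are the unions of the strings. (Take the same construction for all `a`, e.g. with `a = 0` for
even and `a = 1` for odd `a`.)
-/

set_option autoImplicit false

namespace Pool.Agent.TJ

open Pool.Agent.H.MP_ad67df_lc

/-- The state of the construction. -/
structure CodB_St : Type where
  S : ℕ → ℕ → List Bool
  p : ℕ → ℕ
  q : ℕ → ℕ

section

variable (dt : List Bool → ℕ → List Bool) (dn : List Bool → ℕ → ℕ) (db : List Bool → ℕ → ℕ)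
  (ix : List Bool → ℕ) (x : ℕ → Bool)

/-- The first bound. -/
def CodB_nb (k : ℕ) (t : CodB_St) (a : ℕ) : ℕ :=
  t.q a + 1 + db (t.S a ((k + 1) % 3)) (t.q a) + ix (t.S a ((k + 2) % 3))

/-- The summand for the order. -/
def CodB_ex (k : ℕ) (t : CodB_St) (a : ℕ) : ℕ :=
  if x k = true then (if a = 1 then dn (t.S 0 (k % 3)) (CodB_nb db ix k t 0) + 1 else 0)
  else (if a = 0 then dn (t.S 1 (k % 3)) (CodB_nb db ix k t 1) + 1 else 0)

/-- The bound. -/
def CodB_N (k : ℕ) (t : CodB_St) (a : ℕ) : ℕ := CodB_nb db ix k t a + CodB_ex dn db ix x k t a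

/-- The step. -/
def CodB_step (k : ℕ) (t : CodB_St) : CodB_St where
  S a := Function.update (t.S a) (k % 3) (dt (t.S a (k % 3)) (CodB_N dn db ix x k t a))
  p := t.q
  q a := dn (t.S a (k % 3)) (CodB_N dn db ix x k t a)

/-- The states. -/
def CodB_st : ℕ → CodB_St
  | 0 => ⟨fun _ _ => [], fun _ => ix [], fun _ => db [] (ix []) + ix []⟩
  | k + 1 => CodB_step dt dn db ix x k (CodB_st k)

end

theorem CodB_getD {s t : List Bool} (h : s <+: t) {i : ℕ} (hi : i < s.length) :
    s.getD i false = t.getD i false := by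
  obtain ⟨r, rfl⟩ := h
  rw [List.getD_append _ _ _ _ hi]

theorem exists_data {ρ : List Bool → List Bool} {Q : Rl → Rl} (h : Sch ρ Q) (hi : Inc ρ) {c : Rl}
    (hc : ∀ s, Le (Q (z0 s)) c) (x : Rl) : ∃ y n s, Data Q c x y n s := by
  have hdev := fun (s : List Bool) (N : ℕ) => dev h hi s N
  choose dt dn hdt using hdev
  have hdist := fun (s : List Bool) (M : ℕ) => dist_bound (c := c) (Q (z0 s)) M
  choose db hdb using hdist
  have hindex := fun (s : List Bool) => exists_Phi_of_le (hc s)
  choose ix hix using hindex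
  obtain ⟨st, hst0, hst⟩ : ∃ st : ℕ → CodB_St,
      st 0 = ⟨fun _ _ => [], fun _ => ix [], fun _ => db [] (ix []) + ix []⟩ ∧
      ∀ k, st (k + 1) = CodB_step dt dn db ix x k (st k) :=
    ⟨CodB_st dt dn db ix x, rfl, fun _ => rfl⟩
  have hS : ∀ k a j, (st (k + 1)).S a j = if j = k % 3 then
      dt ((st k).S a (k % 3)) (CodB_N dn db ix x k (st k) a) else (st k).S a j := by
    intro k a j
    rw [hst]
    show Function.update _ _ _ j = _
    rw [Function.update_apply]
  have hp : ∀ k a, (st (k + 1)).p a = (st k).q a := by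
    intro k a
    rw [hst]
    rfl
  have hq : ∀ k a, (st (k + 1)).q a = dn ((st k).S a (k % 3)) (CodB_N dn db ix x k (st k) a) := by
    intro k a
    rw [hst]
    rfl
  have hNq : ∀ k a, CodB_N dn db ix x k (st k) a ≤ (st (k + 1)).q a := by
    intro k a
    rw [hq]
    exact (hdt _ _).2.2.1
  have hnb : ∀ k a, CodB_nb db ix k (st k) a ≤ (st (k + 1)).q a := by
    intro k a
    refine le_trans ?_ (hNq k a)
    exact Nat.le_add_right _ _
  -- the invariant
  have hinv : ∀ k a, ix ((st k).S a (k % 3)) ≤ (st k).p a ∧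
      db ((st k).S a (k % 3)) ((st k).p a) ≤ (st k).q a ∧
      ix ((st k).S a ((k + 1) % 3)) ≤ (st k).q a := by
    intro k
    induction k with
    | zero =>
      intro a
      rw [hst0]
      exact ⟨le_refl _, Nat.le_add_right _ _, Nat.le_add_left _ _⟩
    | succ k ih =>
      intro a
      obtain ⟨-, -, i3⟩ := ih a
      have h1 := hnb k a
      have h2 : (st (k + 1)).S a ((k + 1) % 3) = (st k).S a ((k + 1) % 3) := by
        rw [hS, if_neg (by omega)]
      have h3 : (st (k + 1)).S a ((k + 1 + 1) % 3) = (st k).S a ((k + 2) % 3) := by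
        rw [hS, if_neg (by omega)]
      rw [h2, h3, hp]
      unfold CodB_nb at h1
      refine ⟨i3, ?_, ?_⟩ <;> omega
  -- the strings grow
  have hpre1 : ∀ k a j, (st k).S a j <+: (st (k + 1)).S a j := by
    intro k a j
    rw [hS]
    split_ifs with hj
    · rw [hj]
      exact (hdt _ _).1
    · exact List.prefix_refl _
  have hpre : ∀ k l a j, k ≤ l → (st k).S a j <+: (st l).S a j := by
    intro k l a j hkl
    induction l, hkl using Nat.le_induction with
    | base => exact List.prefix_refl _
    | succ l _ ih => exact ih.trans (hpre1 l a j)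
  have hlen1 : ∀ k a, ((st k).S a (k % 3)).length < ((st (k + 1)).S a (k % 3)).length := by
    intro k a
    rw [hS, if_pos rfl]
    exact (hdt _ _).2.1
  have hlen : ∀ m a j, j < 3 → m ≤ ((st (3 * m)).S a j).length := by
    intro m a j hj
    induction m with
    | zero => exact Nat.zero_le _
    | succ m ih =>
      have h1 := (hpre (3 * m) (3 * m + j) a j (Nat.le_add_right _ _)).length_le
      have h2 := hlen1 (3 * m + j) a
      have h3 : (3 * m + j) % 3 = j := by omega
      rw [h3] at h2
      have h4 := (hpre (3 * m + j + 1) (3 * (m + 1)) a j (by omega)).length_le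
      omega
  -- the reals
  obtain ⟨y, hy⟩ : ∃ y : ℕ → ℕ → Rl, ∀ a j i, y a j i = ((st (3 * (i + 1))).S a j).getD i false :=
    ⟨fun a j i => ((st (3 * (i + 1))).S a j).getD i false, fun _ _ _ => rfl⟩
  have hyS : ∀ k a j, j < 3 → bpre (y a j) ((st k).S a j).length = (st k).S a j := by
    intro k a j hj
    refine List.ext_getElem (bpre_length _ _) fun i h1 h2 => ?_
    have e1 : (bpre (y a j) ((st k).S a j).length)[i]? = some (y a j i) := bpre_getElem? _ h2
    rw [List.getElem?_eq_getElem h1] at e1
    rw [Option.some_inj.1 e1, hy, ← List.getD_eq_getElem _ false h2]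
    have h3 := hlen (i + 1) a j hj
    rcases le_total k (3 * (i + 1)) with hk | hk
    · exact (CodB_getD (hpre k _ a j hk) h2).symm
    · exact CodB_getD (hpre _ k a j hk) (by omega)
  refine ⟨y, fun a k => (st k).p a, fun a k => (st k).S a (k % 3), ?_, ?_, ?_, ?_, ?_, ?_⟩
  · intro a k
    exact ⟨ix ((st k).S a (k % 3)), (hinv k a).1, hix _⟩
  · intro a k e he h1
    refine hdb ((st k).S a (k % 3)) ((st k).p a) e he fun i hi => h1 i ?_
    show i < (st (k + 1)).p a
    rw [hp]
    exact lt_of_lt_of_le hi (hinv k a).2.1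
  · intro a k
    show (st (k + 1)).p a < (st (k + 2)).p a
    rw [hp, hp]
    have h1 := hnb k a
    unfold CodB_nb at h1
    omega
  · intro a k i hik
    have hik' : i < dn ((st k).S a (k % 3)) (CodB_N dn db ix x k (st k) a) := by
      rw [← hq, ← hp]
      exact hik
    refine ((hdt _ _).2.2.2 (y a (k % 3)) ?_).1 i hik'
    have h1 := hyS (k + 1) a (k % 3) (Nat.mod_lt _ (by norm_num))
    rw [hS, if_pos rfl] at h1
    exact h1
  · intro a k
    have e : (st (k + 2)).p a = dn ((st k).S a (k % 3)) (CodB_N dn db ix x k (st k) a) := by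
      rw [hp, hq]
    show Q (y a (k % 3)) ((st (k + 2)).p a) ≠ Q (z0 ((st k).S a (k % 3))) ((st (k + 2)).p a)
    rw [e]
    refine ((hdt _ _).2.2.2 (y a (k % 3)) ?_).2
    have h1 := hyS (k + 1) a (k % 3) (Nat.mod_lt _ (by norm_num))
    rw [hS, if_pos rfl] at h1
    exact h1
  · intro k
    show (st (k + 2)).p 0 < (st (k + 2)).p 1 ↔ x k = true
    rw [hp, hp]
    constructor
    · intro h1
      by_contra hx
      have h2 := hNq k 0
      have h3 : CodB_N dn db ix x k (st k) 0 = CodB_nb db ix k (st k) 0 +
          (dn ((st k).S 1 (k % 3)) (CodB_nb db ix k (st k) 1) + 1) := by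
        unfold CodB_N CodB_ex
        rw [if_neg hx, if_pos rfl]
      have h4 : CodB_N dn db ix x k (st k) 1 = CodB_nb db ix k (st k) 1 := by
        unfold CodB_N CodB_ex
        rw [if_neg hx, if_neg (by norm_num)]
        exact Nat.add_zero _
      have h5 := hq k 1
      rw [h4] at h5
      omega
    · intro hx
      have h2 := hNq k 1
      have h3 : CodB_N dn db ix x k (st k) 1 = CodB_nb db ix k (st k) 1 +
          (dn ((st k).S 0 (k % 3)) (CodB_nb db ix k (st k) 0) + 1) := by
        unfold CodB_N CodB_ex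
        rw [if_pos hx, if_pos rfl]
      have h4 : CodB_N dn db ix x k (st k) 0 = CodB_nb db ix k (st k) 0 := by
        unfold CodB_N CodB_ex
        rw [if_pos hx, if_neg (by norm_num)]
        exact Nat.add_zero _
      have h5 := hq k 0
      rw [h4] at h5
      omega

end Pool.Agent.TJ
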