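import Pool.Agent.H.MP_8387fc_lc.TJ.Cod
import Pool.Agent.H.MP_8387fc_lc.TJ.RedS

/-!
# Module CodD: decoding

The numbers `n a (k + 2)` are computed one after the other from `c` and the reals `Q (y a j)`: search
for `e, m, t` such that `e ≤ n a k`, `n a (k + 1) ≤ m`, `Phi e (bpre c t) i = some (r i).toNat` for all
`i < m` and `Phi e (bpre c t) m = some v`, `v ≠ (r m).toNat`, where `r = Q (y a (k % 3))`; then
`m = n a (k + 2)`: the function with index `e` agrees with `Q (z0 (s a k))` at all `i < n a (k + 1)`,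
hence (`dis`) it is equal to it.
-/

set_option autoImplicit false

namespace Pool.Agent.TJ

open Pool.Agent.H.MP_ad67df_lc

/-- The join of six reals. -/
def j6 (q : ℕ → ℕ → Rl) : Rl :=
  jn (jn (jn (q 0 0) (q 0 1)) (q 0 2)) (jn (jn (q 1 0) (q 1 1)) (q 1 2))

/-- The address of the bits of the three reals. -/
private def CodD_idx (j i : ℕ) : ℕ :=
  if j = 0 then 8 * i + 1 else if j = 1 then 8 * i + 5 else 4 * i + 3

/-- The bits of the first real. -/
private def CodD_cs (σ : List Bool) : List Bool :=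
  (List.range (σ.length / 2)).map fun i => σ.getD (2 * i) false

/-- The bits of the three reals. -/
private def CodD_bit (σ : List Bool) (j i : ℕ) : ℕ := (σ.getD (CodD_idx j i) false).toNat

/-- The test for `m`. -/
private def CodD_T (σ : List Bool) (j u v m : ℕ) : Prop :=
  v ≤ m ∧ CodD_idx j m < σ.length ∧ ∃ e < u + 1,
    (∀ i < m, Phi e (CodD_cs σ) i = some (CodD_bit σ j i)) ∧ Phi e (CodD_cs σ) m ≠ none ∧
      Phi e (CodD_cs σ) m ≠ some (CodD_bit σ j m)

open Classical in
/-- The next number. -/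
private noncomputable def CodD_step (σ : List Bool) (j u v : ℕ) : Option ℕ :=
  ((List.range σ.length).filterMap fun m => if CodD_T σ j u v m then some m else none).head?

/-- All numbers. -/
private noncomputable def CodD_run (u v : ℕ) (σ : List Bool) : ℕ → Option (ℕ × ℕ)
  | 0 => some (u, v)
  | k + 1 => (CodD_run u v σ k).bind fun p =>
      (CodD_step σ (k % 3) p.1 p.2).map fun m => (p.2, m)

section prim

variable {α : Type} [Primcodable α]

private theorem CodD_idx_prim {j i : α → ℕ} (hj : Primrec j) (hi : Primrec i) :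
    Primrec fun a => CodD_idx (j a) (i a) := by
  unfold CodD_idx
  refine Primrec.ite (Primrec.eq.comp hj (Primrec.const 0)) ?_
    (Primrec.ite (Primrec.eq.comp hj (Primrec.const 1)) ?_ ?_)
  · exact Primrec.nat_add.comp (Primrec.nat_mul.comp (Primrec.const 8) hi) (Primrec.const 1)
  · exact Primrec.nat_add.comp (Primrec.nat_mul.comp (Primrec.const 8) hi) (Primrec.const 5)
  · exact Primrec.nat_add.comp (Primrec.nat_mul.comp (Primrec.const 4) hi) (Primrec.const 3)

private theorem CodD_cs_prim {σ : α → List Bool} (hσ : Primrec σ) :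
    Primrec fun a => CodD_cs (σ a) := by
  unfold CodD_cs
  refine Primrec.list_map (Primrec.list_range.comp
    (Primrec.nat_div.comp (Primrec.list_length.comp hσ) (Primrec.const 2))) (Primrec₂.mk ?_)
  exact (Primrec.list_getD false).comp (hσ.comp Primrec.fst)
    (Primrec.nat_mul.comp (Primrec.const 2) Primrec.snd)

private theorem CodD_bit_prim {σ : α → List Bool} {j i : α → ℕ} (hσ : Primrec σ)
    (hj : Primrec j) (hi : Primrec i) : Primrec fun a => CodD_bit (σ a) (j a) (i a) := by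
  unfold CodD_bit
  exact (Primrec.dom_bool Bool.toNat).comp
    ((Primrec.list_getD false).comp hσ (CodD_idx_prim hj hi))

private theorem CodD_Phi_prim {σ : α → List Bool} {e i : α → ℕ} (hσ : Primrec σ)
    (he : Primrec e) (hi : Primrec i) : Primrec fun a => Phi (e a) (CodD_cs (σ a)) (i a) :=
  primrec_Phi.comp (Primrec.pair (Primrec.pair he (CodD_cs_prim hσ)) hi)

end prim

private theorem CodD_T_prim : PrimrecPred fun p : ((List Bool × ℕ) × (ℕ × ℕ)) × ℕ =>
    CodD_T p.1.1.1 p.1.1.2 p.1.2.1 p.1.2.2 p.2 := by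
  have k1 : PrimrecRel fun (i : ℕ) (q : ℕ × (((List Bool × ℕ) × (ℕ × ℕ)) × ℕ)) =>
      Phi q.1 (CodD_cs q.2.1.1.1) i = some (CodD_bit q.2.1.1.1 q.2.1.1.2 i) := by
    have a1 : Primrec fun x : ℕ × (ℕ × (((List Bool × ℕ) × (ℕ × ℕ)) × ℕ)) => x.2.2.1.1 :=
      Primrec.fst.comp (Primrec.fst.comp (Primrec.snd.comp Primrec.snd))
    exact Primrec.eq.comp
      (CodD_Phi_prim (Primrec.fst.comp a1) (Primrec.fst.comp Primrec.snd) Primrec.fst)
      (Primrec.option_some.comp
        (CodD_bit_prim (Primrec.fst.comp a1) (Primrec.snd.comp a1) Primrec.fst))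
  have k2 : PrimrecRel fun (e : ℕ) (p : ((List Bool × ℕ) × (ℕ × ℕ)) × ℕ) =>
      (∀ i < p.2, Phi e (CodD_cs p.1.1.1) i = some (CodD_bit p.1.1.1 p.1.1.2 i)) ∧
        Phi e (CodD_cs p.1.1.1) p.2 ≠ none ∧
          Phi e (CodD_cs p.1.1.1) p.2 ≠ some (CodD_bit p.1.1.1 p.1.1.2 p.2) := by
    have a1 : Primrec fun x : ℕ × (((List Bool × ℕ) × (ℕ × ℕ)) × ℕ) => x.2.1.1 :=
      Primrec.fst.comp (Primrec.fst.comp Primrec.snd)
    have a2 : Primrec fun x : ℕ × (((List Bool × ℕ) × (ℕ × ℕ)) × ℕ) => x.2.2 :=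
      Primrec.snd.comp Primrec.snd
    have a3 : Primrec fun x : ℕ × (((List Bool × ℕ) × (ℕ × ℕ)) × ℕ) =>
        Phi x.1 (CodD_cs x.2.1.1.1) x.2.2 :=
      CodD_Phi_prim (Primrec.fst.comp a1) Primrec.fst a2
    have a4 : Primrec fun x : ℕ × (((List Bool × ℕ) × (ℕ × ℕ)) × ℕ) =>
        some (CodD_bit x.2.1.1.1 x.2.1.1.2 x.2.2) :=
      Primrec.option_some.comp (CodD_bit_prim (Primrec.fst.comp a1) (Primrec.snd.comp a1) a2)
    refine PrimrecPred.and ((ball_lt k1).comp a2 Primrec.id) (PrimrecPred.and ?_ ?_)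
    · exact (Primrec.eq.comp a3 (Primrec.const none)).not
    · exact (Primrec.eq.comp a3 a4).not
  have b1 : Primrec fun p : ((List Bool × ℕ) × (ℕ × ℕ)) × ℕ => p.1.1 :=
    Primrec.fst.comp Primrec.fst
  have b2 : Primrec fun p : ((List Bool × ℕ) × (ℕ × ℕ)) × ℕ => p.1.2 :=
    Primrec.snd.comp Primrec.fst
  refine PrimrecPred.and ?_ (PrimrecPred.and ?_ ?_)
  · exact Primrec.nat_le.comp (Primrec.snd.comp b2) Primrec.snd
  · exact Primrec.nat_lt.comp (CodD_idx_prim (Primrec.snd.comp b1) Primrec.snd)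
      (Primrec.list_length.comp (Primrec.fst.comp b1))
  · exact (bex_lt k2).comp (Primrec.succ.comp (Primrec.fst.comp b2)) Primrec.id

private theorem CodD_step_prim : Primrec fun p : (List Bool × ℕ) × (ℕ × ℕ) =>
    CodD_step p.1.1 p.1.2 p.2.1 p.2.2 := by
  classical
  unfold CodD_step
  refine Primrec.list_head?.comp (Primrec.listFilterMap (Primrec.list_range.comp
    (Primrec.list_length.comp (Primrec.fst.comp Primrec.fst))) (Primrec₂.mk ?_))
  exact Primrec.ite CodD_T_prim (Primrec.option_some.comp Primrec.snd) (Primrec.const none)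

private theorem CodD_run_prim (u v : ℕ) : Primrec₂ (CodD_run u v) := by
  have h1 : Primrec₂ fun (σ : List Bool) (q : ℕ × Option (ℕ × ℕ)) => q.2.bind fun p =>
      (CodD_step σ (q.1 % 3) p.1 p.2).map fun m => (p.2, m) := by
    refine Primrec₂.mk (Primrec.option_bind (Primrec.snd.comp Primrec.snd)
      (Primrec₂.mk (Primrec.option_map ?_ (Primrec₂.mk ?_))))
    · refine CodD_step_prim.comp (Primrec.pair (Primrec.pair ?_ ?_) Primrec.snd)
      · exact Primrec.fst.comp Primrec.fst
      · exact Primrec.nat_mod.comp (Primrec.fst.comp (Primrec.snd.comp Primrec.fst))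
          (Primrec.const 3)
    · exact Primrec.pair (Primrec.snd.comp (Primrec.snd.comp Primrec.fst)) Primrec.snd
  refine (Primrec.nat_rec (Primrec.const (some (u, v))) h1).of_eq fun σ k => ?_
  induction k with
  | zero => rfl
  | succ k ih =>
    rw [CodD_run, ← ih]

private theorem CodD_uniq {c : Rl} {e i t t' v v' : ℕ} (h : Phi e (bpre c t) i = some v)
    (h' : Phi e (bpre c t') i = some v') : v = v' := by
  have h1 := Phi_mono (bpre_prefix c (le_max_left t t')) h
  have h2 := Phi_mono (bpre_prefix c (le_max_right t t')) h'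
  rw [h1] at h2
  exact Option.some.inj h2

private theorem CodD_getD (W : Rl) {S i : ℕ} (h : i < S) : (bpre W S).getD i false = W i := by
  rw [List.getD_eq_getElem?_getD, bpre_getElem? W h, Option.getD_some]

private theorem CodD_cs_eq {c W : Rl} (hc : ∀ i, W (2 * i) = c i) (S : ℕ) :
    CodD_cs (bpre W S) = bpre c (S / 2) := by
  unfold CodD_cs
  rw [bpre_length]
  apply List.ext_getElem?
  intro i
  by_cases hi : i < S / 2
  · rw [bpre_getElem? c hi, List.getElem?_map, List.getElem?_range hi, Option.map_some,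
      CodD_getD W (by omega), hc]
  · rw [List.getElem?_eq_none, List.getElem?_eq_none]
    · rw [bpre_length]
      omega
    · rw [List.length_map, List.length_range]
      omega

private theorem CodD_idx_mono (j : ℕ) {i m : ℕ} (h : i ≤ m) : CodD_idx j i ≤ CodD_idx j m := by
  unfold CodD_idx
  split_ifs <;> omega

private theorem CodD_idx_ge (j m : ℕ) : m < CodD_idx j m := by
  unfold CodD_idx
  split_ifs <;> omega

private theorem CodD_toNat {a b : Bool} (h : a.toNat = b.toNat) : a = b := by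
  cases a <;> cases b <;> first | rfl | exact absurd h (by decide)

/-- The sequence of the numbers. -/
private theorem CodD_seq {c W : Rl} {r p : ℕ → Rl} {u : ℕ → ℕ} (hc : ∀ i, W (2 * i) = c i)
    (hr : ∀ j < 3, ∀ i, W (CodD_idx j i) = r j i)
    (ind : ∀ k, ∃ e ≤ u k, ∀ i, ∃ t, Phi e (bpre c t) i = some (p k i).toNat)
    (dis : ∀ k, ∀ e ≤ u k, (∀ i < u (k + 1), ∃ t, Phi e (bpre c t) i = some (p k i).toNat) →
      ∀ i, ∃ t, Phi e (bpre c t) i = some (p k i).toNat)
    (inc : ∀ k, u (k + 1) < u (k + 2))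
    (agr : ∀ k, ∀ i < u (k + 2), r (k % 3) i = p k i)
    (dif : ∀ k, r (k % 3) (u (k + 2)) ≠ p k (u (k + 2))) : RI {orc W} u := by
  have hbit : ∀ (S j i : ℕ), j < 3 → CodD_idx j i < S →
      CodD_bit (bpre W S) j i = (r j i).toNat := by
    intro S j i hj hi
    unfold CodD_bit
    rw [CodD_getD W hi, hr j hj]
  have hT : ∀ (S k m : ℕ), CodD_T (bpre W S) (k % 3) (u k) (u (k + 1)) m → m = u (k + 2) := by
    intro S k m h
    have hj : k % 3 < 3 := Nat.mod_lt _ (by norm_num)
    obtain ⟨h1, h2, e, h3, h4, h5, h6⟩ := h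
    rw [bpre_length] at h2
    rw [CodD_cs_eq hc] at h4 h5 h6
    rw [hbit S _ m hj h2] at h6
    have h7 : ∀ i < m, Phi e (bpre c (S / 2)) i = some (r (k % 3) i).toNat := by
      intro i hi
      rw [h4 i hi, hbit S _ i hj (lt_of_le_of_lt (CodD_idx_mono _ hi.le) h2)]
    have hinc := inc k
    have h8 : ∀ i, ∃ t, Phi e (bpre c t) i = some (p k i).toNat := by
      refine dis k e (Nat.lt_succ_iff.1 h3) fun i hi => ⟨S / 2, ?_⟩
      rw [h7 i (by omega), agr k i (by omega)]
    rcases lt_trichotomy m (u (k + 2)) with h9 | h9 | h9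
    · exfalso
      obtain ⟨v, hv⟩ := Option.ne_none_iff_exists'.1 h5
      obtain ⟨t, ht⟩ := h8 m
      have h10 := CodD_uniq hv ht
      rw [hv, h10, agr k m h9] at h6
      exact h6 rfl
    · exact h9
    · exfalso
      obtain ⟨t, ht⟩ := h8 (u (k + 2))
      have h10 := CodD_uniq (h7 _ h9) ht
      exact dif k (CodD_toNat h10)
  have hstep : ∀ (S k m : ℕ), CodD_step (bpre W S) (k % 3) (u k) (u (k + 1)) = some m →
      m = u (k + 2) := by
    intro S k m h
    unfold CodD_step at h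
    have h1 := mem_of_head? h
    rw [List.mem_filterMap] at h1
    obtain ⟨m', -, h2⟩ := h1
    split_ifs at h2 with h3
    · rw [← Option.some.inj h2]
      exact hT S k m' h3
  have hex : ∀ k, ∃ S0, ∀ S, S0 ≤ S →
      CodD_step (bpre W S) (k % 3) (u k) (u (k + 1)) = some (u (k + 2)) := by
    intro k
    have hj : k % 3 < 3 := Nat.mod_lt _ (by norm_num)
    obtain ⟨e, he, h1⟩ := ind k
    choose t ht using h1
    refine ⟨2 * (∑ i ∈ Finset.range (u (k + 2) + 1), t i) + CodD_idx (k % 3) (u (k + 2)) + 1,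
      fun S hS => ?_⟩
    have h2 : ∀ i ≤ u (k + 2), Phi e (bpre c (S / 2)) i = some (p k i).toNat := by
      intro i hi
      refine Phi_mono (bpre_prefix c ?_) (ht i)
      have h3 : t i ≤ ∑ i ∈ Finset.range (u (k + 2) + 1), t i :=
        Finset.single_le_sum (f := t) (fun _ _ => Nat.zero_le _)
          (Finset.mem_range.2 (Nat.lt_succ_iff.2 hi))
      omega
    have h3 : CodD_T (bpre W S) (k % 3) (u k) (u (k + 1)) (u (k + 2)) := by
      refine ⟨(inc k).le, ?_, e, Nat.lt_succ_iff.2 he, ?_, ?_, ?_⟩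
      · rw [bpre_length]
        omega
      · intro i hi
        have h4 := CodD_idx_mono (k % 3) hi.le
        rw [CodD_cs_eq hc, h2 i hi.le, hbit S _ i hj (by omega), agr k i hi]
      · rw [CodD_cs_eq hc, h2 _ le_rfl]
        exact Option.some_ne_none _
      · rw [CodD_cs_eq hc, h2 _ le_rfl, hbit S _ _ hj (by omega)]
        intro h4
        exact dif k (CodD_toNat (Option.some.inj h4)).symm
    obtain ⟨m, hm⟩ : ∃ m, CodD_step (bpre W S) (k % 3) (u k) (u (k + 1)) = some m := by
      unfold CodD_step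
      refine head?_of_mem (a := u (k + 2)) ?_
      rw [List.mem_filterMap]
      refine ⟨u (k + 2), List.mem_range.2 ?_, if_pos h3⟩
      rw [bpre_length]
      have h4 := CodD_idx_ge (k % 3) (u (k + 2))
      omega
    rw [hm, hstep S k m hm]
  have hrun : ∀ (S k : ℕ) (q : ℕ × ℕ), CodD_run (u 0) (u 1) (bpre W S) k = some q →
      q = (u k, u (k + 1)) := by
    intro S k
    induction k with
    | zero =>
      intro q hq
      exact (Option.some.inj hq).symm
    | succ k ih =>
      intro q hq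
      rw [CodD_run, Option.bind_eq_some_iff] at hq
      obtain ⟨q', h1, h2⟩ := hq
      rw [Option.map_eq_some_iff] at h2
      obtain ⟨m, h3, h4⟩ := h2
      rw [ih q' h1] at h3 h4
      rw [← h4, hstep S k m h3]
  have hall : ∀ k, ∃ S0, ∀ S, S0 ≤ S →
      CodD_run (u 0) (u 1) (bpre W S) k = some (u k, u (k + 1)) := by
    intro k
    induction k with
    | zero => exact ⟨0, fun S _ => rfl⟩
    | succ k ih =>
      obtain ⟨S1, h1⟩ := ih
      obtain ⟨S2, h2⟩ := hex k
      refine ⟨max S1 S2, fun S hS => ?_⟩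
      rw [CodD_run, h1 S ((le_max_left _ _).trans hS), Option.bind_some,
        h2 S ((le_max_right _ _).trans hS), Option.map_some]
  refine RI.of_functional W (fun σ k => (CodD_run (u 0) (u 1) σ k).map Prod.fst) ?_ u ?_ ?_
  · have h1 : Primrec fun q : List Bool × ℕ => (CodD_run (u 0) (u 1) q.1 q.2).map Prod.fst :=
      Primrec.option_map (CodD_run_prim (u 0) (u 1))
        (Primrec₂.mk (Primrec.fst.comp Primrec.snd))
    exact h1.to_comp
  · intro k
    obtain ⟨S0, h1⟩ := hall k
    refine ⟨S0, ?_⟩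
    rw [h1 S0 le_rfl]
    exact Option.some_ne_none _
  · intro k S v h
    rw [Option.map_eq_some_iff] at h
    obtain ⟨q, h1, h2⟩ := h
    rw [← h2, hrun S k q h1]

private theorem CodD_jn (c r0 r1 r2 : Rl) (i : ℕ) :
    jn c (jn (jn r0 r1) r2) (2 * i) = c i ∧ jn c (jn (jn r0 r1) r2) (8 * i + 1) = r0 i ∧
      jn c (jn (jn r0 r1) r2) (8 * i + 5) = r1 i ∧ jn c (jn (jn r0 r1) r2) (4 * i + 3) = r2 i := by
  unfold jn
  refine ⟨?_, ?_, ?_, ?_⟩
  · rw [if_pos (by omega), show 2 * i / 2 = i by omega]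
  · rw [if_neg (by omega), if_pos (by omega), if_pos (by omega),
      show (8 * i + 1) / 2 / 2 / 2 = i by omega]
  · rw [if_neg (by omega), if_pos (by omega), if_neg (by omega),
      show (8 * i + 5) / 2 / 2 / 2 = i by omega]
  · rw [if_neg (by omega), if_neg (by omega), show (4 * i + 3) / 2 / 2 = i by omega]

private theorem CodD_a {Q : Rl → Rl} {c x : Rl} {y : ℕ → ℕ → Rl} {n : ℕ → ℕ → ℕ}
    {s : ℕ → ℕ → List Bool} (h : Data Q c x y n s) (a : ℕ) :
    RI {orc (jn c (jn (jn (Q (y a 0)) (Q (y a 1))) (Q (y a 2))))} (n a) := by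
  refine CodD_seq (c := c) (r := fun j => Q (y a j)) (p := fun k => Q (z0 (s a k)))
    (fun i => (CodD_jn c _ _ _ i).1) ?_ (h.ind a) (h.dis a) (h.inc a) (h.agr a) (h.dif a)
  intro j hj i
  have h1 := CodD_jn c (Q (y a 0)) (Q (y a 1)) (Q (y a 2)) i
  interval_cases j
  · exact h1.2.1
  · exact h1.2.2.1
  · exact h1.2.2.2

theorem decode_data {Q : Rl → Rl} {c x : Rl} {y : ℕ → ℕ → Rl} {n : ℕ → ℕ → ℕ}
    {s : ℕ → ℕ → List Bool} (h : Data Q c x y n s) : Le x (jn c (j6 fun a j => Q (y a j))) := by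
  have h0 := RI_mono (jn_lub (jn_l c _) ((jn_l (jn (jn (Q (y 0 0)) (Q (y 0 1))) (Q (y 0 2)))
    (jn (jn (Q (y 1 0)) (Q (y 1 1))) (Q (y 1 2)))).trans (jn_r c _))) (CodD_a h 0)
  have h1 := RI_mono (jn_lub (jn_l c _) ((jn_r (jn (jn (Q (y 0 0)) (Q (y 0 1))) (Q (y 0 2)))
    (jn (jn (Q (y 1 0)) (Q (y 1 1))) (Q (y 1 2)))).trans (jn_r c _))) (CodD_a h 1)
  have h2 : Computable₂ fun a b : ℕ => if a < b then 1 else 0 := by
    have h3 : Primrec fun q : ℕ × ℕ => if q.1 < q.2 then 1 else 0 :=
      Primrec.ite (Primrec.nat_lt.comp Primrec.fst Primrec.snd) (Primrec.const 1)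
        (Primrec.const 0)
    exact h3.to_comp
  have h3 : Computable fun k : ℕ => k + 2 := (Primrec.succ.comp Primrec.succ).to_comp
  rw [le_iff]
  refine RI_congr (RI_comp2 h2 (h0.comp (RI.of_comp h3)) (h1.comp (RI.of_comp h3))) fun k => ?_
  have h4 := h.bit k
  cases hx : x k with
  | false =>
    rw [hx] at h4
    rw [if_neg (fun h5 => absurd (h4.1 h5) (by decide))]
    rfl
  | true =>
    rw [if_pos (h4.2 hx)]
    rfl

end Pool.Agent.TJ
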