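import Pool.Agent.H.MP_8387fc_lc.TJ.SchD
import Pool.Agent.H.MP_8387fc_lc.TJ.RedS

/-!
# Module Dec: computations with a scheme
-/

set_option autoImplicit false

namespace Pool.Agent.TJ

open MeasureTheory Pool.Agent.H.MP_ad67df_lc

/-- the string coded by a number -/
def dstr (a : ℕ) : List Bool := (Encodable.decode (α := List Bool) a).getD []

theorem dstr_encode (s : List Bool) : dstr (Encodable.encode s) = s := by
  rw [dstr, Encodable.encodek, Option.getD_some]

theorem primrec_dstr : Primrec dstr :=
  Primrec.option_getD.comp Primrec.decode (Primrec.const [])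

/-- the bit `n` of the string coded by `a` -/
def dbit (a n : ℕ) : ℕ := ((dstr a).getD n false).toNat

theorem computable_dbit : Computable₂ dbit := by
  have h1 : Primrec fun p : ℕ × ℕ => (dstr p.1)[p.2]? :=
    Primrec.list_getElem?.comp (primrec_dstr.comp Primrec.fst) Primrec.snd
  have h2 : Primrec fun p : ℕ × ℕ => ((dstr p.1)[p.2]?).getD false :=
    Primrec.option_getD.comp h1 (Primrec.const false)
  have h3 : Primrec Bool.toNat := Primrec.dom_finite Bool.toNat
  have h4 : Primrec₂ dbit := (h3.comp h2).of_eq fun p => by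
    rw [dbit, List.getD_eq_getElem?_getD]
  exact h4.to_comp

theorem sch_le {σ : List Bool → List Bool} {P : Rl → Rl} (h : Sch σ P) :
    ∃ c, ∀ y, Le (P y) (jn y c) := by
  obtain ⟨c, hc⟩ := exists_code fun a => Encodable.encode (σ (dstr a))
  refine ⟨c, fun y => ?_⟩
  rw [le_iff]
  have h1 := RI_mono (jn_r y c) hc
  have h2 := RI_mono (jn_l y c) (RI.ofBpre y)
  have h3 : RI {orc (jn y c)} fun n => n + 1 := RI.of_comp Computable.succ
  have h4 := RI.comp h1 (RI.comp h2 h3)
  have h5 : RI {orc (jn y c)} fun n => n := RI.of_comp Computable.id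
  refine RI_congr (RI_comp2 computable_dbit h4 h5) fun n => ?_
  show dbit (Encodable.encode (σ (dstr (Encodable.encode (bpre y (n + 1)))))) n = (P y n).toNat
  rw [dstr_encode, dbit, dstr_encode]
  have h6 := h.len (bpre y (n + 1))
  rw [bpre_length] at h6
  rw [← h.ext y (n + 1), List.getD_eq_getElem?_getD, bpre_getElem? _ (by omega), Option.getD_some]

/-- is 1 for equal numbers, 0 for others -/
def eqt (a b : ℕ) : ℕ := if a = b then 1 else 0

theorem computable_eqt : Computable₂ eqt := by
  have h1 : Primrec₂ eqt :=
    Primrec.ite (PrimrecRel.comp Primrec.eq Primrec.fst Primrec.snd) (Primrec.const 1)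
      (Primrec.const 0)
  exact h1.to_comp

theorem sch_ge {ρ : List Bool → List Bool} {Q : Rl → Rl} (h : Sch ρ Q) (hi : Inc ρ) :
    ∃ c, ∀ y, Le y (jn (Q y) c) := by
  obtain ⟨c, hc⟩ := exists_code fun a => Encodable.encode (ρ (dstr a))
  refine ⟨c, fun y => ?_⟩
  rw [le_iff]
  obtain ⟨w, hw⟩ : ∃ w, w = jn (Q y) c := ⟨_, rfl⟩
  have h1 : RI {orc w} fun a => Encodable.encode (ρ (dstr a)) := by
    rw [hw]
    exact RI_mono (jn_r (Q y) c) hc
  have h2 : RI {orc w} fun s => Encodable.encode (bpre (Q y) s) := by
    rw [hw]
    exact RI_mono (jn_l (Q y) c) (RI.ofBpre (Q y))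
  rw [← hw]
  -- append the bit `true`
  have u1 : RI {orc w} fun v => addBit (Nat.pair v 1) :=
    RI.of_comp (computable_addBit.comp (Primrec₂.natPair.to_comp.comp Computable.id
      (Computable.const 1)))
  have u2 : RI {orc w} fun v => Encodable.encode (ρ (dstr (addBit (Nat.pair v 1)))) :=
    RI.comp h1 u1
  have u3 : RI {orc w} fun a => (dstr a).length :=
    RI.of_comp (Primrec.list_length.comp primrec_dstr).to_comp
  have u4 : RI {orc w} fun v => Encodable.encode (bpre (Q y)
      (dstr (Encodable.encode (ρ (dstr (addBit (Nat.pair v 1)))))).length) :=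
    RI.comp h2 (RI.comp u3 u2)
  obtain ⟨t, ht⟩ : ∃ t : ℕ → ℕ, t = fun v => eqt (Encodable.encode (bpre (Q y)
      (dstr (Encodable.encode (ρ (dstr (addBit (Nat.pair v 1)))))).length))
      (Encodable.encode (ρ (dstr (addBit (Nat.pair v 1))))) := ⟨_, rfl⟩
  have u5 : RI {orc w} t := by
    rw [ht]
    exact RI_comp2 computable_eqt u4 u2
  have u6 : RI {orc w} fun v => addBit (Nat.pair v (t v)) :=
    RI.comp (RI.of_comp computable_addBit) (RI.pair (RI.of_comp Computable.id) u5)
  have u7 : RI {orc w} fun p => addBit (Nat.pair p.unpair.2.unpair.2 (t p.unpair.2.unpair.2)) :=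
    RI.comp (f := fun v => addBit (Nat.pair v (t v))) (g := fun p : ℕ => p.unpair.2.unpair.2) u6
      (RI.of_comp (Computable.snd.comp (Computable.unpair.comp
        (Computable.snd.comp Computable.unpair))))
  have u8 : RI {orc w} fun _ => Encodable.encode ([] : List Bool) :=
    RI.of_comp (Computable.const _)
  have u9 := RI.comp (RI.prec u8 u7) (g := fun s => Nat.pair 0 s)
    (RI.of_comp (Primrec₂.natPair.to_comp.comp (Computable.const 0) Computable.id))
  have key : ∀ s, addBit (Nat.pair (Encodable.encode (bpre y s))
      (t (Encodable.encode (bpre y s)))) = Encodable.encode (bpre y (s + 1)) := by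
    intro s
    have e1 : addBit (Nat.pair (Encodable.encode (bpre y s)) 1) =
        Encodable.encode (bpre y s ++ [true]) := by
      simp only [addBit, Nat.unpair_pair, Encodable.encodek, Option.getD_some, decide_true]
    have e2 : t (Encodable.encode (bpre y s)) = eqt
        (Encodable.encode (bpre (Q y) (ρ (bpre y s ++ [true])).length))
        (Encodable.encode (ρ (bpre y s ++ [true]))) := by
      rw [ht]
      simp only
      rw [e1, dstr_encode, dstr_encode]
    have e3 : decide (t (Encodable.encode (bpre y s)) = 1) = y s := by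
      rw [e2, eqt]
      cases hy : y s with
      | true =>
        have k1 : bpre y s ++ [true] = bpre y (s + 1) := by rw [bpre_succ, hy]
        rw [k1, h.ext y (s + 1), if_pos rfl]
        rfl
      | false =>
        have k1 : bpre y s ++ [false] = bpre y (s + 1) := by rw [bpre_succ, hy]
        have k2 := h.ext y (s + 1)
        rw [← k1] at k2
        obtain ⟨n, n1, n2, n3⟩ := hi (bpre y s)
        rw [if_neg]
        · rfl
        · intro hcon
          have k3 : bpre (Q y) (ρ (bpre y s ++ [true])).length = ρ (bpre y s ++ [true]) :=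
            Encodable.encode_injective hcon
          apply n3
          rw [← k2, ← k3, bpre_getElem? _ n1, bpre_getElem? _ n2]
    simp only [addBit, Nat.unpair_pair, Encodable.encodek, Option.getD_some]
    rw [e3, bpre_succ]
  have h3 : RI {orc w} fun s => Encodable.encode (bpre y s) := by
    refine RI_congr u9 fun s => ?_
    simp only [Nat.unpair_pair]
    induction s with
    | zero => rfl
    | succ s ih =>
      simp only
      rw [ih]
      exact key s
  have h4 : RI {orc w} fun n => n + 1 := RI.of_comp Computable.succ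
  have h5 : RI {orc w} fun n => n := RI.of_comp Computable.id
  refine RI_congr (RI_comp2 computable_dbit (RI.comp h3 h4) h5) fun n => ?_
  show dbit (Encodable.encode (bpre y (n + 1))) n = (y n).toNat
  rw [dbit, dstr_encode, List.getD_eq_getElem?_getD, bpre_getElem? _ (by omega), Option.getD_some]

end Pool.Agent.TJ
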