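import Pool.Agent.H.MP_ad67df_lc.Up

/-!
# MP_8387fc_lc: definitions
-/

set_option autoImplicit false

namespace Pool.Agent.TJ

open MeasureTheory Pool.Agent.H.MP_ad67df_lc

/-- Reals: the elements of `2 ^ ω`. -/
abbrev Rl : Type := ℕ → Bool

/-- `x ≤_T y`: Turing reducibility. -/
def Le (x y : Rl) : Prop :=
  TuringReducible (fun n => Part.some (x n).toNat) (fun n => Part.some (y n).toNat)

/-- `x ≡_T y`: Turing equivalence. -/
def Eqv (x y : Rl) : Prop := Le x y ∧ Le y x

/-- The join `x ⊕ y`. -/
def jn (x y : Rl) : Rl := fun n => if n % 2 = 0 then x (n / 2) else y (n / 2)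

/-- The join of a sequence of reals. -/
def js (x : ℕ → Rl) : Rl := fun n => x n.unpair.1 n.unpair.2

open Classical in
/-- The join of the reals `x i`, `i ∈ S`. -/
noncomputable def sj (S : Set ℕ) (x : ℕ → Rl) : Rl :=
  fun n => if n.unpair.1 ∈ S then x n.unpair.1 n.unpair.2 else false

/-- The fair coin. -/
noncomputable def cb : Measure Bool :=
  (2⁻¹ : ENNReal) • (Measure.dirac false + Measure.dirac true)

instance : IsProbabilityMeasure cb := by
  constructor
  rw [cb, Measure.smul_apply, Measure.add_apply, measure_univ, measure_univ, smul_eq_mul,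
    one_add_one_eq_two]
  exact ENNReal.inv_mul_cancel (by norm_num) (by norm_num)

/-- The fair coin measure on `2 ^ ω`. -/
noncomputable def coin : Measure Rl := Measure.infinitePi fun _ : ℕ => cb

instance : IsProbabilityMeasure coin := by
  unfold coin
  infer_instance

/-- `f` is universally measurable. -/
def UM (f : Rl → Rl) : Prop := ∀ ν : Measure Rl, IsFiniteMeasure ν → AEMeasurable f ν

/-- `x + y` modulo 2. -/
def xr (x y : Rl) : Rl := fun n => xor (x n) (y n)

open Classical in
/-- The characteristic function of a set. -/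
noncomputable def chi (U : Set ℕ) : Rl := fun n => decide (n ∈ U)

open Classical in
/-- The characteristic function of a sequence of sets. -/
noncomputable def chs (S : ℕ → Set ℕ) : Rl := fun n => decide (n.unpair.2 ∈ S n.unpair.1)

/-- The real `s 0 0 0 ...`. -/
def z0 (s : List Bool) : Rl := fun n => s.getD n false

end Pool.Agent.TJ
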