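import Pool.Agent.H.MP_8387fc_lc.TJ.Apx
import Pool.Agent.H.MP_8387fc_lc.TJ.CoinC

/-!
# Module Dens: a set of positive measure fills more than three quarters of some cylinder

`apx_set` with the error `ε = coin E / 8` gives a union `D` of cylinders of length `L` such that
`coin (E symmDiff D) ≤ ε`. If no cylinder worked, then `coin (E ∩ D) ≤ 3 / 4 * coin D`, hence
`coin D ≤ 4 * ε`, while `coin D ≥ 7 * ε`.
-/

set_option autoImplicit false

namespace Pool.Agent.TJ

open MeasureTheory Pool.Agent.H.MP_ad67df_lc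

theorem dens {E : Set Rl} (hE : NullMeasurableSet E coin) (h0 : coin E ≠ 0) :
    ∃ s : List Bool, (3 / 4 : ENNReal) * (2⁻¹ : ENNReal) ^ s.length <
      coin (E ∩ {z | bpre z s.length = s}) := by
  classical
  by_contra hcon
  push Not at hcon
  have hε : 0 < coin E / 8 := ENNReal.div_pos h0 (by norm_num)
  obtain ⟨L, C, hC⟩ := apx_set coin hE hε
  obtain ⟨D, hD⟩ : ∃ D : Set Rl, D = {z | bpre z L ∈ C} := ⟨_, rfl⟩
  rw [← hD] at hC
  obtain ⟨T, hT⟩ : ∃ T : Finset (List Bool), T = C.toFinset.filter (fun s => s.length = L) :=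
    ⟨_, rfl⟩
  have hDT : D = ⋃ s ∈ T, {z : Rl | bpre z s.length = s} := by
    ext z
    rw [hD, Set.mem_iUnion₂]
    constructor
    · intro hz
      refine ⟨bpre z L, ?_, ?_⟩
      · rw [hT, Finset.mem_filter, List.mem_toFinset]
        exact ⟨hz, bpre_length z L⟩
      · show bpre z (bpre z L).length = bpre z L
        rw [bpre_length]
    · rintro ⟨s, hs, hz⟩
      rw [hT, Finset.mem_filter, List.mem_toFinset] at hs
      have hz' : bpre z s.length = s := hz
      rw [hs.2] at hz'
      show bpre z L ∈ C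
      rw [hz']
      exact hs.1
  have hcyl : ∀ s : List Bool, coin.real (E ∩ {z | bpre z s.length = s}) ≤
      3 / 4 * coin.real {z : Rl | bpre z s.length = s} := by
    intro s
    have h1 := hcon s
    rw [← coin_cyl s] at h1
    have h2 := ENNReal.toReal_mono (by
      refine ENNReal.mul_ne_top ?_ (measure_ne_top _ _)
      exact (ENNReal.div_lt_top (by norm_num) (by norm_num)).ne) h1
    rw [ENNReal.toReal_mul] at h2
    have h3 : (3 / 4 : ENNReal).toReal = 3 / 4 := by
      rw [ENNReal.toReal_div]
      norm_num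
    rw [h3] at h2
    exact h2
  have hsum : coin.real D = ∑ s ∈ T, coin.real {z : Rl | bpre z s.length = s} := by
    rw [hDT]
    refine measureReal_biUnion_finset ?_ fun s _ => meas_cyl s
    intro s hs t ht hst
    rw [hT, Finset.coe_filter] at hs ht
    refine Set.disjoint_left.2 fun z hz hz' => hst ?_
    have h1 : bpre z s.length = s := hz
    have h2 : bpre z t.length = t := hz'
    rw [← h1, ← h2, hs.2, ht.2]
  have hinter : coin.real (E ∩ D) ≤ 3 / 4 * coin.real D := by
    have h1 : E ∩ D = ⋃ s ∈ T, (E ∩ {z : Rl | bpre z s.length = s}) := by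
      rw [hDT, Set.inter_iUnion₂]
    rw [h1, hsum, Finset.mul_sum]
    exact (measureReal_biUnion_finset_le _ _).trans (Finset.sum_le_sum fun s _ => hcyl s)
  have hsd : ∀ A : Set Rl, A ⊆ symmDiff E D → coin.real A ≤ coin.real E / 8 := by
    intro A hA
    have h1 := (measure_mono hA).trans hC
    have h2 := ENNReal.toReal_mono
      (ENNReal.div_lt_top (measure_ne_top coin E) (by norm_num)).ne h1
    rw [ENNReal.toReal_div] at h2
    exact h2
  have h3 := hsd (D \ E) fun z hz => Or.inr hz
  have h4 := hsd (E \ D) fun z hz => Or.inl hz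
  have h5 : coin.real D ≤ coin.real (E ∩ D) + coin.real (D \ E) := by
    have h6 : D ⊆ (E ∩ D) ∪ (D \ E) := by
      intro z hz
      by_cases hzE : z ∈ E
      · exact Or.inl ⟨hzE, hz⟩
      · exact Or.inr ⟨hz, hzE⟩
    exact (measureReal_mono h6).trans (measureReal_union_le _ _)
  have h7 : coin.real E ≤ coin.real D + coin.real (E \ D) := by
    have h6 : E ⊆ D ∪ (E \ D) := by
      intro z hz
      by_cases hzD : z ∈ D
      · exact Or.inl hzD
      · exact Or.inr ⟨hz, hzD⟩
    exact (measureReal_mono h6).trans (measureReal_union_le _ _)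
  have h8 : 0 < coin.real E := ENNReal.toReal_pos h0 (measure_ne_top _ _)
  linarith

end Pool.Agent.TJ
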