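import Pool.Agent.H.MP_8387fc_lc.TJ.Defs

/-!
# Module Red: Turing reducibility of reals
-/

set_option autoImplicit false

namespace Pool.Agent.TJ

open Pool.Agent.H.MP_ad67df_lc

theorem le_iff {x y : Rl} : Le x y ↔ RI {orc y} (fun n => (x n).toNat) := by
  unfold Le TuringReducible RI
  rw [RecursiveIn.iff_nat]
  rfl

theorem Le.refl (x : Rl) : Le x x := TuringReducible.refl _

theorem Le.trans {x y z : Rl} (h : Le x y) (h' : Le y z) : Le x z := TuringReducible.trans h h'

theorem RI_mono {x y : Rl} (h : Le x y) {g : ℕ → ℕ} (hg : RI {orc x} g) : RI {orc y} g := by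
  refine Nat.RecursiveIn.subst hg (fun f hf => ?_)
  rw [Set.mem_singleton_iff] at hf
  rw [hf]
  exact le_iff.1 h

theorem RI_congr {y : Rl} {g g' : ℕ → ℕ} (hg : RI {orc y} g) (h : ∀ n, g n = g' n) :
    RI {orc y} g' := by
  have hgg : g = g' := funext h
  rw [← hgg]
  exact hg

/-- Composition with a computable function of several functions. -/
theorem RI_comp2 {y : Rl} {p : ℕ → ℕ → ℕ} (hp : Computable₂ p) {g g' : ℕ → ℕ}
    (hg : RI {orc y} g) (hg' : RI {orc y} g') : RI {orc y} fun n => p (g n) (g' n) := by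
  have h1 : Computable (fun m : ℕ => p m.unpair.1 m.unpair.2) :=
    hp.comp (Computable.fst.comp Computable.unpair) (Computable.snd.comp Computable.unpair)
  have h2 := RI.comp (RI.of_comp (O := {orc y}) h1) (RI.pair hg hg')
  refine RI_congr h2 (fun n => ?_)
  simp only [Nat.unpair_pair]

theorem jn_l (x y : Rl) : Le x (jn x y) := by
  rw [le_iff]
  have h1 : Computable (fun n : ℕ => 2 * n) :=
    (Primrec.nat_mul.comp (Primrec.const 2) Primrec.id).to_comp
  have h2 := RI.comp (RI.ofOracle (jn x y)) (RI.of_comp (O := {orc (jn x y)}) h1)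
  refine RI_congr h2 (fun n => ?_)
  have h3 : jn x y (2 * n) = x n := by
    unfold jn
    rw [if_pos (by omega), show 2 * n / 2 = n by omega]
  rw [h3]

theorem jn_r (x y : Rl) : Le y (jn x y) := by
  rw [le_iff]
  have h1 : Computable (fun n : ℕ => 2 * n + 1) :=
    (Primrec.nat_add.comp (Primrec.nat_mul.comp (Primrec.const 2) Primrec.id)
      (Primrec.const 1)).to_comp
  have h2 := RI.comp (RI.ofOracle (jn x y)) (RI.of_comp (O := {orc (jn x y)}) h1)
  refine RI_congr h2 (fun n => ?_)
  have h3 : jn x y (2 * n + 1) = y n := by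
    unfold jn
    rw [if_neg (by omega), show (2 * n + 1) / 2 = n by omega]
  rw [h3]

theorem jn_lub {x y w : Rl} (hx : Le x w) (hy : Le y w) : Le (jn x y) w := by
  rw [le_iff] at hx hy ⊢
  have hhalf : Computable (fun n : ℕ => n / 2) :=
    (Primrec.nat_div.comp Primrec.id (Primrec.const 2)).to_comp
  have hmod : Computable (fun n : ℕ => n % 2) :=
    (Primrec.nat_mod.comp Primrec.id (Primrec.const 2)).to_comp
  have h1 := RI.comp hx (RI.of_comp (O := {orc w}) hhalf)
  have h2 := RI.comp hy (RI.of_comp (O := {orc w}) hhalf)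
  have h3 := RI.pair h1 h2
  have h4 : Computable₂ (fun a c : ℕ => if a = 0 then c.unpair.1 else c.unpair.2) := by
    have h5 : Primrec₂ (fun a c : ℕ => if a = 0 then c.unpair.1 else c.unpair.2) := by
      refine Primrec.ite ?_ ?_ ?_
      · exact Primrec.eq.comp Primrec.fst (Primrec.const 0)
      · exact Primrec.fst.comp (Primrec.unpair.comp Primrec.snd)
      · exact Primrec.snd.comp (Primrec.unpair.comp Primrec.snd)
    exact h5.to_comp
  have h6 := RI_comp2 h4 (RI.of_comp (O := {orc w}) hmod) h3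
  refine RI_congr h6 (fun n => ?_)
  simp only [Nat.unpair_pair]
  unfold jn
  split_ifs <;> rfl

private theorem Red_pair (i : ℕ) : Computable (fun n : ℕ => Nat.pair i n) :=
  (Primrec₂.natPair.comp (Primrec.const i) Primrec.id).to_comp

theorem js_ge (x : ℕ → Rl) (i : ℕ) : Le (x i) (js x) := by
  rw [le_iff]
  have h2 := RI.comp (RI.ofOracle (js x)) (RI.of_comp (O := {orc (js x)}) (Red_pair i))
  refine RI_congr h2 (fun n => ?_)
  have h3 : js x (Nat.pair i n) = x i n := by
    unfold js
    rw [Nat.unpair_pair]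
  rw [h3]

theorem sj_ge {S : Set ℕ} {i : ℕ} (hi : i ∈ S) (x : ℕ → Rl) : Le (x i) (sj S x) := by
  rw [le_iff]
  have h2 := RI.comp (RI.ofOracle (sj S x)) (RI.of_comp (O := {orc (sj S x)}) (Red_pair i))
  refine RI_congr h2 (fun n => ?_)
  have h3 : sj S x (Nat.pair i n) = x i n := by
    unfold sj
    rw [Nat.unpair_pair, if_pos hi]
  rw [h3]

theorem le_of_ev {x x' : Rl} (N : ℕ) (h : ∀ n, N ≤ n → x n = x' n) : Le x x' := by
  rw [le_iff]
  let L : List ℕ := (List.range N).map (fun n => (x n).toNat)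
  have h4 : Computable₂ (fun a c : ℕ => if a < N then L.getD a 0 else c) := by
    have h5 : Primrec₂ (fun a c : ℕ => if a < N then L.getD a 0 else c) := by
      refine Primrec.ite ?_ ?_ ?_
      · exact Primrec.nat_lt.comp Primrec.fst (Primrec.const N)
      · exact (Primrec.list_getD 0).comp (Primrec.const L) Primrec.fst
      · exact Primrec.snd
    exact h5.to_comp
  have h6 := RI_comp2 h4 (RI.of_comp (O := {orc x'}) Computable.id) (RI.ofOracle x')
  refine RI_congr h6 (fun n => ?_)
  simp only [id]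
  by_cases hn : n < N
  · rw [if_pos hn]
    simp [L, List.getD, List.getElem?_map, List.getElem?_range hn]
  · rw [if_neg hn, h n (by omega)]

theorem xr_le (x y : Rl) : Le (xr x y) (jn x y) := by
  have h1 := le_iff.1 (jn_l x y)
  have h2 := le_iff.1 (jn_r x y)
  rw [le_iff]
  have h4 : Computable₂ (fun a c : ℕ => (a + c) % 2) := by
    have h5 : Primrec₂ (fun a c : ℕ => (a + c) % 2) :=
      Primrec.nat_mod.comp (Primrec.nat_add.comp Primrec.fst Primrec.snd) (Primrec.const 2)
    exact h5.to_comp
  refine RI_congr (RI_comp2 h4 h1 h2) (fun n => ?_)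
  unfold xr
  cases x n <;> cases y n <;> rfl

end Pool.Agent.TJ
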