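import Pool.Agent.H.MP_8387fc_lc.TJ.Coin
import Pool.Agent.H.MP_8387fc_lc.TJ.Red

/-!
# Module Enc: a real `y` hidden in random reals

The columns of the random real `z` are the reals `n ↦ z (pair i n)`. `W U u y z i` is the column
number `i`, except that the column `u` is replaced by `y + (sum of the columns i ∈ U, i ≠ u, i ≤ n)`
(modulo 2, in the bit `n`). The join of all `W i`, `i ∈ U`, computes `y`, but any proper part of them
is random up to finitely many bits.
-/

set_option autoImplicit false

namespace Pool.Agent.TJ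

open MeasureTheory Pool.Agent.H.MP_ad67df_lc

open Classical in
/-- The parity of the bits `n` of the columns `i ≤ n`, `i ∈ U`, `i ≠ u`. -/
noncomputable def par (U : Set ℕ) (u : ℕ) (z : Rl) (n : ℕ) : Bool :=
  decide (((Finset.range (n + 1)).filter fun i =>
    i ∈ U ∧ i ≠ u ∧ z (Nat.pair i n) = true).card % 2 = 1)

/-- The hidden real. -/
noncomputable def W (U : Set ℕ) (u : ℕ) (y z : Rl) (i : ℕ) : Rl :=
  fun n => if i = u then xor (y n) (par U u z n) else z (Nat.pair i n)

private theorem Enc_par (U : Set ℕ) (u n : ℕ) : Measurable fun z : Rl => par U u z n := by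
  classical
  have h1 : Measurable fun z : Rl => ∑ i ∈ Finset.range (n + 1),
      (if i ∈ U ∧ i ≠ u ∧ z (Nat.pair i n) = true then 1 else 0 : ℕ) := by
    refine Finset.measurable_sum _ fun i _ => ?_
    exact (Measurable.of_discrete (f := fun c : Bool =>
      (if i ∈ U ∧ i ≠ u ∧ c = true then 1 else 0 : ℕ))).comp (measurable_pi_apply (Nat.pair i n))
  have h2 : (fun z : Rl => par U u z n) = (fun k : ℕ => decide (k % 2 = 1)) ∘
      (fun z : Rl => ∑ i ∈ Finset.range (n + 1),
        (if i ∈ U ∧ i ≠ u ∧ z (Nat.pair i n) = true then 1 else 0 : ℕ)) := by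
    funext z
    simp only [Function.comp_apply, par, Finset.card_filter]
  rw [h2]
  exact Measurable.of_discrete.comp h1

private theorem Enc_W (U : Set ℕ) (u : ℕ) (y : Rl) (i n : ℕ) :
    Measurable fun z : Rl => W U u y z i n := by
  by_cases h : i = u
  · have h2 : (fun z : Rl => W U u y z i n) = (fun c : Bool => xor (y n) c) ∘
        (fun z : Rl => par U u z n) := by
      funext z
      simp only [Function.comp_apply, W, if_pos h]
    rw [h2]
    exact Measurable.of_discrete.comp (Enc_par U u n)
  · have h2 : (fun z : Rl => W U u y z i n) = (fun z : Rl => z (Nat.pair i n)) := by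
      funext z
      simp only [W, if_neg h]
    rw [h2]
    exact measurable_pi_apply _

theorem meas_W (b : Rl) (U : Set ℕ) (u : ℕ) (y : Rl) (S : Set ℕ) :
    Measurable fun z => sj S fun i => jn b (W U u y z i) := by
  refine measurable_pi_iff.mpr fun n => ?_
  by_cases h : n.unpair.1 ∈ S
  · by_cases h' : n.unpair.2 % 2 = 0
    · have h2 : (fun z : Rl => sj S (fun i => jn b (W U u y z i)) n) =
          fun _ => b (n.unpair.2 / 2) := by
        funext z
        simp only [sj, if_pos h, jn, if_pos h']
      rw [h2]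
      exact measurable_const
    · have h2 : (fun z : Rl => sj S (fun i => jn b (W U u y z i)) n) =
          fun z => W U u y z n.unpair.1 (n.unpair.2 / 2) := by
        funext z
        simp only [sj, if_pos h, jn, if_neg h']
      rw [h2]
      exact Enc_W U u y _ _
  · have h2 : (fun z : Rl => sj S (fun i => jn b (W U u y z i)) n) = fun _ => false := by
      funext z
      simp only [sj, if_neg h]
    rw [h2]
    exact measurable_const

private theorem Enc_sum {y : Rl} {F : ℕ → ℕ} (hF : RI {orc y} F) :
    RI {orc y} (fun n => ∑ i ∈ Finset.range (n + 1), F (Nat.pair n i)) := by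
  have h0 : RI {orc y} (fun _ => 0) := RI.of_comp (Computable.const _)
  have hh : RI {orc y} (fun q : ℕ => q.unpair.2.unpair.2 +
      F (Nat.pair q.unpair.1 q.unpair.2.unpair.1)) := by
    refine RI_comp2 (p := fun a b => a + b) Primrec.nat_add.to_comp ?_ ?_
    · exact RI.of_comp (Primrec.snd.comp (Primrec.unpair.comp
        (Primrec.snd.comp Primrec.unpair))).to_comp
    · refine hF.comp (RI.pair ?_ ?_)
      · exact RI.of_comp (Primrec.fst.comp Primrec.unpair).to_comp
      · exact RI.of_comp (Primrec.fst.comp (Primrec.unpair.comp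
          (Primrec.snd.comp Primrec.unpair))).to_comp
  have hg : RI {orc y} (fun n : ℕ => Nat.pair n (n + 1)) :=
    RI.of_comp (Primrec₂.natPair.comp Primrec.id Primrec.succ).to_comp
  have h1 := (RI.prec h0 hh).comp hg
  refine RI_congr h1 fun n => ?_
  have key : ∀ k : ℕ, (Nat.rec 0 (fun y IH => IH + F (Nat.pair n y)) k : ℕ) =
      ∑ i ∈ Finset.range k, F (Nat.pair n i) := by
    intro k
    induction k with
    | zero => simp
    | succ k ih => rw [Finset.sum_range_succ, ← ih]
  simp only [Nat.unpair_pair]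
  exact key (n + 1)

private theorem Enc_idx :
    Primrec (fun q : ℕ => 2 * Nat.pair q.unpair.2 (2 * q.unpair.1 + 1)) :=
  Primrec.nat_mul.comp (Primrec.const 2) (Primrec₂.natPair.comp (Primrec.snd.comp Primrec.unpair)
    (Primrec.succ.comp (Primrec.nat_mul.comp (Primrec.const 2) (Primrec.fst.comp Primrec.unpair))))

private theorem Enc_idx2 (u : ℕ) : Primrec (fun n : ℕ => 2 * Nat.pair u (2 * n + 1)) :=
  Primrec.nat_mul.comp (Primrec.const 2) (Primrec₂.natPair.comp (Primrec.const u)
    (Primrec.succ.comp (Primrec.nat_mul.comp (Primrec.const 2) Primrec.id)))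

/-- `y` is computable from the join of all. -/
theorem le_W (b : Rl) {U : Set ℕ} {u : ℕ} (hu : u ∈ U) (y z : Rl) :
    Le y (jn (sj U fun i => jn b (W U u y z i)) (chi U)) := by
  classical
  rw [le_iff]
  set A : Rl := jn (sj U fun i => jn b (W U u y z i)) (chi U) with hA
  -- the bits
  have hbit : ∀ i n : ℕ, A (2 * Nat.pair i (2 * n + 1)) = if i ∈ U then W U u y z i n else false := by
    intro i n
    have h1 : 2 * Nat.pair i (2 * n + 1) % 2 = 0 := by omega
    have h2 : 2 * Nat.pair i (2 * n + 1) / 2 = Nat.pair i (2 * n + 1) := by omega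
    have h3 : ¬ (2 * n + 1) % 2 = 0 := by omega
    have h4 : (2 * n + 1) / 2 = n := by omega
    simp only [hA, jn, if_pos h1, h2, sj, Nat.unpair_pair, if_neg h3, h4]
  have hF : RI {orc A} (fun q : ℕ => (if q.unpair.2 = u then 0 else 1 : ℕ) *
      (A (2 * Nat.pair q.unpair.2 (2 * q.unpair.1 + 1))).toNat) := by
    refine RI_comp2 (p := fun a b => a * b) Primrec.nat_mul.to_comp ?_ ?_
    · refine RI.of_comp (Primrec.to_comp ?_)
      exact Primrec.ite (Primrec.eq.comp (Primrec.snd.comp Primrec.unpair) (Primrec.const u))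
        (Primrec.const 0) (Primrec.const 1)
    · exact (RI.ofOracle A).comp (g := fun q : ℕ => 2 * Nat.pair q.unpair.2 (2 * q.unpair.1 + 1))
        (RI.of_comp (Enc_idx.to_comp))
  have hS := Enc_sum hF
  have hB : RI {orc A} (fun n : ℕ => (A (2 * Nat.pair u (2 * n + 1))).toNat) :=
    (RI.ofOracle A).comp (g := fun n : ℕ => 2 * Nat.pair u (2 * n + 1))
      (RI.of_comp (Enc_idx2 u).to_comp)
  have hp : Computable₂ (fun a b : ℕ => (a + b) % 2) :=
    (Primrec.nat_mod.comp (Primrec.nat_add.comp Primrec.fst Primrec.snd) (Primrec.const 2)).to_comp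
  refine RI_congr (RI_comp2 (p := fun a b => (a + b) % 2) hp hB hS) fun n => ?_
  simp only [Nat.unpair_pair]
  have h1 : ∑ i ∈ Finset.range (n + 1), (if i = u then 0 else 1 : ℕ) *
      (A (2 * Nat.pair i (2 * n + 1))).toNat =
      ((Finset.range (n + 1)).filter fun i =>
        i ∈ U ∧ i ≠ u ∧ z (Nat.pair i n) = true).card := by
    rw [Finset.card_filter]
    refine Finset.sum_congr rfl fun i _ => ?_
    rw [hbit]
    by_cases hi : i = u
    · simp [hi]
    · by_cases hiU : i ∈ U
      · simp only [hi, hiU, W, if_false, if_true, one_mul, ne_eq, not_false_eq_true, true_and]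
        cases z (Nat.pair i n) <;> simp
      · simp [hi, hiU]
  rw [h1, hbit, if_pos hu]
  simp only [W, if_true, par]
  set c := ((Finset.range (n + 1)).filter fun i =>
        i ∈ U ∧ i ≠ u ∧ z (Nat.pair i n) = true).card with hc
  rcases Nat.mod_two_eq_zero_or_one c with h | h
  · rw [Nat.add_mod, h]
    cases y n <;> simp
  · rw [Nat.add_mod, h]
    cases y n <;> simp

/-- The joins of the parts are computable from the join of all. -/
theorem js_sj_le {U : Set ℕ} {S : ℕ → Set ℕ} (hS : ∀ m, S m ⊆ U) (x : ℕ → Rl) :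
    Le (js fun m => sj (S m) x) (jn (sj U x) (chs S)) := by
  classical
  rw [le_iff]
  set A : Rl := jn (sj U x) (chs S) with hA
  have h1 : RI {orc A} (fun n : ℕ => (A (2 * n.unpair.2)).toNat) :=
    (RI.ofOracle A).comp (g := fun n : ℕ => 2 * n.unpair.2)
      (RI.of_comp (Primrec.nat_mul.comp (Primrec.const 2)
        (Primrec.snd.comp Primrec.unpair)).to_comp)
  have h2 : RI {orc A} (fun n : ℕ => (A (2 * Nat.pair n.unpair.1 n.unpair.2.unpair.1 + 1)).toNat) :=
    (RI.ofOracle A).comp (g := fun n : ℕ => 2 * Nat.pair n.unpair.1 n.unpair.2.unpair.1 + 1)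
      (RI.of_comp (Primrec.succ.comp (Primrec.nat_mul.comp (Primrec.const 2)
        (Primrec₂.natPair.comp (Primrec.fst.comp Primrec.unpair) (Primrec.fst.comp
          (Primrec.unpair.comp (Primrec.snd.comp Primrec.unpair)))))).to_comp)
  refine RI_congr (RI_comp2 (p := fun a b => a * b) Primrec.nat_mul.to_comp h1 h2) fun n => ?_
  have e1 : 2 * n.unpair.2 % 2 = 0 := by omega
  have e2 : 2 * n.unpair.2 / 2 = n.unpair.2 := by omega
  have e3 : ¬ (2 * Nat.pair n.unpair.1 n.unpair.2.unpair.1 + 1) % 2 = 0 := by omega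
  have e4 : (2 * Nat.pair n.unpair.1 n.unpair.2.unpair.1 + 1) / 2 =
      Nat.pair n.unpair.1 n.unpair.2.unpair.1 := by omega
  simp only [hA, jn, if_pos e1, e2, if_neg e3, e4, chs, Nat.unpair_pair, js, sj]
  by_cases h : n.unpair.2.unpair.1 ∈ S n.unpair.1
  · have h' : n.unpair.2.unpair.1 ∈ U := hS _ h
    simp [h, h']
  · simp [h]

end Pool.Agent.TJ
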