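import Pool.Agent.H.MP_8387fc_lc.TJ.Enc

/-!
# Module EncL: the law of a proper part

If `u ∉ S` the join is a function of `z`, the same for all `y`. Let `u ∈ S`, `j ≠ u`. The map `R`,
which puts `xor (y n) (par U u z n)` into the place `pair u n` and `z (pair u n)` into the place
`pair j n`, for `n ≥ j`, and keeps all other bits, preserves `coin` (`mp_perm` with `N = s ^ 2`,
`s > u, j`: `pair i n < s ^ 2` if and only if `i, n < s`). The join for `S` is `G τ (R z)`, where `G τ`
overwrites the bits `pair u n`, `n < j`, by the bits of `τ` and then takes the join; `ν` is the sum of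
`coin.map (G τ)` over the `2 ^ j` possible `τ`.
-/

set_option autoImplicit false

namespace Pool.Agent.TJ

open MeasureTheory Pool.Agent.H.MP_ad67df_lc

/-- the measure preserving map -/
private noncomputable def EncL_R (U : Set ℕ) (u j : ℕ) (y z : Rl) : Rl := fun m =>
  if m.unpair.1 = u ∧ j ≤ m.unpair.2 then xor (y m.unpair.2) (par U u z m.unpair.2)
  else if m.unpair.1 = j ∧ j ≤ m.unpair.2 then z (Nat.pair u m.unpair.2) else z m

private theorem EncL_u {U : Set ℕ} {u j : ℕ} {y z : Rl} {n : ℕ} (hn : j ≤ n) :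
    EncL_R U u j y z (Nat.pair u n) = xor (y n) (par U u z n) := by
  unfold EncL_R
  rw [Nat.unpair_pair, if_pos ⟨rfl, hn⟩]

private theorem EncL_j {U : Set ℕ} {u j : ℕ} (hju : j ≠ u) {y z : Rl} {n : ℕ} (hn : j ≤ n) :
    EncL_R U u j y z (Nat.pair j n) = z (Nat.pair u n) := by
  unfold EncL_R
  rw [Nat.unpair_pair, if_neg (fun h => hju h.1), if_pos ⟨rfl, hn⟩]

private theorem EncL_o {U : Set ℕ} {u j : ℕ} {y z : Rl} {i n : ℕ}
    (h : n < j ∨ (i ≠ u ∧ i ≠ j)) :
    EncL_R U u j y z (Nat.pair i n) = z (Nat.pair i n) := by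
  unfold EncL_R
  rw [Nat.unpair_pair, if_neg, if_neg]
  · rintro ⟨h1, h2⟩
    dsimp only at h1 h2
    rcases h with h | h
    · omega
    · exact h.2 h1
  · rintro ⟨h1, h2⟩
    dsimp only at h1 h2
    rcases h with h | h
    · omega
    · exact h.1 h1

open Classical in
private theorem EncL_par {U : Set ℕ} {u : ℕ} {z z' : Rl} {n : ℕ}
    (h : ∀ i ≤ n, z (Nat.pair i n) = z' (Nat.pair i n)) : par U u z n = par U u z' n := by
  unfold par
  have h1 : ((Finset.range (n + 1)).filter fun i => i ∈ U ∧ i ≠ u ∧ z (Nat.pair i n) = true) =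
      (Finset.range (n + 1)).filter fun i => i ∈ U ∧ i ≠ u ∧ z' (Nat.pair i n) = true := by
    refine Finset.filter_congr fun i hi => ?_
    rw [h i (by rw [Finset.mem_range] at hi; omega)]
  rw [h1]

open Classical in
private theorem EncL_card {U : Set ℕ} {u j : ℕ} (hj : j ∈ U) (hju : j ≠ u) (z : Rl) {n : ℕ}
    (hn : j ≤ n) : ((Finset.range (n + 1)).filter fun i =>
        i ∈ U ∧ i ≠ u ∧ z (Nat.pair i n) = true).card =
      (((Finset.range (n + 1)).erase j).filter fun i =>
        i ∈ U ∧ i ≠ u ∧ z (Nat.pair i n) = true).card + (z (Nat.pair j n)).toNat := by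
  have h1 : Finset.range (n + 1) = insert j ((Finset.range (n + 1)).erase j) := by
    rw [Finset.insert_erase]
    rw [Finset.mem_range]
    omega
  conv_lhs => rw [h1]
  rw [Finset.filter_insert]
  by_cases hz : z (Nat.pair j n) = true
  · rw [if_pos ⟨hj, hju, hz⟩, Finset.card_insert_of_notMem, hz]
    · rfl
    · intro h2
      exact Finset.notMem_erase j _ (Finset.mem_filter.mp h2).1
  · rw [if_neg (fun h2 => hz h2.2.2)]
    rw [Bool.not_eq_true] at hz
    rw [hz]
    rfl

open Classical in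
private theorem EncL_inj1 {U : Set ℕ} {u j : ℕ} (hj : j ∈ U) (hju : j ≠ u) {z z' : Rl} {n : ℕ}
    (hn : j ≤ n) (h : ∀ i ≤ n, i ≠ j → i ≠ u → z (Nat.pair i n) = z' (Nat.pair i n))
    (hp : par U u z n = par U u z' n) : z (Nat.pair j n) = z' (Nat.pair j n) := by
  unfold par at hp
  rw [EncL_card hj hju z hn, EncL_card hj hju z' hn] at hp
  have h1 : (((Finset.range (n + 1)).erase j).filter fun i =>
      i ∈ U ∧ i ≠ u ∧ z (Nat.pair i n) = true) =
      ((Finset.range (n + 1)).erase j).filter fun i =>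
        i ∈ U ∧ i ≠ u ∧ z' (Nat.pair i n) = true := by
    refine Finset.filter_congr fun i hi => ?_
    rw [Finset.mem_erase, Finset.mem_range] at hi
    constructor
    · rintro ⟨h2, h3, h4⟩
      exact ⟨h2, h3, by rw [← h i (by omega) hi.1 h3]; exact h4⟩
    · rintro ⟨h2, h3, h4⟩
      exact ⟨h2, h3, by rw [h i (by omega) hi.1 h3]; exact h4⟩
  rw [h1] at hp
  generalize (((Finset.range (n + 1)).erase j).filter fun i =>
      i ∈ U ∧ i ≠ u ∧ z' (Nat.pair i n) = true).card = c at hp
  rw [decide_eq_decide] at hp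
  cases hz : z (Nat.pair j n) <;> cases hz' : z' (Nat.pair j n)
  · rfl
  · rw [hz, hz'] at hp
    simp only [Bool.toNat_false, Bool.toNat_true] at hp
    omega
  · rw [hz, hz'] at hp
    simp only [Bool.toNat_false, Bool.toNat_true] at hp
    omega
  · rfl

private theorem EncL_lt {s i n : ℕ} : Nat.pair i n < s ^ 2 ↔ i < s ∧ n < s := by
  constructor
  · intro h
    have h1 := Nat.max_sq_add_min_le_pair i n
    have h2 : (max i n) ^ 2 < s ^ 2 := by omega
    have h3 : max i n < s := lt_of_pow_lt_pow_left₀ 2 (Nat.zero_le _) h2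
    omega
  · rintro ⟨h1, h2⟩
    have h3 := Nat.pair_lt_max_add_one_sq i n
    have h4 : (max i n + 1) ^ 2 ≤ s ^ 2 := Nat.pow_le_pow_left (by omega) 2
    omega

private theorem EncL_loc {U : Set ℕ} {u j s : ℕ} (hju : j ≠ u) (hu : u < s) (y : Rl)
    {z z' : Rl} (h : ∀ m < s ^ 2, z m = z' m) (m : ℕ) (hm : m < s ^ 2) :
    EncL_R U u j y z m = EncL_R U u j y z' m := by
  obtain ⟨i, n, rfl⟩ : ∃ i n, m = Nat.pair i n := ⟨m.unpair.1, m.unpair.2, by
    rw [Nat.pair_unpair]⟩
  obtain ⟨hi, hn⟩ := EncL_lt.mp hm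
  by_cases hjn : j ≤ n
  · by_cases hiu : i = u
    · rw [hiu, EncL_u hjn, EncL_u hjn]
      congr 1
      exact EncL_par fun i' hi' => h _ (EncL_lt.mpr ⟨by omega, hn⟩)
    · by_cases hij : i = j
      · rw [hij, EncL_j hju hjn, EncL_j hju hjn]
        exact h _ (EncL_lt.mpr ⟨hu, hn⟩)
      · rw [EncL_o (Or.inr ⟨hiu, hij⟩), EncL_o (Or.inr ⟨hiu, hij⟩)]
        exact h _ hm
  · rw [EncL_o (Or.inl (by omega)), EncL_o (Or.inl (by omega))]
    exact h _ hm

private theorem EncL_inj {U : Set ℕ} {u j s : ℕ} (hj : j ∈ U) (hju : j ≠ u) (hu : u < s)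
    (hjs : j < s) (y : Rl) {z z' : Rl}
    (h : ∀ m < s ^ 2, EncL_R U u j y z m = EncL_R U u j y z' m) (m : ℕ) (hm : m < s ^ 2) :
    z m = z' m := by
  have ho : ∀ i n, i < s → n < s → (n < j ∨ (i ≠ u ∧ i ≠ j)) →
      z (Nat.pair i n) = z' (Nat.pair i n) := by
    intro i n hi hn hin
    have h1 := h (Nat.pair i n) (EncL_lt.mpr ⟨hi, hn⟩)
    rw [EncL_o hin, EncL_o hin] at h1
    exact h1
  have hzu : ∀ n, n < s → j ≤ n → z (Nat.pair u n) = z' (Nat.pair u n) := by
    intro n hn hjn
    have h1 := h (Nat.pair j n) (EncL_lt.mpr ⟨hjs, hn⟩)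
    rw [EncL_j hju hjn, EncL_j hju hjn] at h1
    exact h1
  have hzj : ∀ n, n < s → j ≤ n → z (Nat.pair j n) = z' (Nat.pair j n) := by
    intro n hn hjn
    refine EncL_inj1 hj hju hjn (fun i hi h1 h2 => ho i n (by omega) hn (Or.inr ⟨h2, h1⟩)) ?_
    have h1 := h (Nat.pair u n) (EncL_lt.mpr ⟨hu, hn⟩)
    rw [EncL_u hjn, EncL_u hjn] at h1
    rcases y n with _ | _ <;> simpa using h1
  obtain ⟨i, n, rfl⟩ : ∃ i n, m = Nat.pair i n := ⟨m.unpair.1, m.unpair.2, by
    rw [Nat.pair_unpair]⟩
  obtain ⟨hi, hn⟩ := EncL_lt.mp hm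
  by_cases hjn : j ≤ n
  · by_cases hiu : i = u
    · rw [hiu]
      exact hzu n hn hjn
    · by_cases hij : i = j
      · rw [hij]
        exact hzj n hn hjn
      · exact ho i n hi hn (Or.inr ⟨hiu, hij⟩)
  · exact ho i n hi hn (Or.inl (by omega))

private theorem EncL_mp {U : Set ℕ} {u j : ℕ} (hj : j ∈ U) (hju : j ≠ u) (y : Rl) :
    MeasurePreserving (EncL_R U u j y) coin coin := by
  refine mp_perm fun m => ?_
  obtain ⟨s, hs⟩ : ∃ s, s = u + j + m + 1 := ⟨_, rfl⟩
  have hus : u < s := by omega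
  have hjs : j < s := by omega
  have hms : m ≤ s ^ 2 := by
    have : s ≤ s ^ 2 := by nlinarith
    omega
  refine ⟨s ^ 2, hms, ?_⟩
  let ext : (Fin (s ^ 2) → Bool) → Rl := fun w n => if h : n < s ^ 2 then w ⟨n, h⟩ else false
  have hext : ∀ w (i : Fin (s ^ 2)), ext w i = w i := by
    intro w i
    simp only [ext]
    rw [dif_pos i.isLt]
  let f : (Fin (s ^ 2) → Bool) → (Fin (s ^ 2) → Bool) := fun w i => EncL_R U u j y (ext w) i
  have hf : Function.Injective f := by
    intro w w' hww
    funext i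
    have h1 := EncL_inj hj hju hus hjs y (z := ext w) (z' := ext w')
      (fun m hm => congrFun hww ⟨m, hm⟩) i i.isLt
    rw [hext, hext] at h1
    exact h1
  refine ⟨Equiv.ofBijective f (Finite.injective_iff_bijective.mp hf), fun z => ?_⟩
  funext i
  change EncL_R U u j y z i = EncL_R U u j y (ext fun i => z i) i
  refine EncL_loc hju hus y (fun m hm => ?_) i i.isLt
  simp only [ext]
  rw [dif_pos hm]

/-- the join, with finitely many bits of the column `u` overwritten -/
private noncomputable def EncL_G (b : Rl) (S : Set ℕ) (u j : ℕ) (τ : Fin j → Bool) (x : Rl) : Rl :=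
  sj S fun i => jn b fun n => if h : i = u ∧ n < j then τ ⟨n, h.2⟩ else x (Nat.pair i n)

private theorem EncL_Gm (b : Rl) (S : Set ℕ) (u j : ℕ) (τ : Fin j → Bool) :
    Measurable (EncL_G b S u j τ) := by
  refine measurable_pi_iff.2 fun m => ?_
  unfold EncL_G sj jn
  by_cases h1 : m.unpair.1 ∈ S
  · simp only [if_pos h1]
    by_cases h2 : m.unpair.2 % 2 = 0
    · simp only [if_pos h2]
      exact measurable_const
    · simp only [if_neg h2]
      by_cases h3 : m.unpair.1 = u ∧ m.unpair.2 / 2 < j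
      · simp only [dif_pos h3]
        exact measurable_const
      · simp only [dif_neg h3]
        exact measurable_pi_apply _
  · simp only [if_neg h1]
    exact measurable_const

private theorem EncL_eq (b : Rl) {U S : Set ℕ} {u j : ℕ} (hju : j ≠ u) (hjS : j ∉ S) (y z : Rl) :
    (sj S fun i => jn b (W U u y z i)) =
      EncL_G b S u j (fun n => xor (y n) (par U u z n)) (EncL_R U u j y z) := by
  funext m
  unfold EncL_G sj
  by_cases h1 : m.unpair.1 ∈ S
  · rw [if_pos h1, if_pos h1]
    refine congrFun (congrArg (jn b) ?_) _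
    funext n
    have hij : m.unpair.1 ≠ j := by
      intro h2
      rw [h2] at h1
      exact hjS h1
    unfold W
    by_cases h2 : m.unpair.1 = u
    · rw [if_pos h2]
      by_cases h3 : n < j
      · rw [dif_pos ⟨h2, h3⟩]
      · rw [dif_neg (fun h4 => h3 h4.2), h2, EncL_u (by omega)]
    · rw [if_neg h2, dif_neg (fun h4 => h2 h4.1), EncL_o (Or.inr ⟨h2, hij⟩)]
  · rw [if_neg h1, if_neg h1]

theorem law_W (b : Rl) {U S : Set ℕ} {u j : ℕ} (hu : u ∈ U) (hS : S ⊆ U) (hj : j ∈ U)
    (hjS : j ∉ S) : ∃ ν : Measure Rl, IsFiniteMeasure ν ∧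
      ∀ y, coin.map (fun z => sj S fun i => jn b (W U u y z i)) ≤ ν := by
  by_cases huS : u ∈ S
  · have hju : j ≠ u := by
      intro h
      rw [h] at hjS
      exact hjS huS
    refine ⟨∑ τ : Fin j → Bool, coin.map (EncL_G b S u j τ), ?_, fun y => ?_⟩
    · constructor
      rw [Measure.finsetSum_apply]
      exact ENNReal.sum_lt_top.2 fun τ _ => measure_lt_top _ _
    · refine Measure.le_iff.2 fun A hA => ?_
      rw [Measure.map_apply (meas_W b U u y S) hA, Measure.finsetSum_apply]
      have hmp := EncL_mp hj hju y (u := u)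
      have h1 : (fun z => sj S fun i => jn b (W U u y z i)) ⁻¹' A ⊆
          ⋃ τ ∈ (Finset.univ : Finset (Fin j → Bool)),
            EncL_R U u j y ⁻¹' (EncL_G b S u j τ ⁻¹' A) := by
        intro z hz
        rw [Set.mem_preimage, EncL_eq b hju hjS y z] at hz
        rw [Set.mem_iUnion₂]
        exact ⟨_, Finset.mem_univ _, hz⟩
      refine (measure_mono h1).trans ((measure_biUnion_finset_le _ _).trans ?_)
      refine Finset.sum_le_sum fun τ _ => ?_
      rw [Measure.map_apply (EncL_Gm b S u j τ) hA]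
      exact (hmp.measure_preimage ((EncL_Gm b S u j τ) hA).nullMeasurableSet).le
  · refine ⟨coin.map (fun z => sj S fun i => jn b (W U u (fun _ => false) z i)), ?_, fun y => ?_⟩
    · infer_instance
    · have h1 : (fun z => sj S fun i => jn b (W U u y z i)) =
          fun z => sj S fun i => jn b (W U u (fun _ => false) z i) := by
        funext z m
        unfold sj
        by_cases h2 : m.unpair.1 ∈ S
        · rw [if_pos h2, if_pos h2]
          refine congrFun (congrArg (jn b) ?_) _
          funext n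
          have h3 : m.unpair.1 ≠ u := by
            intro h4
            rw [h4] at h2
            exact huS h2
          unfold W
          rw [if_neg h3, if_neg h3]
        · rw [if_neg h2, if_neg h2]
      rw [h1]

end Pool.Agent.TJ
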