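import Pool.Agent.H.MP_8387fc_lc.TJ.Dens
import Pool.Agent.H.MP_8387fc_lc.TJ.RedS
import Pool.Agent.H.MP_8387fc_lc.TJ.RedC

/-!
# Module Sacks: reals computable from many reals

For some index `e` the set `E` of the `z` such that `Phi e (bpre (jn z Y) t) i = some (A i).toNat` for
all `i` and some `t = t (i)` has positive measure (`exists_Phi_of_le`, countably many `e`); `dens`
gives a cylinder `s`. To compute `A n` from `Y`: search for a length `L` and a value `v` such that
more than half of the strings `τ` of length `L` which extend `s` satisfy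
`Phi e (skj τ (bpre Y L)) n = some v` (`RI.of_functional`).
-/

set_option autoImplicit false

namespace Pool.Agent.TJ

open MeasureTheory Pool.Agent.H.MP_ad67df_lc

/-- Interleaving of strings. -/
def skj (τ ρ : List Bool) : List Bool :=
  (List.range (2 * ρ.length)).map fun i =>
    if i % 2 = 0 then τ.getD (i / 2) false else ρ.getD (i / 2) false

theorem skj_bpre (z Y : Rl) (m : ℕ) : skj (bpre z m) (bpre Y m) = bpre (jn z Y) (2 * m) := by
  apply List.ext_getElem?
  intro i
  rw [skj, bpre_length]
  by_cases hi : i < 2 * m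
  · have h2 : i / 2 < m := by omega
    rw [bpre_getElem? _ hi, List.getElem?_map, List.getElem?_range hi, Option.map_some,
      List.getD_eq_getElem?_getD, List.getD_eq_getElem?_getD, bpre_getElem? _ h2,
      bpre_getElem? _ h2]
    rfl
  · rw [List.getElem?_eq_none, List.getElem?_eq_none] <;> simp [bpre_length] <;> omega

/-- Number of the strings above `s` which give the value `v`. -/
def skc (e : ℕ) (s ρ : List Bool) (n v : ℕ) : ℕ :=
  (bins ρ.length).countP fun τ => decide (s <+: τ) && decide (Phi e (skj τ ρ) n = some v)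

/-- The majority vote. -/
def skm (e : ℕ) (s ρ : List Bool) (n : ℕ) : Option ℕ :=
  if 2 ^ ρ.length < 2 * skc e s ρ n 0 * 2 ^ s.length then some 0
  else if 2 ^ ρ.length < 2 * skc e s ρ n 1 * 2 ^ s.length then some 1 else none

theorem primrec_skj : Primrec₂ skj := by
  unfold skj
  refine Primrec₂.mk (Primrec.list_map (Primrec.list_range.comp (Primrec.nat_mul.comp
    (Primrec.const 2) (Primrec.list_length.comp Primrec.snd))) (Primrec₂.mk ?_))
  have hh : Primrec (fun p : (List Bool × List Bool) × ℕ => p.2 / 2) :=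
    Primrec.nat_div.comp Primrec.snd (Primrec.const 2)
  refine Primrec.ite ?_ ?_ ?_
  · exact Primrec.eq.comp (Primrec.nat_mod.comp Primrec.snd (Primrec.const 2)) (Primrec.const 0)
  · exact (Primrec.list_getD false).comp (Primrec.fst.comp Primrec.fst) hh
  · exact (Primrec.list_getD false).comp (Primrec.snd.comp Primrec.fst) hh

theorem primrec_skc (e : ℕ) (s : List Bool) (v : ℕ) :
    Primrec₂ (fun (ρ : List Bool) (n : ℕ) => skc e s ρ n v) := by
  unfold skc
  refine Primrec₂.mk (primrec_countP (primrec_bins.comp (Primrec.list_length.comp Primrec.fst))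
    (Primrec₂.mk ?_))
  have hphi : Primrec (fun p : (List Bool × ℕ) × List Bool => Phi e (skj p.2 p.1.1) p.1.2) :=
    primrec_Phi.comp (Primrec.pair (Primrec.pair (Primrec.const e) (primrec_skj.comp Primrec.snd
      (Primrec.fst.comp Primrec.fst))) (Primrec.snd.comp Primrec.fst))
  refine Primrec.and.comp ?_ ?_
  · exact (primrec_prefix.comp (Primrec.const s) Primrec.snd).decide
  · exact (Primrec.eq.comp hphi (Primrec.const (some v))).decide

theorem primrec_skm (e : ℕ) (s : List Bool) : Primrec₂ (skm e s) := by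
  unfold skm
  have hp : Primrec (fun p : List Bool × ℕ => 2 ^ p.1.length) :=
    primrec_two_pow.comp (Primrec.list_length.comp Primrec.fst)
  have hc : ∀ v, Primrec (fun p : List Bool × ℕ => 2 * skc e s p.1 p.2 v * 2 ^ s.length) :=
    fun v => Primrec.nat_mul.comp (Primrec.nat_mul.comp (Primrec.const 2) (primrec_skc e s v))
      (Primrec.const _)
  refine Primrec₂.mk (Primrec.ite ?_ (Primrec.const _) (Primrec.ite ?_ (Primrec.const _)
    (Primrec.const _)))
  · exact Primrec.nat_lt.comp hp (hc 0)
  · exact Primrec.nat_lt.comp hp (hc 1)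

theorem sk_meas (Y : Rl) (t : ℕ) (P : List Bool → Prop) :
    MeasurableSet {z : Rl | P (bpre (jn z Y) t)} := by
  have h1 : Measurable (fun (z : Rl) (j : Fin t) => jn z Y j.val) := by
    refine measurable_pi_iff.2 fun j => ?_
    unfold jn
    by_cases hj : j.val % 2 = 0
    · simp only [hj, if_true]
      exact measurable_pi_apply _
    · simp only [hj, if_false]
      exact measurable_const
  exact h1 (Set.toFinite {y : Fin t → Bool | P (List.ofFn y)}).measurableSet

theorem sk_coin (m : ℕ) (C : Finset (List Bool)) (hC : ∀ τ ∈ C, τ.length = m) :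
    coin {z | bpre z m ∈ C} = C.card * (2⁻¹ : ENNReal) ^ m := by
  have h1 : {z : Rl | bpre z m ∈ C} = ⋃ τ ∈ C, {z | bpre z τ.length = τ} := by
    ext z
    simp only [Set.mem_ofPred_eq, Set.mem_iUnion, exists_prop]
    constructor
    · intro h
      refine ⟨_, h, ?_⟩
      rw [bpre_length]
    · rintro ⟨τ, hτ, h⟩
      rw [hC τ hτ] at h
      rw [h]
      exact hτ
  rw [h1, measure_biUnion_finset]
  · rw [Finset.sum_congr rfl fun τ hτ => by rw [coin_cyl, hC τ hτ], Finset.sum_const, nsmul_eq_mul]
  · intro τ hτ τ' hτ' hne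
    refine Set.disjoint_left.2 fun z hz hz' => hne ?_
    simp only [Set.mem_ofPred_eq] at hz hz'
    rw [hC τ hτ] at hz
    rw [hC τ' hτ'] at hz'
    rw [← hz, ← hz']
  · intro τ _
    exact meas_cyl τ

theorem sk_half (k m l : ℕ) : 2 ^ m < 2 * k * 2 ^ l ↔
    (2⁻¹ : ENNReal) * (2⁻¹ : ENNReal) ^ l < k * (2⁻¹ : ENNReal) ^ m := by
  rw [← ENNReal.toReal_lt_toReal]
  · simp only [ENNReal.toReal_mul, ENNReal.toReal_pow, ENNReal.toReal_inv, ENNReal.toReal_ofNat,
      ENNReal.toReal_natCast]
    have hm : (0 : ℝ) < 2 ^ m := by positivity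
    have hl : (0 : ℝ) < 2 ^ l := by positivity
    rw [inv_pow, inv_pow, ← div_eq_mul_inv, ← div_eq_mul_inv, inv_eq_one_div, div_div,
      div_lt_div_iff₀ (by positivity) hm, one_mul]
    constructor
    · intro h
      have h' : ((2 ^ m : ℕ) : ℝ) < ((2 * k * 2 ^ l : ℕ) : ℝ) := by exact_mod_cast h
      push_cast at h'
      nlinarith
    · intro h
      have h' : ((2 ^ m : ℕ) : ℝ) < ((2 * k * 2 ^ l : ℕ) : ℝ) := by
        push_cast
        nlinarith
      exact_mod_cast h'
  · exact ENNReal.mul_ne_top (by norm_num) (ENNReal.pow_ne_top (by norm_num))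
  · exact ENNReal.mul_ne_top (by norm_num) (ENNReal.pow_ne_top (by norm_num))

/-- The strings of length `m` above `s` which give the value `v`. -/
def skS (e : ℕ) (s : List Bool) (Y : Rl) (m n v : ℕ) : Finset (List Bool) :=
  (SS m).filter fun τ => (decide (s <+: τ) && decide (Phi e (skj τ (bpre Y m)) n = some v)) = true

theorem skc_eq (e : ℕ) (s : List Bool) (Y : Rl) (m n v : ℕ) :
    skc e s (bpre Y m) n v = (skS e s Y m n v).card := by
  unfold skc skS
  rw [bpre_length, countP_bins]

theorem mem_skS {e : ℕ} {s : List Bool} {Y : Rl} {m n v : ℕ} {z : Rl} :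
    bpre z m ∈ skS e s Y m n v ↔ s <+: bpre z m ∧ Phi e (bpre (jn z Y) (2 * m)) n = some v := by
  unfold skS
  rw [Finset.mem_filter, Bool.and_eq_true, decide_eq_true_iff, decide_eq_true_iff, skj_bpre]
  exact ⟨fun h => h.2, fun h => ⟨bpre_mem_SS z m, h⟩⟩

theorem coin_skS (e : ℕ) (s : List Bool) (Y : Rl) (m n v : ℕ) :
    coin {z | bpre z m ∈ skS e s Y m n v} = skc e s (bpre Y m) n v * (2⁻¹ : ENNReal) ^ m := by
  rw [sk_coin m _ fun τ hτ => ?_, skc_eq]
  unfold skS at hτ
  exact mem_SS.1 (Finset.mem_filter.1 hτ).1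

theorem sacks {A Y : Rl} (h : ∀ᵐ z ∂coin, Le A (jn z Y)) : Le A Y := by
  classical
  -- the sets `E e`
  let E : ℕ → Set Rl := fun e => {z | ∀ i, ∃ t, Phi e (bpre (jn z Y) t) i = some (A i).toNat}
  have hEm : ∀ e, MeasurableSet (E e) := by
    intro e
    have : E e = ⋂ i, ⋃ t, {z : Rl | Phi e (bpre (jn z Y) t) i = some (A i).toNat} := by
      ext z
      simp only [E, Set.mem_ofPred_eq, Set.mem_iInter, Set.mem_iUnion]
    rw [this]
    exact MeasurableSet.iInter fun i => MeasurableSet.iUnion fun t =>
      sk_meas Y t fun l => Phi e l i = some (A i).toNat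
  have hex : ∃ e, coin (E e) ≠ 0 := by
    by_contra hcon
    push Not at hcon
    have h0 : coin (⋃ e, E e) = 0 := measure_iUnion_null hcon
    have h1 : ∀ᵐ z ∂coin, z ∈ ⋃ e, E e := by
      filter_upwards [h] with z hz
      obtain ⟨e, he⟩ := exists_Phi_of_le hz
      exact Set.mem_iUnion.2 ⟨e, he⟩
    have h2 : ∀ᵐ z ∂coin, z ∉ ⋃ e, E e := measure_eq_zero_iff_ae_notMem.1 h0
    have h3 : ∀ᵐ _ ∂coin, False := by
      filter_upwards [h1, h2] with z a b
      exact b a
    have h4 : coin Set.univ = 0 := by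
      have h5 := ae_iff.1 h3
      simp at h5
    rw [measure_univ] at h4
    exact one_ne_zero h4
  obtain ⟨e, he⟩ := hex
  obtain ⟨s, hs⟩ := dens (hEm e).nullMeasurableSet he
  rw [le_iff]
  refine RI.of_functional Y (skm e s) (primrec_skm e s).to_comp _ ?_ ?_
  · -- some vote is decisive
    intro n
    let D : ℕ → Set Rl := fun t => {z | bpre z t ∈ skS e s Y t n (A n).toNat}
    have hDm : Monotone D := by
      intro t t' htt z hz
      simp only [D, Set.mem_ofPred_eq, mem_skS] at hz ⊢
      exact ⟨hz.1.trans (bpre_prefix z htt), Phi_mono (bpre_prefix _ (by omega)) hz.2⟩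
    have hsub : E e ∩ {z | bpre z s.length = s} ⊆ ⋃ t, D t := by
      rintro z ⟨hz, hzs⟩
      obtain ⟨t, ht⟩ := hz n
      refine Set.mem_iUnion.2 ⟨max t s.length, ?_⟩
      simp only [D, Set.mem_ofPred_eq, mem_skS]
      refine ⟨bpre_inj_le hzs (le_max_right _ _), Phi_mono (bpre_prefix _ ?_) ht⟩
      have := le_max_left t s.length
      omega
    have hlt : (2⁻¹ : ENNReal) * (2⁻¹ : ENNReal) ^ s.length < coin (⋃ t, D t) := by
      refine lt_of_le_of_lt ?_ (lt_of_lt_of_le hs (measure_mono hsub))
      refine mul_le_mul' ?_ le_rfl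
      rw [← ENNReal.toReal_le_toReal (by norm_num)
        (ENNReal.div_ne_top (by norm_num) (by norm_num))]
      simp only [ENNReal.toReal_div, ENNReal.toReal_inv, ENNReal.toReal_ofNat]
      norm_num
    rw [hDm.measure_iUnion] at hlt
    obtain ⟨t, ht⟩ := lt_iSup_iff.1 hlt
    refine ⟨t, ?_⟩
    simp only [D] at ht
    rw [coin_skS, ← sk_half] at ht
    unfold skm
    rw [bpre_length]
    cases hA : A n with
    | false =>
      rw [hA, Bool.toNat_false] at ht
      rw [if_pos ht]
      simp
    | true =>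
      rw [hA, Bool.toNat_true] at ht
      by_cases h1 : 2 ^ t < 2 * skc e s (bpre Y t) n 0 * 2 ^ s.length
      · rw [if_pos h1]
        simp
      · rw [if_neg h1, if_pos ht]
        simp
  · -- a decisive vote is correct
    have key : ∀ n m v, 2 ^ m < 2 * skc e s (bpre Y m) n v * 2 ^ s.length → v = (A n).toNat := by
      intro n m v hv
      rw [sk_half, ← coin_skS] at hv
      by_contra hne
      have hdisj : Disjoint (E e ∩ {z | bpre z s.length = s}) {z | bpre z m ∈ skS e s Y m n v} := by
        refine Set.disjoint_left.2 ?_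
        rintro z ⟨hz, _⟩ hz'
        simp only [Set.mem_ofPred_eq, mem_skS] at hz'
        obtain ⟨t, ht⟩ := hz n
        have h1 := Phi_mono (bpre_prefix (jn z Y) (le_max_left t (2 * m))) ht
        have h2 := Phi_mono (bpre_prefix (jn z Y) (le_max_right t (2 * m))) hz'.2
        rw [h1] at h2
        exact hne (Option.some_injective _ h2).symm
      have hle : coin (E e ∩ {z | bpre z s.length = s}) + coin {z | bpre z m ∈ skS e s Y m n v} ≤
          (2⁻¹ : ENNReal) ^ s.length := by
        rw [← measure_union' hdisj ((hEm e).inter (meas_cyl s)), ← coin_cyl s]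
        refine measure_mono ?_
        rintro z (hz | hz)
        · exact hz.2
        · simp only [Set.mem_ofPred_eq, mem_skS] at hz
          exact (prefix_bpre hz.1).symm
      have hlt : (3 / 4 : ENNReal) * (2⁻¹ : ENNReal) ^ s.length +
          (2⁻¹ : ENNReal) * (2⁻¹ : ENNReal) ^ s.length < (2⁻¹ : ENNReal) ^ s.length :=
        lt_of_lt_of_le (ENNReal.add_lt_add hs hv) hle
      have hle2 : (2⁻¹ : ENNReal) ^ s.length ≤ (3 / 4 : ENNReal) * (2⁻¹ : ENNReal) ^ s.length +
          (2⁻¹ : ENNReal) * (2⁻¹ : ENNReal) ^ s.length := by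
        rw [← add_mul]
        refine le_mul_of_one_le_left zero_le ?_
        rw [← ENNReal.toReal_le_toReal (by norm_num) (ENNReal.add_ne_top.2
          ⟨ENNReal.div_ne_top (by norm_num) (by norm_num), by norm_num⟩),
          ENNReal.toReal_add (ENNReal.div_ne_top (by norm_num) (by norm_num)) (by norm_num)]
        simp only [ENNReal.toReal_div, ENNReal.toReal_inv, ENNReal.toReal_ofNat,
          ENNReal.toReal_one]
        norm_num
      exact absurd hlt (not_lt.2 hle2)
    intro n m v hv
    unfold skm at hv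
    rw [bpre_length] at hv
    by_cases h0 : 2 ^ m < 2 * skc e s (bpre Y m) n 0 * 2 ^ s.length
    · rw [if_pos h0] at hv
      rw [← Option.some_injective _ hv]
      exact key n m 0 h0
    · rw [if_neg h0] at hv
      by_cases h1 : 2 ^ m < 2 * skc e s (bpre Y m) n 1 * 2 ^ s.length
      · rw [if_pos h1] at hv
        rw [← Option.some_injective _ hv]
        exact key n m 1 h1
      · rw [if_neg h1] at hv
        exact absurd hv (by simp)

end Pool.Agent.TJ
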