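import Pool.Agent.H.MP_8387fc_lc.TJ.App
import Pool.Agent.H.MP_8387fc_lc.TJ.Sacks
import Pool.Agent.H.MP_8387fc_lc.TJ.Coin

/-!
# Module Hom: join homomorphisms are regressive on a cone

`hom_mono`: `y` is equivalent to `jn y x`. `hom_reg`: `lusin_one` with `g z = jn b z` gives `c`; take
`y` above `jn b c`. For almost all `z` both `z` and `xr z y` are good (`coin_xr`), and
`y ≤ jn (jn b z) (jn b (xr z y))`, hence `f y ≤ jn (f (jn b z)) (f (jn b (xr z y))) ≤ jn z y`; `sacks`.
-/

set_option autoImplicit false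

namespace Pool.Agent.TJ

open MeasureTheory Pool.Agent.H.MP_ad67df_lc

variable {f : Rl → Rl} {b : Rl}

theorem hom_mono (hTI : ∀ x y, Le b x → Eqv x y → Eqv (f x) (f y))
    (hJ : ∀ x y, Le b x → Le b y → Eqv (f (jn x y)) (jn (f x) (f y))) {x y : Rl} (hx : Le b x)
    (hxy : Le x y) : Le (f x) (f y) := by
  have hy : Le b y := hx.trans hxy
  have h1 : Eqv y (jn y x) := ⟨jn_l y x, jn_lub (Le.refl y) hxy⟩
  exact ((jn_r (f y) (f x)).trans (hJ y x hy hx).2).trans (hTI y (jn y x) hy h1).2

/-- Join homomorphisms are regressive on a cone. -/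
theorem hom_reg (hf : UM f) (hTI : ∀ x y, Le b x → Eqv x y → Eqv (f x) (f y))
    (hJ : ∀ x y, Le b x → Le b y → Eqv (f (jn x y)) (jn (f x) (f y))) :
    ∃ c, ∀ y, Le c y → Le (f y) y := by
  have hm : Measurable fun z : Rl => jn b z := by
    rw [measurable_pi_iff]
    intro n
    by_cases hn : n % 2 = 0
    · have h1 : (fun z : Rl => jn b z n) = fun _ => b (n / 2) := by
        funext z
        simp only [jn, if_pos hn]
      rw [h1]
      exact measurable_const
    · have h1 : (fun z : Rl => jn b z n) = fun z : Rl => z (n / 2) := by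
        funext z
        simp only [jn, if_neg hn]
      rw [h1]
      exact measurable_pi_apply (n / 2)
  obtain ⟨c, hc⟩ := lusin_one hf hm
  refine ⟨jn b c, fun y hy => ?_⟩
  have hby : Le b y := (jn_l b c).trans hy
  have hcy : Le c y := (jn_r b c).trans hy
  have hc2 : ∀ᵐ z ∂coin, Le (f (jn b (xr z y))) (jn (jn b (xr z y)) c) :=
    (coin_xr y).quasiMeasurePreserving.ae hc
  refine sacks ?_
  filter_upwards [hc, hc2] with z h1 h2
  have hyx : y = xr z (xr z y) := by
    funext n
    simp only [xr]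
    cases z n <;> cases y n <;> rfl
  have hyj : Le y (jn (jn b z) (jn b (xr z y))) := by
    have h3 : Le y (jn z (xr z y)) := by
      have h4 := xr_le z (xr z y)
      rwa [← hyx] at h4
    refine h3.trans (jn_lub ?_ ?_)
    · exact (jn_r b z).trans (jn_l _ _)
    · exact (jn_r b (xr z y)).trans (jn_r _ _)
  have h5 : Le (f y) (f (jn (jn b z) (jn b (xr z y)))) := hom_mono hTI hJ hby hyj
  have h6 := (hJ (jn b z) (jn b (xr z y)) (jn_l b z) (jn_l b (xr z y))).1
  have hb' : Le b (jn z y) := hby.trans (jn_r z y)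
  have hc' : Le c (jn z y) := hcy.trans (jn_r z y)
  refine (h5.trans h6).trans (jn_lub ?_ ?_)
  · exact h1.trans (jn_lub (jn_lub hb' (jn_l z y)) hc')
  · exact h2.trans (jn_lub (jn_lub hb' (xr_le z y)) hc')

end Pool.Agent.TJ
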