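import Pool.Agent.H.MP_8387fc_lc.TJ.Dens
import Pool.Agent.H.MP_8387fc_lc.TJ.Coin

/-!
# Module Zo: zero-one law

`dens` gives a cylinder `s`; the sets `E ∩ (cylinder of t)`, `t` of the same length as `s`, are the
images of each other under the maps `coin_xr (z0 ..)`, hence `coin E > 3 / 4`; `coin_xr y`.
-/

set_option autoImplicit false

namespace Pool.Agent.TJ

open MeasureTheory Pool.Agent.H.MP_ad67df_lc

theorem zo {E : Set Rl} (hE : NullMeasurableSet E coin) (h0 : coin E ≠ 0)
    (hfin : ∀ (z z' : Rl) (N : ℕ), (∀ n, N ≤ n → z n = z' n) → z ∈ E → z' ∈ E) (y : Rl) :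
    ∃ z ∈ E, xr z y ∈ E := by
  obtain ⟨s, hs⟩ := dens hE h0
  obtain ⟨y', hy'⟩ : ∃ y' : Rl, ∀ n, y' n = if n < s.length then false else y n :=
    ⟨fun n => if n < s.length then false else y n, fun _ => rfl⟩
  have hT : MeasurePreserving (fun z => xr z y') coin coin := coin_xr y'
  obtain ⟨A, hA⟩ : ∃ A : Set Rl, A = E ∩ {z | bpre z s.length = s} := ⟨_, rfl⟩
  rw [← hA] at hs
  have hAm : NullMeasurableSet A coin := by
    rw [hA]
    exact hE.inter (meas_cyl s).nullMeasurableSet
  have hb : ∀ z : Rl, bpre (xr z y') s.length = bpre z s.length := by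
    intro z
    unfold bpre
    congr 1
    funext j
    show xor (z j) (y' j) = z j
    rw [hy', if_pos j.isLt, Bool.xor_false]
  have hsub : A ∪ (fun z => xr z y') ⁻¹' A ⊆ {z | bpre z s.length = s} := by
    rintro z (hz | hz)
    · rw [hA] at hz
      exact hz.2
    · rw [Set.mem_preimage, hA] at hz
      have h1 : bpre (xr z y') s.length = s := hz.2
      rw [hb] at h1
      exact h1
  have hpre : coin ((fun z => xr z y') ⁻¹' A) = coin A := hT.measure_preimage hAm
  have hne : (A ∩ (fun z => xr z y') ⁻¹' A).Nonempty := by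
    by_contra hcon
    rw [Set.not_nonempty_iff_eq_empty] at hcon
    have hd : Disjoint A ((fun z => xr z y') ⁻¹' A) := Set.disjoint_iff_inter_eq_empty.2 hcon
    have hT2 : NullMeasurableSet ((fun z => xr z y') ⁻¹' A) coin :=
      hAm.preimage hT.quasiMeasurePreserving
    have h1 : coin (A ∪ (fun z => xr z y') ⁻¹' A) = coin A + coin A := by
      rw [measure_union₀ hT2 hd.aedisjoint, hpre]
    have h2 : coin A + coin A ≤ (2⁻¹ : ENNReal) ^ s.length := by
      rw [← h1, ← coin_cyl s]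
      exact measure_mono hsub
    have h3 := ENNReal.add_lt_add hs hs
    have h4 : (1 : ENNReal) ≤ 3 / 4 + 3 / 4 := by
      rw [← ENNReal.add_div, ENNReal.le_div_iff_mul_le (Or.inl (by norm_num))
        (Or.inl (by norm_num))]
      norm_num
    have h5 : (2⁻¹ : ENNReal) ^ s.length ≤
        3 / 4 * (2⁻¹ : ENNReal) ^ s.length + 3 / 4 * (2⁻¹ : ENNReal) ^ s.length := by
      rw [← add_mul]
      calc (2⁻¹ : ENNReal) ^ s.length = 1 * (2⁻¹ : ENNReal) ^ s.length := (one_mul _).symm
        _ ≤ (3 / 4 + 3 / 4) * (2⁻¹ : ENNReal) ^ s.length := mul_le_mul_left h4 _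
    exact absurd (h3.trans_le h2) (not_lt.2 h5)
  obtain ⟨z, hz1, hz2⟩ := hne
  rw [hA] at hz1
  rw [Set.mem_preimage, hA] at hz2
  refine ⟨z, hz1.1, hfin (xr z y') (xr z y) s.length (fun n hn => ?_) hz2.1⟩
  show xor (z n) (y' n) = xor (z n) (y n)
  rw [hy', if_neg (not_lt.2 hn)]

end Pool.Agent.TJ
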