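import Pool.Agent.H.MP_8387fc_lc.TJ.Hom
import Pool.Agent.H.MP_8387fc_lc.TJ.Zo

/-!
# Module HomC: a value of positive measure

`E = {z | Le (f (jn b z)) d}` is null measurable, since `{x | Le x d}` is countable. By `zo` there are
`z` and `xr z y` in `E`, for every `y ≥ b`; `y ≤ jn (jn b z) (jn b (xr z y))` and `hJ`, `hom_mono` imply
`f y ≤ d`. The values `f y`, `y ≥ b`, form a countable set; choose preimages `y i` of all of them and
let `c = js y`: above `c` the values `f x` are equivalent to `f c`.
-/

set_option autoImplicit false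

namespace Pool.Agent.TJ

open MeasureTheory Pool.Agent.H.MP_ad67df_lc

variable {f : Rl → Rl} {b : Rl}

private theorem HomC_meas (b : Rl) : Measurable fun z : Rl => jn b z := by
  refine measurable_pi_iff.2 fun n => ?_
  unfold jn
  by_cases h : n % 2 = 0
  · simp only [if_pos h]
    exact measurable_const
  · simp only [if_neg h]
    exact measurable_pi_apply _

private theorem HomC_xr (z y : Rl) : xr (xr z y) z = y := by
  funext n
  unfold xr
  cases z n <;> cases y n <;> rfl

/-- If some value has positive measure, then the function is constant on a cone. -/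
theorem hom_const (hf : UM f) (hTI : ∀ x y, Le b x → Eqv x y → Eqv (f x) (f y))
    (hJ : ∀ x y, Le b x → Le b y → Eqv (f (jn x y)) (jn (f x) (f y))) {d : Rl}
    (hd : coin {z | f (jn b z) = d} ≠ 0) : ∃ c d', ∀ x, Le c x → Eqv (f x) d' := by
  have hae : AEMeasurable (fun z : Rl => f (jn b z)) coin := by
    have h1 : AEMeasurable f (coin.map fun z => jn b z) := by
      refine hf _ ?_
      have := Measure.isProbabilityMeasure_map (HomC_meas b).aemeasurable (μ := coin)
      infer_instance
    exact h1.comp_measurable (HomC_meas b)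
  obtain ⟨E, hE⟩ : ∃ E : Set Rl, E = {z | Le (f (jn b z)) d} := ⟨_, rfl⟩
  have hEm : NullMeasurableSet E coin := by
    rw [hE]
    exact hae.nullMeasurable (countable_le d).measurableSet
  have hE0 : coin E ≠ 0 := by
    intro h
    refine hd (measure_mono_null (fun z hz => ?_) h)
    have hz' : f (jn b z) = d := hz
    rw [hE]
    show Le (f (jn b z)) d
    rw [hz']
    exact Le.refl d
  have hfin : ∀ (z z' : Rl) (N : ℕ), (∀ n, N ≤ n → z n = z' n) → z ∈ E → z' ∈ E := by
    intro z z' N h hz
    rw [hE] at hz ⊢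
    have h1 : Eqv (jn b z) (jn b z') :=
      ⟨jn_lub (jn_l b z') ((le_of_ev N h).trans (jn_r b z')),
        jn_lub (jn_l b z) ((le_of_ev N fun n hn => (h n hn).symm).trans (jn_r b z))⟩
    exact (hTI _ _ (jn_l b z) h1).2.trans hz
  have hle : ∀ y, Le b y → Le (f y) d := by
    intro y hy
    obtain ⟨z, hz, hz'⟩ := zo hEm hE0 hfin y
    rw [hE] at hz hz'
    have h1 : Le y (jn (jn b z) (jn b (xr z y))) := by
      have h2 := xr_le (xr z y) z
      rw [HomC_xr] at h2
      refine h2.trans (jn_lub ?_ ?_)
      · exact (jn_r b (xr z y)).trans (jn_r _ _)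
      · exact (jn_r b z).trans (jn_l _ _)
    have h3 := hom_mono hTI hJ hy h1
    have h4 := (hJ (jn b z) (jn b (xr z y)) (jn_l _ _) (jn_l _ _)).1
    exact h3.trans (h4.trans (jn_lub hz hz'))
  have hV : (f '' {y | Le b y}).Countable := by
    refine (countable_le d).mono ?_
    rintro _ ⟨y, hy, rfl⟩
    exact hle y hy
  obtain ⟨e, he⟩ := hV.exists_eq_range ⟨f b, b, Le.refl b, rfl⟩
  have hex : ∀ i, ∃ y, Le b y ∧ f y = e i := by
    intro i
    have h1 : e i ∈ f '' {y | Le b y} := by
      rw [he]
      exact Set.mem_range_self i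
    exact h1
  choose y hy1 hy2 using hex
  have hbc : Le b (js y) := (hy1 0).trans (js_ge y 0)
  refine ⟨js y, f (js y), fun x hx => ⟨?_, hom_mono hTI hJ hbc hx⟩⟩
  have h1 : f x ∈ Set.range e := by
    rw [← he]
    exact ⟨x, hbc.trans hx, rfl⟩
  obtain ⟨i, hi⟩ := h1
  rw [← hi, ← hy2 i]
  exact hom_mono hTI hJ (hy1 i) (js_ge y i)

end Pool.Agent.TJ
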