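import Pool.Agent.H.MP_8387fc_lc.TJ.MonoInc
import Pool.Agent.H.MP_8387fc_lc.TJ.Zo

/-!
# Module Hull: functions whose hulls are closed under joins
-/

set_option autoImplicit false

namespace Pool.Agent.TJ

open MeasureTheory Pool.Agent.H.MP_ad67df_lc

/-- Above `b` the hulls `{x | f x ≤_T f y}` are closed under joins. -/
def ClosedHulls (f : Rl → Rl) (b : Rl) : Prop :=
  ∀ x₁ x₂ y, Le b x₁ → Le b x₂ → Le b y → Le (f x₁) (f y) → Le (f x₂) (f y) →
    Le (f (jn x₁ x₂)) (f y)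

/-- A bounded order preserving function is constant on a cone. -/
theorem const_of_bounded {f : Rl → Rl} {b d : Rl} (hM : ∀ x y, Le b x → Le x y → Le (f x) (f y))
    (hd : ∀ y, Le b y → Le (f y) d) : ∃ c d', ∀ x, Le c x → Eqv (f x) d' := by
  have hV : (f '' {y | Le b y}).Countable := by
    refine (countable_le d).mono ?_
    rintro _ ⟨y, hy, rfl⟩
    exact hd y hy
  obtain ⟨g, hg⟩ := hV.exists_eq_range ⟨f b, b, Le.refl b, rfl⟩
  have h1 : ∀ n, ∃ y, Le b y ∧ f y = g n := by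
    intro n
    have h2 : g n ∈ f '' {y | Le b y} := by
      rw [hg]
      exact ⟨n, rfl⟩
    obtain ⟨y, hy, hy'⟩ := h2
    exact ⟨y, hy, hy'⟩
  choose y hy hy' using h1
  refine ⟨js y, f (js y), fun x hx => ?_⟩
  have hbj : Le b (js y) := (hy 0).trans (js_ge y 0)
  have hbx : Le b x := hbj.trans hx
  refine ⟨?_, hM _ _ hbj hx⟩
  have h3 : f x ∈ f '' {y | Le b y} := ⟨x, hbx, rfl⟩
  rw [hg] at h3
  obtain ⟨n, hn⟩ := h3
  rw [← hn, ← hy' n]
  exact hM _ _ (hy n) (js_ge y n)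

/-- An order preserving function with closed hulls and a value of positive measure is constant on a
cone. -/
theorem hull_const {f : Rl → Rl} {b d : Rl} (hf : UM f)
    (hM : ∀ x y, Le b x → Le x y → Le (f x) (f y)) (hC : ClosedHulls f b)
    (hd : coin {z | f (jn b z) = d} ≠ 0) : ∃ c d', ∀ x, Le c x → Eqv (f x) d' := by
  have hae : AEMeasurable (fun z : Rl => f (jn b z)) coin := by
    have h1 : AEMeasurable f (coin.map fun z => jn b z) := hf _ inferInstance
    exact h1.comp_measurable (meas_jn b)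
  obtain ⟨E, hE⟩ : ∃ E : Set Rl, E = {z | Eqv (f (jn b z)) d} := ⟨_, rfl⟩
  have hEm : NullMeasurableSet E coin := by
    rw [hE]
    exact hae.nullMeasurable (s := {x | Eqv x d})
      ((countable_le d).mono fun x (hx : Eqv x d) => hx.1).measurableSet
  have hE0 : coin E ≠ 0 := by
    intro h
    refine hd (measure_mono_null (fun z hz => ?_) h)
    have hz' : f (jn b z) = d := hz
    rw [hE]
    show Eqv (f (jn b z)) d
    rw [hz']
    exact ⟨Le.refl d, Le.refl d⟩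
  have hfin : ∀ (z z' : Rl) (N : ℕ), (∀ n, N ≤ n → z n = z' n) → z ∈ E → z' ∈ E := by
    intro z z' N h hz
    rw [hE] at hz ⊢
    have h1 : Eqv (jn b z) (jn b z') :=
      ⟨jn_lub (jn_l b z') ((le_of_ev N h).trans (jn_r b z')),
        jn_lub (jn_l b z) ((le_of_ev N fun n hn => (h n hn).symm).trans (jn_r b z))⟩
    exact ⟨(hM _ _ (jn_l b z') h1.2).trans hz.1, hz.2.trans (hM _ _ (jn_l b z) h1.1)⟩
  refine const_of_bounded hM (d := d) fun y hy => ?_
  obtain ⟨z, hz, hz'⟩ := zo hEm hE0 hfin y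
  rw [hE] at hz hz'
  have e : y = xr z (xr z y) := by
    funext n
    unfold xr
    cases z n <;> cases y n <;> rfl
  have h1 : Le y (jn (jn b z) (jn b (xr z y))) := by
    have h2 : Le (xr z (xr z y)) (jn (jn b z) (jn b (xr z y))) :=
      (xr_le z (xr z y)).trans (jn_lub ((jn_r _ _).trans (jn_l _ _))
        ((jn_r _ _).trans (jn_r _ _)))
    rw [← e] at h2
    exact h2
  have h3 := hC (jn b z) (jn b (xr z y)) (jn b z) (jn_l _ _) (jn_l _ _) (jn_l _ _) (Le.refl _)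
    (hz'.1.trans hz.2)
  exact (hM _ _ hy h1).trans (h3.trans hz.1)

theorem partH {f : Rl → Rl} {b : Rl} (hf : UM f)
    (hTI : ∀ x y, Le b x → Eqv x y → Eqv (f x) (f y)) (hC : ClosedHulls f b)
    (h : (∀ x, Le b x → Le x (f x)) ∨ ∀ x y, Le b x → Le x y → Le (f x) (f y)) :
    (∃ c d, ∀ x, Le c x → Eqv (f x) d) ∨
      ∃ c, ∀ x, Le c x → Le x (f x) ∧ Eqv (f (f x)) (f x) := by
  have h1 : (∃ c d, ∀ x, Le c x → Eqv (f x) d) ∨ ∃ c, Le b c ∧ ∀ x, Le c x → Le x (f x) := by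
    rcases h with h | h
    · exact Or.inr ⟨b, Le.refl b, h⟩
    · by_cases hd : ∃ d, coin {z | f (jn b z) = d} ≠ 0
      · obtain ⟨d, hd⟩ := hd
        exact Or.inl (hull_const hf h hC hd)
      · push Not at hd
        exact Or.inr (mono_inc hf h hd)
  rcases h1 with h1 | ⟨c', hb, hI⟩
  · exact Or.inl h1
  · right
    obtain ⟨c, hc⟩ := low_join hf b
    refine ⟨jn c' c, fun x hx => ?_⟩
    have h2 : Le c' x := (jn_l _ _).trans hx
    have h3 : Le x (f x) := hI x h2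
    obtain ⟨u₁, u₂, k1, k2, k3, k4, k5, k6, k7⟩ := hc (f x) (((jn_r _ _).trans hx).trans h3)
    have hbx : Le b x := hb.trans h2
    have h4 : Eqv (f (f x)) (f (jn u₁ u₂)) :=
      hTI _ _ (hbx.trans h3) ⟨k7, jn_lub k5 k6⟩
    exact ⟨h3, h4.1.trans (hC u₁ u₂ x k1 k2 hbx k3 k4), hI (f x) (h2.trans h3)⟩

/-- Subadditive functions are regressive on a cone. -/
theorem sub_reg {f : Rl → Rl} {b : Rl} (hf : UM f)
    (hTI : ∀ x y, Le b x → Eqv x y → Eqv (f x) (f y))
    (hS : ∀ x y, Le b x → Le b y → Le (f (jn x y)) (jn (f x) (f y))) :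
    ∃ c, ∀ x, Le c x → Le (f x) x := by
  obtain ⟨c, hc⟩ := low_join hf b
  refine ⟨jn b c, fun x hx => ?_⟩
  obtain ⟨u₁, u₂, k1, k2, k3, k4, k5, k6, k7⟩ := hc x ((jn_r _ _).trans hx)
  exact ((hTI _ _ ((jn_l _ _).trans hx) ⟨k7, jn_lub k5 k6⟩).1.trans (hS u₁ u₂ k1 k2)).trans
    (jn_lub k3 k4)

end Pool.Agent.TJ
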