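import Pool.Agent.H.MP_8387fc_lc.TJ.RefW
import Pool.Agent.H.MP_8387fc_lc.TJ.Hull

/-!
# Module HullW: weakly order preserving functions whose hulls are closed under joins
-/

set_option autoImplicit false

namespace Pool.Agent.TJ

open MeasureTheory Pool.Agent.H.MP_ad67df_lc

/-- A weakly order preserving function with closed hulls and a value of positive measure is constant
on a cone. -/
theorem hull_constW {f g : Rl → Rl} {b d : Rl} (hf : UM f)
    (hTI : ∀ x y, Le b x → Eqv x y → Eqv (f x) (f y)) (hM : Follows f g b)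
    (hC : ClosedHulls f b) (hd : coin {z | f (jn b z) = d} ≠ 0) :
    ∃ c d', ∀ x, Le c x → Eqv (f x) d' := by
  have hae : AEMeasurable (fun z : Rl => f (jn b z)) coin := by
    have h1 : AEMeasurable f (coin.map fun z => jn b z) := hf _ inferInstance
    exact h1.comp_measurable (meas_jn b)
  obtain ⟨E, hE⟩ : ∃ E : Set Rl, E = {z | Eqv (f (jn b z)) d} := ⟨_, rfl⟩
  have hEm : NullMeasurableSet E coin := by
    rw [hE]
    exact hae.nullMeasurable (s := {x | Eqv x d})
      ((countable_le d).mono fun x (hx : Eqv x d) => hx.1).measurableSet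
  have hE0 : coin E ≠ 0 := by
    intro h
    refine hd (measure_mono_null (fun z hz => ?_) h)
    have hz' : f (jn b z) = d := hz
    rw [hE]
    show Eqv (f (jn b z)) d
    rw [hz']
    exact ⟨Le.refl d, Le.refl d⟩
  have hfin : ∀ (z z' : Rl) (N : ℕ), (∀ n, N ≤ n → z n = z' n) → z ∈ E → z' ∈ E := by
    intro z z' N h hz
    rw [hE] at hz ⊢
    have h1 : Eqv (jn b z) (jn b z') :=
      ⟨jn_lub (jn_l b z') ((le_of_ev N h).trans (jn_r b z')),
        jn_lub (jn_l b z) ((le_of_ev N fun n hn => (h n hn).symm).trans (jn_r b z))⟩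
    have h2 := hTI _ _ (jn_l b z) h1
    exact ⟨h2.2.trans hz.1, hz.2.trans h2.1⟩
  have hbd : ∀ y, Le b y → Le (f y) d := by
    intro y hy
    obtain ⟨w, hw⟩ : ∃ w, w = jn y (g y) := ⟨_, rfl⟩
    obtain ⟨z, hz, hz'⟩ := zo hEm hE0 hfin w
    rw [hE] at hz hz'
    have e : w = xr z (xr z w) := by
      funext n
      unfold xr
      cases z n <;> cases w n <;> rfl
    have h1 : Le w (jn (jn b z) (jn b (xr z w))) := by
      have h2 : Le (xr z (xr z w)) (jn (jn b z) (jn b (xr z w))) :=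
        (xr_le z (xr z w)).trans (jn_lub ((jn_r _ _).trans (jn_l _ _))
          ((jn_r _ _).trans (jn_r _ _)))
      rw [← e] at h2
      exact h2
    have h3 := hC (jn b z) (jn b (xr z w)) (jn b z) (jn_l _ _) (jn_l _ _) (jn_l _ _) (Le.refl _)
      (hz'.1.trans hz.2)
    have h4 : Le (g y) w := by
      rw [hw]
      exact jn_r _ _
    exact (hM _ _ hy ((jn_l b z).trans (jn_l _ _)) (h4.trans h1)).trans (h3.trans hz.1)
  refine constW hM ((countable_le d).mono ?_)
  rintro _ ⟨y, hy, rfl⟩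
  exact hbd y hy

theorem partHW {f g : Rl → Rl} {b : Rl} (hf : UM f) (hg : UM g)
    (hTI : ∀ x y, Le b x → Eqv x y → Eqv (f x) (f y)) (hM : Follows f g b)
    (hC : ClosedHulls f b) :
    (∃ c d, ∀ x, Le c x → Eqv (f x) d) ∨
      ∃ c, ∀ x, Le c x → Le x (f x) ∧ Eqv (f (f x)) (f x) := by
  by_cases hd : ∃ d, coin {z | f (jn b z) = d} ≠ 0
  · obtain ⟨d, hd⟩ := hd
    exact Or.inl (hull_constW hf hTI hM hC hd)
  · push Not at hd
    right
    obtain ⟨c', hb, hI⟩ := incW_coin hf hg hM hd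
    obtain ⟨c, hc⟩ := low_join hf b
    refine ⟨jn c' c, fun x hx => ?_⟩
    have h2 : Le c' x := (jn_l _ _).trans hx
    have h3 : Le x (f x) := hI x h2
    obtain ⟨u₁, u₂, k1, k2, k3, k4, k5, k6, k7⟩ := hc (f x) (((jn_r _ _).trans hx).trans h3)
    have hbx : Le b x := hb.trans h2
    have h4 : Eqv (f (f x)) (f (jn u₁ u₂)) :=
      hTI _ _ (hbx.trans h3) ⟨k7, jn_lub k5 k6⟩
    exact ⟨h3, h4.1.trans (hC u₁ u₂ x k1 k2 hbx k3 k4), hI (f x) (h2.trans h3)⟩

end Pool.Agent.TJ
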