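import Pool.Agent.H.MP_8387fc_lc.TJ.InfD

/-!
# Module InfA: locality of `XW`

The bit `t < J` of `XW b U u S m v z`: `t = pair i q`; if `i ∈ S m` and `q` is odd, it is `W U u v z i (q / 2)`, which depends
on `v n` and `z (pair i' n)` for `n = q / 2 < J` and `i' ≤ n` or `i' = i`, and `Nat.pair i' n < (J + 1) ^ 2`; if `q` is even it
is a bit of `b`.
-/

set_option autoImplicit false

namespace Pool.Agent.TJ

open MeasureTheory Pool.Agent.H.MP_ad67df_lc

private theorem InfA_iff {v w : Rl} {n : ℕ} : bpre v n = bpre w n ↔ ∀ i < n, v i = w i := by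
  constructor
  · intro h i hi
    have h1 := bpre_getElem? v hi
    rw [h, bpre_getElem? w hi] at h1
    exact (Option.some.inj h1).symm
  · intro h
    apply List.ext_getElem?
    intro i
    by_cases hi : i < n
    · rw [bpre_getElem? v hi, bpre_getElem? w hi, h i hi]
    · rw [List.getElem?_eq_none (by rw [bpre_length]; omega),
        List.getElem?_eq_none (by rw [bpre_length]; omega)]

private theorem InfA_pair {i n J : ℕ} (hi : i < J) (hn : n < J) : Nat.pair i n < (J + 1) ^ 2 := by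
  refine (Nat.pair_lt_max_add_one_sq i n).trans_le ?_
  exact Nat.pow_le_pow_left (by omega) 2

theorem XW_loc (b : Rl) (U : Set ℕ) (u : ℕ) (S : ℕ → Set ℕ) (m : ℕ) {v v' z z' : Rl} {J : ℕ}
    (hv : bpre v ((J + 1) ^ 2) = bpre v' ((J + 1) ^ 2))
    (hz : bpre z ((J + 1) ^ 2) = bpre z' ((J + 1) ^ 2)) :
    bpre (XW b U u S m v z) J = bpre (XW b U u S m v' z') J := by
  classical
  rw [InfA_iff] at hv hz ⊢
  intro t ht
  have hi : t.unpair.1 < J := lt_of_le_of_lt (Nat.unpair_left_le t) ht
  have hq : t.unpair.2 < J := lt_of_le_of_lt (Nat.unpair_right_le t) ht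
  have hn : t.unpair.2 / 2 < J := lt_of_le_of_lt (Nat.div_le_self _ _) hq
  have hJ : t.unpair.2 / 2 < (J + 1) ^ 2 := by
    have h1 : J + 1 ≤ (J + 1) ^ 2 := Nat.le_self_pow (by norm_num) _
    omega
  have hpar : par U u z (t.unpair.2 / 2) = par U u z' (t.unpair.2 / 2) := by
    unfold par
    have h1 : ((Finset.range (t.unpair.2 / 2 + 1)).filter fun i =>
        i ∈ U ∧ i ≠ u ∧ z (Nat.pair i (t.unpair.2 / 2)) = true) =
        ((Finset.range (t.unpair.2 / 2 + 1)).filter fun i =>
        i ∈ U ∧ i ≠ u ∧ z' (Nat.pair i (t.unpair.2 / 2)) = true) := by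
      apply Finset.filter_congr
      intro i hi'
      rw [Finset.mem_range] at hi'
      rw [hz _ (InfA_pair (show i < J by omega) hn)]
    rw [h1]
  have hW : W U u v z t.unpair.1 (t.unpair.2 / 2) = W U u v' z' t.unpair.1 (t.unpair.2 / 2) := by
    unfold W
    rw [hpar, hv _ hJ, hz _ (InfA_pair hi hn)]
  unfold XW sj jn
  beta_reduce
  rw [hW]

end Pool.Agent.TJ
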