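import Pool.Agent.H.MP_8387fc_lc.TJ.InfD
import Pool.Agent.H.MP_8387fc_lc.TJ.CoinC

/-!
# Module InfB: the sets `Cl`

The same lemmas are proved, as private lemmas for `BasA_D`, in `BasA.lean` (copy them; `BasA_le`, `BasA_mono`, `BasA_sub`,
`BasA_open`, `BasA_meas`, the limit in `cover`).
-/

set_option autoImplicit false

namespace Pool.Agent.TJ

open MeasureTheory Pool.Agent.H.MP_ad67df_lc

private theorem InfB_le {w z : Rl} {n n' : ℕ} (h : n ≤ n') (he : bpre w n' = bpre z n') :
    bpre w n = bpre z n := by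
  rw [← bpre_take w h, ← bpre_take z h, he]

theorem Cl_mono (G : Set Rl) : Monotone (Cl G) :=
  fun _ _ h _ hz w hw => hz w (InfB_le h hw)

theorem Cl_sub (G : Set Rl) (n : ℕ) : Cl G n ⊆ G := fun z hz => hz z rfl

theorem Cl_open {G : Set Rl} (hG : IsOpen G) {z : Rl} (hz : z ∈ G) : ∃ n, z ∈ Cl G n := by
  obtain ⟨I, u, hu, hI⟩ := isOpen_pi_iff.1 hG z hz
  refine ⟨I.sup id + 1, fun w hw => hI ?_⟩
  intro i hi
  have h1 : i < I.sup id + 1 := by
    have h2 : id i ≤ I.sup id := Finset.le_sup (Finset.mem_coe.1 hi)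
    simp only [id] at h2
    omega
  have h3 := bpre_getElem? w h1
  rw [hw, bpre_getElem? z h1] at h3
  have h4 : z i = w i := Option.some.inj h3
  rw [← h4]
  exact (hu i (Finset.mem_coe.1 hi)).2

theorem Cl_meas (G : Set Rl) (n : ℕ) : MeasurableSet (Cl G n) := by
  have h : Cl G n = ⋃ s ∈ {s : List Bool | s.length = n ∧ ∀ w, bpre w n = s → w ∈ G},
      {z : Rl | bpre z s.length = s} := by
    ext z
    rw [Set.mem_iUnion₂]
    constructor
    · intro hz
      refine ⟨bpre z n, ⟨bpre_length z n, hz⟩, ?_⟩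
      show bpre z (bpre z n).length = bpre z n
      rw [bpre_length]
    · rintro ⟨s, ⟨hs1, hs2⟩, hs3⟩
      have h1 : bpre z s.length = s := hs3
      rw [hs1] at h1
      intro w hw
      exact hs2 w (hw.trans h1)
  rw [h]
  exact MeasurableSet.biUnion (Set.to_countable _) fun s _ => meas_cyl s

theorem Cl_isOpen (G : Set Rl) (n : ℕ) : IsOpen (Cl G n) := by
  rw [isOpen_iff_forall_mem_open]
  intro z hz
  refine ⟨⋂ i ∈ Finset.range n, (fun w : Rl => w i) ⁻¹' {z i}, ?_, ?_, ?_⟩
  · intro w hw v hv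
    refine hz v (hv.trans ?_)
    apply List.ext_getElem?
    intro i
    by_cases hi : i < n
    · rw [bpre_getElem? _ hi, bpre_getElem? _ hi]
      have h1 := Set.mem_iInter₂.1 hw i (Finset.mem_range.2 hi)
      have h2 : w i = z i := h1
      rw [h2]
    · rw [List.getElem?_eq_none (by rw [bpre_length]; omega),
        List.getElem?_eq_none (by rw [bpre_length]; omega)]
  · exact isOpen_biInter_finset fun i _ =>
      (isOpen_discrete ({z i} : Set Bool)).preimage (continuous_apply i)
  · exact Set.mem_iInter₂.2 fun i _ => rfl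

/-- For finitely many open sets and finite measures. -/
theorem Cl_small {G : ℕ → Set Rl} (hG : ∀ k, IsOpen (G k)) {ν : ℕ → Measure Rl}
    (hν : ∀ k, IsFiniteMeasure (ν k)) (p : ℕ) {ε : ENNReal} (hε : 0 < ε) :
    ∃ J, ∀ k < p, ν k (G k \ Cl (G k) J) ≤ ε := by
  have key : ∀ k, ∃ n, ν k (G k \ Cl (G k) n) ≤ ε := by
    intro k
    have := hν k
    have h1 := tendsto_measure_iInter_atTop (μ := ν k) (s := fun n => G k \ Cl (G k) n)
      (fun n => ((hG k).measurableSet.diff (Cl_meas (G k) n)).nullMeasurableSet)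
      (fun n n' h => Set.sdiff_subset_sdiff_right (Cl_mono (G k) h)) ⟨0, measure_ne_top _ _⟩
    have h2 : ⋂ n, (G k \ Cl (G k) n) = ∅ := by
      rw [Set.eq_empty_iff_forall_notMem]
      intro z hz
      rw [Set.mem_iInter] at hz
      obtain ⟨n, hn⟩ := Cl_open (hG k) (hz 0).1
      exact (hz n).2 hn
    rw [h2, measure_empty] at h1
    obtain ⟨n, hn⟩ := (h1.eventually_lt_const hε).exists
    exact ⟨n, hn.le⟩
  choose m hm using key
  refine ⟨(Finset.range p).sup m, fun k hk => ?_⟩
  have h1 : m k ≤ (Finset.range p).sup m := Finset.le_sup (Finset.mem_range.2 hk)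
  exact (measure_mono (Set.sdiff_subset_sdiff_right (Cl_mono (G k) h1))).trans (hm k)

end Pool.Agent.TJ
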