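import Pool.Agent.H.MP_8387fc_lc.TJ.Avoid
import Pool.Agent.H.MP_8387fc_lc.TJ.InfA
import Pool.Agent.H.MP_8387fc_lc.TJ.InfB

/-!
# Module InfC: avoiding open sets by `XW`

Apply `avoid` to `O v = {z | ∃ k, XW b U u S k.unpair.1 v z ∈ G k}` and
`D p v = {z | ∃ k < p, XW b U u S k.unpair.1 v z ∈ Cl (G k) (J p)}`, `M p = (J p + 1) ^ 2`, where `J p` is from `Cl_small` for
the measures `ν k.unpair.1` and `ε = (2⁻¹) ^ (2 * p + 4)`, so `p * ε ≤ (2⁻¹) ^ (p + 3)`. By `hlaw` the measure of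
`{z | XW .. v z ∈ G k}` is at most `ν k.unpair.1 (G k) ≤ (2⁻¹) ^ (k + 4)`; the sum over all `k` is `1 / 8`, over `k ≥ p` it is
`(2⁻¹) ^ (p + 3)`. `O v` is open and `D p v` is measurable and depends only on `bpre v (M p)`, by `XW_loc` and the lemmas on
`Cl` (`G k` is the union of the sets `Cl (G k) n`, and `{z | XW .. v z ∈ Cl (G k) n}` contains with `z` all `z'` with
`bpre z' ((n + 1) ^ 2) = bpre z ((n + 1) ^ 2)`).
-/

set_option autoImplicit false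

namespace Pool.Agent.TJ

open MeasureTheory Pool.Agent.H.MP_ad67df_lc

private theorem InfC_sum (c : ℕ) :
    ∑' k : ℕ, (2⁻¹ : ENNReal) ^ (k + c + 1) = (2⁻¹ : ENNReal) ^ c := by
  have h1 : ∀ k : ℕ, (2⁻¹ : ENNReal) ^ (k + c + 1) = (2⁻¹ : ENNReal) ^ (c + 1) * (2⁻¹) ^ k := by
    intro k
    rw [← pow_add]
    congr 1
    omega
  simp_rw [h1]
  rw [ENNReal.tsum_mul_left, ENNReal.tsum_geometric, ENNReal.one_sub_inv_two, inv_inv, pow_succ,
    mul_assoc, ENNReal.inv_mul_cancel (by norm_num) (by norm_num), mul_one]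

private theorem InfC_mem {b : Rl} {U : Set ℕ} {u : ℕ} {S : ℕ → Set ℕ} {G : Set Rl} {m J : ℕ}
    {v v' z z' : Rl} (hv : bpre v ((J + 1) ^ 2) = bpre v' ((J + 1) ^ 2))
    (hz : bpre z ((J + 1) ^ 2) = bpre z' ((J + 1) ^ 2)) (h : XW b U u S m v z ∈ Cl G J) :
    XW b U u S m v' z' ∈ Cl G J := by
  intro w hw
  exact h w (hw.trans (XW_loc b U u S m hv hz).symm)

private theorem InfC_law {b : Rl} {U : Set ℕ} {u : ℕ} {S : ℕ → Set ℕ} {ν : ℕ → Measure Rl}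
    (hlaw : ∀ m v, coin.map (XW b U u S m v) ≤ ν m) (m : ℕ) (v : Rl) {A : Set Rl}
    (hA : MeasurableSet A) : coin {z | XW b U u S m v z ∈ A} ≤ ν m A := by
  have h1 : Measurable (XW b U u S m v) := meas_W b U u v (S m)
  have h2 := hlaw m v A
  rw [Measure.map_apply h1 hA] at h2
  exact h2

theorem inf_avoid (b : Rl) (U : Set ℕ) (u : ℕ) (S : ℕ → Set ℕ) {ν : ℕ → Measure Rl}
    (hν : ∀ m, IsFiniteMeasure (ν m)) (hlaw : ∀ m v, coin.map (XW b U u S m v) ≤ ν m)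
    {G : ℕ → Set Rl} (hG : ∀ k, IsOpen (G k))
    (hνG : ∀ k : ℕ, ν k.unpair.1 (G k) ≤ (2⁻¹ : ENNReal) ^ (k + 4)) :
    ∃ c : Rl, ∀ v : Rl, ∃ z : Rl, Le z (jn v c) ∧ ∀ k : ℕ, XW b U u S k.unpair.1 v z ∉ G k := by
  have hJ : ∀ p : ℕ, ∃ J, ∀ k < p, ν k.unpair.1 (G k \ Cl (G k) J) ≤
      (2⁻¹ : ENNReal) ^ (2 * p + 4) := fun p =>
    Cl_small hG (ν := fun k => ν k.unpair.1) (fun k => hν _) p
      (pos_iff_ne_zero.2 (pow_ne_zero _ (by simp)))
  choose J hJ using hJ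
  have hone : ∀ k v, coin {z | XW b U u S k.unpair.1 v z ∈ G k} ≤ (2⁻¹ : ENNReal) ^ (k + 4) :=
    fun k v => (InfC_law hlaw _ v (hG k).measurableSet).trans (hνG k)
  suffices hmain : ∃ c : Rl, ∀ v : Rl, ∃ z : Rl, Le z (jn v c) ∧
      z ∉ {z | ∃ k : ℕ, XW b U u S k.unpair.1 v z ∈ G k} by
    obtain ⟨c, hc⟩ := hmain
    refine ⟨c, fun v => ?_⟩
    obtain ⟨z, hz1, hz2⟩ := hc v
    exact ⟨z, hz1, fun k hk => hz2 ⟨k, hk⟩⟩
  refine avoid (O := fun v => {z | ∃ k : ℕ, XW b U u S k.unpair.1 v z ∈ G k})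
    (D := fun p v => {z | ∃ k < p, XW b U u S k.unpair.1 v z ∈ Cl (G k) (J p)})
    (M := fun p => (J p + 1) ^ 2) ?_ ?_ ?_ ?_ ?_ ?_
  · -- open
    intro v
    rw [isOpen_iff_forall_mem_open]
    rintro z ⟨k, hk⟩
    obtain ⟨n, hn⟩ := Cl_open (hG k) hk
    refine ⟨Cl {z | ∃ k : ℕ, XW b U u S k.unpair.1 v z ∈ G k} ((n + 1) ^ 2), Cl_sub _ _,
      Cl_isOpen _ _, ?_⟩
    intro w hw
    exact ⟨k, Cl_sub _ _ (InfC_mem rfl hw.symm hn)⟩
  · -- the measure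
    intro v
    have hsub : {z | ∃ k : ℕ, XW b U u S k.unpair.1 v z ∈ G k} ⊆
        ⋃ k : ℕ, {z | XW b U u S k.unpair.1 v z ∈ G k} := by
      rintro z ⟨k, hk⟩
      exact Set.mem_iUnion.2 ⟨k, hk⟩
    calc coin {z | ∃ k : ℕ, XW b U u S k.unpair.1 v z ∈ G k}
        ≤ ∑' k : ℕ, coin {z | XW b U u S k.unpair.1 v z ∈ G k} :=
          (measure_mono hsub).trans (measure_iUnion_le _)
      _ ≤ ∑' k : ℕ, (2⁻¹ : ENNReal) ^ (k + 3 + 1) := ENNReal.tsum_le_tsum fun k => hone k v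
      _ = (2⁻¹ : ENNReal) ^ 3 := InfC_sum 3
      _ < 1 := pow_lt_one₀ (by simp) ENNReal.one_half_lt_one (by norm_num)
  · rintro p v z ⟨k, -, hk⟩
    exact ⟨k, Cl_sub _ _ hk⟩
  · intro p v
    have h1 : {z | ∃ k < p, XW b U u S k.unpair.1 v z ∈ Cl (G k) (J p)} =
        ⋃ k ∈ Set.Iio p, XW b U u S k.unpair.1 v ⁻¹' Cl (G k) (J p) := by
      ext z
      simp
    show MeasurableSet {z | ∃ k < p, XW b U u S k.unpair.1 v z ∈ Cl (G k) (J p)}
    rw [h1]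
    refine MeasurableSet.biUnion (Set.to_countable _) fun k _ => ?_
    exact (meas_W b U u v (S k.unpair.1)) (Cl_meas _ _)
  · intro p v
    have hsub : {z | ∃ k : ℕ, XW b U u S k.unpair.1 v z ∈ G k} \
        {z | ∃ k < p, XW b U u S k.unpair.1 v z ∈ Cl (G k) (J p)} ⊆
        (⋃ k ∈ Finset.range p, {z | XW b U u S k.unpair.1 v z ∈ G k \ Cl (G k) (J p)}) ∪
          ⋃ k : ℕ, {z | XW b U u S (k + p).unpair.1 v z ∈ G (k + p)} := by
      rintro z ⟨⟨k, hk⟩, hz⟩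
      rcases Nat.lt_or_ge k p with h | h
      · refine Or.inl (Set.mem_iUnion₂.2 ⟨k, Finset.mem_range.2 h, hk, fun h2 => hz ⟨k, h, h2⟩⟩)
      · refine Or.inr (Set.mem_iUnion.2 ⟨k - p, ?_⟩)
        show XW b U u S (k - p + p).unpair.1 v z ∈ G (k - p + p)
        rw [Nat.sub_add_cancel h]
        exact hk
    have hε : (p : ENNReal) * (2⁻¹ : ENNReal) ^ (2 * p + 4) ≤ (2⁻¹ : ENNReal) ^ (p + 3) := by
      have h1 : (p : ENNReal) ≤ 2 ^ p := by
        have h2 : p ≤ 2 ^ p := Nat.lt_two_pow_self.le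
        exact_mod_cast h2
      calc (p : ENNReal) * (2⁻¹ : ENNReal) ^ (2 * p + 4)
          ≤ 2 ^ p * (2⁻¹ : ENNReal) ^ (2 * p + 4) := mul_le_mul_left h1 _
        _ = (2 * 2⁻¹) ^ p * (2⁻¹ : ENNReal) ^ (p + 4) := by
            rw [mul_pow, mul_assoc, ← pow_add]
            congr 2
            omega
        _ = (2⁻¹ : ENNReal) ^ (p + 4) := by
            rw [ENNReal.mul_inv_cancel (by norm_num) (by norm_num), one_pow, one_mul]
        _ ≤ (2⁻¹ : ENNReal) ^ (p + 3) := pow_le_pow_of_le_one (by simp) (by simp) (by omega)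
    have h1 : coin (⋃ k ∈ Finset.range p,
        {z | XW b U u S k.unpair.1 v z ∈ G k \ Cl (G k) (J p)}) ≤ (2⁻¹ : ENNReal) ^ (p + 3) := by
      refine (measure_biUnion_finset_le _ _).trans ?_
      calc ∑ k ∈ Finset.range p, coin {z | XW b U u S k.unpair.1 v z ∈ G k \ Cl (G k) (J p)}
          ≤ ∑ k ∈ Finset.range p, (2⁻¹ : ENNReal) ^ (2 * p + 4) := by
            refine Finset.sum_le_sum fun k hk => ?_
            exact (InfC_law hlaw _ v ((hG k).measurableSet.diff (Cl_meas _ _))).trans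
              (hJ p k (Finset.mem_range.1 hk))
        _ = (p : ENNReal) * (2⁻¹ : ENNReal) ^ (2 * p + 4) := by
            rw [Finset.sum_const, Finset.card_range, nsmul_eq_mul]
        _ ≤ _ := hε
    have h2 : coin (⋃ k : ℕ, {z | XW b U u S (k + p).unpair.1 v z ∈ G (k + p)}) ≤
        (2⁻¹ : ENNReal) ^ (p + 3) := by
      calc coin (⋃ k : ℕ, {z | XW b U u S (k + p).unpair.1 v z ∈ G (k + p)})
          ≤ ∑' k : ℕ, coin {z | XW b U u S (k + p).unpair.1 v z ∈ G (k + p)} :=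
            measure_iUnion_le _
        _ ≤ ∑' k : ℕ, (2⁻¹ : ENNReal) ^ (k + (p + 3) + 1) :=
            ENNReal.tsum_le_tsum fun k => (hone (k + p) v).trans_eq (by congr 1)
        _ = (2⁻¹ : ENNReal) ^ (p + 3) := InfC_sum (p + 3)
    calc coin ({z | ∃ k : ℕ, XW b U u S k.unpair.1 v z ∈ G k} \
        {z | ∃ k < p, XW b U u S k.unpair.1 v z ∈ Cl (G k) (J p)})
        ≤ _ := (measure_mono hsub).trans (measure_union_le _ _)
      _ ≤ (2⁻¹ : ENNReal) ^ (p + 3) + (2⁻¹ : ENNReal) ^ (p + 3) := add_le_add h1 h2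
      _ = (2⁻¹ : ENNReal) ^ (p + 2) := by
          rw [← mul_two, pow_succ, mul_assoc, ENNReal.inv_mul_cancel (by norm_num) (by norm_num),
            mul_one]
  · intro p v v' hvv
    ext z
    constructor
    · rintro ⟨k, hk, h⟩
      exact ⟨k, hk, InfC_mem hvv rfl h⟩
    · rintro ⟨k, hk, h⟩
      exact ⟨k, hk, InfC_mem hvv.symm rfl h⟩

end Pool.Agent.TJ
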