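import Pool.Agent.H.MP_8387fc_lc.TJ.Enc

/-!
# Module InfD: definitions for infinite joins
-/

set_option autoImplicit false

namespace Pool.Agent.TJ

open MeasureTheory Pool.Agent.H.MP_ad67df_lc

/-- The join over the set `S m` of the reals `jn b (W i)`, with the hidden real `v`. -/
noncomputable def XW (b : Rl) (U : Set ℕ) (u : ℕ) (S : ℕ → Set ℕ) (m : ℕ) (v z : Rl) : Rl :=
  sj (S m) fun i => jn b (W U u v z i)

/-- The union of the cylinders of length `n` which are contained in `G`. -/
def Cl (G : Set Rl) (n : ℕ) : Set Rl := {z | ∀ w, bpre w n = bpre z n → w ∈ G}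

end Pool.Agent.TJ
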