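import Pool.Agent.H.MP_8387fc_lc.TJ.Enc

/-!
# Module InfW: the join of the `W` is computable

The bit `pair i q` of the join: `0` if `i ∉ U`; if `q` is even, a bit of `b`; if `q` is odd and `n = q / 2`: `z (pair i n)` if
`i ≠ u`, and `xor (v n) (par U u z n)` if `i = u`; `par U u z n` is a bounded sum (as in the proof of `le_W` in `Enc.lean`: copy
the private lemma `Enc_sum`).
-/

set_option autoImplicit false

namespace Pool.Agent.TJ

open MeasureTheory Pool.Agent.H.MP_ad67df_lc

private theorem InfW_sum {y : Rl} {F : ℕ → ℕ} (hF : RI {orc y} F) :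
    RI {orc y} (fun n => ∑ i ∈ Finset.range (n + 1), F (Nat.pair n i)) := by
  have h0 : RI {orc y} (fun _ => 0) := RI.of_comp (Computable.const _)
  have hh : RI {orc y} (fun q : ℕ => q.unpair.2.unpair.2 +
      F (Nat.pair q.unpair.1 q.unpair.2.unpair.1)) := by
    refine RI_comp2 (p := fun a b => a + b) Primrec.nat_add.to_comp ?_ ?_
    · exact RI.of_comp (Primrec.snd.comp (Primrec.unpair.comp
        (Primrec.snd.comp Primrec.unpair))).to_comp
    · refine hF.comp (RI.pair ?_ ?_)
      · exact RI.of_comp (Primrec.fst.comp Primrec.unpair).to_comp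
      · exact RI.of_comp (Primrec.fst.comp (Primrec.unpair.comp
          (Primrec.snd.comp Primrec.unpair))).to_comp
  have hg : RI {orc y} (fun n : ℕ => Nat.pair n (n + 1)) :=
    RI.of_comp (Primrec₂.natPair.comp Primrec.id Primrec.succ).to_comp
  have h1 := (RI.prec h0 hh).comp hg
  refine RI_congr h1 fun n => ?_
  have key : ∀ k : ℕ, (Nat.rec 0 (fun y IH => IH + F (Nat.pair n y)) k : ℕ) =
      ∑ i ∈ Finset.range k, F (Nat.pair n i) := by
    intro k
    induction k with
    | zero => simp
    | succ k ih => rw [Finset.sum_range_succ, ← ih]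
  simp only [Nat.unpair_pair]
  exact key (n + 1)

private theorem InfW_half : Primrec (fun q : ℕ => q.unpair.2 / 2) :=
  Primrec.nat_div.comp (Primrec.snd.comp Primrec.unpair) (Primrec.const 2)

private theorem InfW_sel (u : ℕ) : Computable₂ (fun a c : ℕ => if a.unpair.2 % 2 = 0 then c.unpair.1
    else if a.unpair.1 = u then c.unpair.2.unpair.1 else c.unpair.2.unpair.2) := by
  have h5 : Primrec₂ (fun a c : ℕ => if a.unpair.2 % 2 = 0 then c.unpair.1
    else if a.unpair.1 = u then c.unpair.2.unpair.1 else c.unpair.2.unpair.2) := by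
    refine Primrec.ite ?_ ?_ (Primrec.ite ?_ ?_ ?_)
    · exact Primrec.eq.comp (Primrec.nat_mod.comp (Primrec.snd.comp (Primrec.unpair.comp
        Primrec.fst)) (Primrec.const 2)) (Primrec.const 0)
    · exact Primrec.fst.comp (Primrec.unpair.comp Primrec.snd)
    · exact Primrec.eq.comp (Primrec.fst.comp (Primrec.unpair.comp Primrec.fst)) (Primrec.const u)
    · exact Primrec.fst.comp (Primrec.unpair.comp (Primrec.snd.comp (Primrec.unpair.comp
        Primrec.snd)))
    · exact Primrec.snd.comp (Primrec.unpair.comp (Primrec.snd.comp (Primrec.unpair.comp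
        Primrec.snd)))
  exact h5.to_comp

theorem W_le (b : Rl) (U : Set ℕ) (u : ℕ) (v z : Rl) :
    Le (sj U fun i => jn b (W U u v z i)) (jn (jn z v) (jn b (chi U))) := by
  classical
  rw [le_iff]
  set A : Rl := jn (jn z v) (jn b (chi U)) with hA
  have hz : RI {orc A} (fun n => (z n).toNat) := le_iff.1 ((jn_l z v).trans (jn_l _ _))
  have hv : RI {orc A} (fun n => (v n).toNat) := le_iff.1 ((jn_r z v).trans (jn_l _ _))
  have hb : RI {orc A} (fun n => (b n).toNat) := le_iff.1 ((jn_l b (chi U)).trans (jn_r _ _))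
  have hU : RI {orc A} (fun n => (chi U n).toNat) := le_iff.1 ((jn_r b (chi U)).trans (jn_r _ _))
  have hF : RI {orc A} (fun q : ℕ => (if q.unpair.2 = u then 0 else 1 : ℕ) *
      ((chi U q.unpair.2).toNat * (z (Nat.pair q.unpair.2 q.unpair.1)).toNat)) := by
    refine RI_comp2 (p := fun a b => a * b) Primrec.nat_mul.to_comp ?_ ?_
    · refine RI.of_comp (Primrec.to_comp ?_)
      exact Primrec.ite (Primrec.eq.comp (Primrec.snd.comp Primrec.unpair) (Primrec.const u))
        (Primrec.const 0) (Primrec.const 1)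
    · refine RI_comp2 (p := fun a b => a * b) Primrec.nat_mul.to_comp ?_ ?_
      · exact hU.comp (g := fun q : ℕ => q.unpair.2)
          (RI.of_comp (Primrec.snd.comp Primrec.unpair).to_comp)
      · exact hz.comp (g := fun q : ℕ => Nat.pair q.unpair.2 q.unpair.1)
          (RI.of_comp (Primrec₂.natPair.comp (Primrec.snd.comp Primrec.unpair)
            (Primrec.fst.comp Primrec.unpair)).to_comp)
  have hS := InfW_sum hF
  have x1 := hU.comp (g := fun q : ℕ => q.unpair.1)
    (RI.of_comp (Primrec.fst.comp Primrec.unpair).to_comp)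
  have x2 := hb.comp (g := fun q : ℕ => q.unpair.2 / 2) (RI.of_comp InfW_half.to_comp)
  have x3 := hv.comp (g := fun q : ℕ => q.unpair.2 / 2) (RI.of_comp InfW_half.to_comp)
  have x4 := hS.comp (g := fun q : ℕ => q.unpair.2 / 2) (RI.of_comp InfW_half.to_comp)
  have x5 := hz.comp (g := fun q : ℕ => Nat.pair q.unpair.1 (q.unpair.2 / 2))
    (RI.of_comp (Primrec₂.natPair.comp (Primrec.fst.comp Primrec.unpair) InfW_half).to_comp)
  have hp : Computable₂ (fun a b : ℕ => (a + b) % 2) :=
    (Primrec.nat_mod.comp (Primrec.nat_add.comp Primrec.fst Primrec.snd) (Primrec.const 2)).to_comp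
  have x34 := RI_comp2 hp x3 x4
  have hid : RI {orc A} (fun q : ℕ => q) := RI.of_comp Computable.id
  have x6 := RI_comp2 (InfW_sel u) hid (RI.pair x2 (RI.pair x34 x5))
  have x7 := RI_comp2 (p := fun a b => a * b) Primrec.nat_mul.to_comp x1 x6
  refine RI_congr x7 fun q => ?_
  simp only [Nat.unpair_pair]
  have hsum : ∀ n : ℕ, ∑ i ∈ Finset.range (n + 1), (if i = u then 0 else 1 : ℕ) *
      ((chi U i).toNat * (z (Nat.pair i n)).toNat) =
      ((Finset.range (n + 1)).filter fun i =>
        i ∈ U ∧ i ≠ u ∧ z (Nat.pair i n) = true).card := by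
    intro n
    rw [Finset.card_filter]
    refine Finset.sum_congr rfl fun i _ => ?_
    by_cases hi : i = u
    · simp [hi]
    · by_cases hiU : i ∈ U
      · simp only [hi, hiU, chi, if_false, one_mul, ne_eq, not_false_eq_true, true_and,
          decide_true, Bool.toNat_true]
        cases z (Nat.pair i n) <;> simp
      · simp [hi, hiU, chi]
  rw [hsum]
  by_cases h : q.unpair.1 ∈ U
  · simp only [sj, chi, h, if_true, decide_true, Bool.toNat_true, one_mul, jn]
    by_cases h' : q.unpair.2 % 2 = 0
    · simp only [h', if_true]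
    · simp only [h', if_false, W]
      by_cases hu : q.unpair.1 = u
      · simp only [hu, if_true, par]
        set c := ((Finset.range (q.unpair.2 / 2 + 1)).filter fun i =>
          i ∈ U ∧ i ≠ u ∧ z (Nat.pair i (q.unpair.2 / 2)) = true).card with hc
        rcases Nat.mod_two_eq_zero_or_one c with h | h
        · rw [Nat.add_mod, h]
          cases v (q.unpair.2 / 2) <;> simp
        · rw [Nat.add_mod, h]
          cases v (q.unpair.2 / 2) <;> simp
      · simp only [hu, if_false]
  · simp [sj, chi, h]

end Pool.Agent.TJ
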