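import Pool.Agent.H.MP_8387fc_lc.TJ.Defs

/-!
# Module SchD: schemes
-/

set_option autoImplicit false

namespace Pool.Agent.TJ

open Pool.Agent.H.MP_ad67df_lc

/-- A continuous injection `Q` of `2 ^ ω` into `2 ^ ω`: `Q y` extends `ρ s` if `y` extends `s`. -/
structure Sch (ρ : List Bool → List Bool) (Q : Rl → Rl) : Prop where
  len : ∀ s, s.length ≤ (ρ s).length
  ext : ∀ (y : Rl) (k : ℕ), bpre (Q y) (ρ (bpre y k)).length = ρ (bpre y k)

/-- The strings `ρ (s 0)` and `ρ (s 1)` are incompatible. -/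
def Inc (ρ : List Bool → List Bool) : Prop :=
  ∀ s, ∃ n, n < (ρ (s ++ [false])).length ∧ n < (ρ (s ++ [true])).length ∧
    (ρ (s ++ [false]))[n]? ≠ (ρ (s ++ [true]))[n]?

end Pool.Agent.TJ
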