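import Pool.Agent.H.MP_8387fc_lc.TJ.CoinC
import Pool.Agent.H.MP_8387fc_lc.TJ.SchD

/-!
# Module Scheme: a Cantor scheme of closed sets of positive measure

Closed sets `K s` of positive measure, decreasing, contained in the cylinder of `σ s`, on which `h` is
(everywhere) equal to a measurable function and `h z` extends `ρ s`. Some bit of `h` is not constant
almost everywhere on `K s`, since no value has positive measure.
-/

set_option autoImplicit false

namespace Pool.Agent.TJ

open MeasureTheory Pool.Agent.H.MP_ad67df_lc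

/-- The sets given by an initial segment are measurable. -/
private theorem meas_pre (m : ℕ) (t : List Bool) : MeasurableSet {z : Rl | bpre z m = t} := by
  have h1 : Measurable (fun z : Rl => fun i : Fin m => z i) :=
    measurable_pi_lambda _ fun i => measurable_pi_apply _
  exact h1 (Set.toFinite {f : Fin m → Bool | List.ofFn f = t}).measurableSet

/-- A measurable set of positive measure contains a closed set of positive measure on which the
first `m` bits of `z` and of `f z` are constant. -/
private theorem refine_closed {f : Rl → Rl} (hf : Measurable f) {A : Set Rl}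
    (hA : MeasurableSet A) (h0 : coin A ≠ 0) (m : ℕ) :
    ∃ (t u : List Bool) (K : Set Rl), IsClosed K ∧ coin K ≠ 0 ∧ K ⊆ A ∧
      (∀ z ∈ K, bpre z m = t) ∧ ∀ z ∈ K, bpre (f z) m = u := by
  by_contra hcon
  have h1 : ∀ q : List Bool × List Bool,
      coin {z | z ∈ A ∧ bpre z m = q.1 ∧ bpre (f z) m = q.2} = 0 := by
    intro q
    by_contra hne
    have hm : MeasurableSet {z | z ∈ A ∧ bpre z m = q.1 ∧ bpre (f z) m = q.2} :=
      hA.inter ((meas_pre m q.1).inter (hf (meas_pre m q.2)))
    obtain ⟨K, hKs, hKc, hK0⟩ := hm.exists_lt_isClosed_of_ne_top (measure_ne_top coin _)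
      (pos_iff_ne_zero.2 hne)
    exact hcon ⟨q.1, q.2, K, hKc, hK0.ne', fun z hz => (hKs hz).1, fun z hz => (hKs hz).2.1,
      fun z hz => (hKs hz).2.2⟩
  apply h0
  refine measure_mono_null (t := ⋃ q : List Bool × List Bool,
    {z | z ∈ A ∧ bpre z m = q.1 ∧ bpre (f z) m = q.2}) ?_ (measure_iUnion_null h1)
  intro z hz
  exact Set.mem_iUnion.2 ⟨(bpre z m, bpre (f z) m), hz, rfl, rfl⟩

/-- Some bit of `f` is not constant almost everywhere on a set of positive measure. -/
private theorem exists_bit {f : Rl → Rl} {A : Set Rl}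
    (h0 : coin A ≠ 0) (hd : ∀ d, coin {z | f z = d} = 0) :
    ∃ n, ∀ b, coin {z | z ∈ A ∧ f z n = b} ≠ 0 := by
  by_contra hcon
  have h1 : ∀ n, ∃ b, coin {z | z ∈ A ∧ f z n = b} = 0 := by
    intro n
    by_contra h2
    exact hcon ⟨n, fun b hb => h2 ⟨b, hb⟩⟩
  choose e he using h1
  apply h0
  refine measure_mono_null (t := (⋃ n, {z | z ∈ A ∧ f z n = e n}) ∪ {z | f z = fun n => !(e n)})
    ?_ (measure_union_null (measure_iUnion_null he) (hd _))
  intro z hz
  by_cases h3 : ∃ n, f z n = e n
  · obtain ⟨n, hn⟩ := h3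
    exact Or.inl (Set.mem_iUnion.2 ⟨n, hz, hn⟩)
  · refine Or.inr ?_
    funext n
    have h4 : f z n ≠ e n := fun h5 => h3 ⟨n, h5⟩
    revert h4
    cases f z n <;> cases e n <;> simp

/-- The states of the construction: a closed set of positive measure with the known initial
segments. -/
private structure St (h : Rl → Rl) (F : Set Rl) where
  K : Set Rl
  s : List Bool
  r : List Bool
  closed : IsClosed K
  pos : coin K ≠ 0
  sub : K ⊆ F
  hs : ∀ z ∈ K, bpre z s.length = s
  hr : ∀ z ∈ K, bpre (h z) r.length = r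

/-- The step of the construction. -/
private theorem step_ex {h h2 : Rl → Rl} {F : Set Rl} (hf : Measurable h2)
    (hF : ∀ z ∈ F, h z = h2 z) (hd : ∀ d, coin {z | h2 z = d} = 0) (p : St h F) :
    ∃ q : Bool → St h F, (∀ b, (q b).K ⊆ p.K ∧ p.s.length < (q b).s.length ∧
        p.r.length < (q b).r.length) ∧
      ∃ n, n < (q false).r.length ∧ n < (q true).r.length ∧ (q false).r[n]? ≠ (q true).r[n]? := by
  obtain ⟨n, hn⟩ := exists_bit p.pos hd
  have h1 : ∀ b : Bool, ∃ q : St h F, q.K ⊆ p.K ∧ p.s.length < q.s.length ∧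
      p.r.length < q.r.length ∧ n < q.r.length ∧ q.r[n]? = some b := by
    intro b
    have hm : MeasurableSet {z | z ∈ p.K ∧ h2 z n = b} :=
      p.closed.measurableSet.inter
        (((measurable_pi_apply n).comp hf) (measurableSet_singleton b))
    obtain ⟨t, u, K, hKc, hK0, hKA, ht, hu⟩ :=
      refine_closed hf hm (hn b) (max (n + 1) (max (p.s.length + 1) (p.r.length + 1)))
    obtain ⟨z, hz⟩ : K.Nonempty := nonempty_of_measure_ne_zero hK0
    have htl : t.length = max (n + 1) (max (p.s.length + 1) (p.r.length + 1)) := by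
      rw [← ht z hz, bpre_length]
    have hul : u.length = max (n + 1) (max (p.s.length + 1) (p.r.length + 1)) := by
      rw [← hu z hz, bpre_length]
    have hKF : K ⊆ F := fun w hw => p.sub (hKA hw).1
    refine ⟨⟨K, t, u, hKc, hK0, hKF, ?_, ?_⟩, fun w hw => (hKA hw).1, ?_, ?_, ?_, ?_⟩
    · intro w hw
      rw [htl]
      exact ht w hw
    · intro w hw
      rw [hul, hF w (hKF hw)]
      exact hu w hw
    · show p.s.length < t.length
      omega
    · show p.r.length < u.length
      omega
    · show n < u.length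
      omega
    · show u[n]? = some b
      rw [← hu z hz, bpre_getElem? _ (by omega)]
      rw [(hKA hz).2]
  choose q hq using h1
  refine ⟨q, fun b => ⟨(hq b).1, (hq b).2.1, (hq b).2.2.1⟩, n, (hq false).2.2.2.1,
    (hq true).2.2.2.1, ?_⟩
  rw [(hq false).2.2.2.2, (hq true).2.2.2.2]
  simp

theorem scheme {h : Rl → Rl} (hh : AEMeasurable h coin) (h0 : ∀ d, coin {z | h z = d} = 0) :
    ∃ (σ ρ : List Bool → List Bool) (P : Rl → Rl), Sch σ P ∧ Sch ρ (fun y => h (P y)) ∧ Inc ρ := by
  -- the measurable version and the set of full measure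
  obtain ⟨h2, hf, heq⟩ := hh
  obtain ⟨N, hNs, hNm, hN0⟩ := exists_measurable_superset_of_null (ae_iff.1 heq)
  have hF : ∀ z ∈ Nᶜ, h z = h2 z := by
    intro z hz
    by_contra hne
    exact hz (hNs hne)
  have hd : ∀ d, coin {z | h2 z = d} = 0 := by
    intro d
    refine measure_mono_null (t := {z | h z = d} ∪ N) ?_ (measure_union_null (h0 d) hN0)
    intro z hz
    by_cases hzN : z ∈ N
    · exact Or.inr hzN
    · exact Or.inl ((hF z hzN).trans hz)
  -- the first state
  have hN1 : coin Nᶜ ≠ 0 := by
    rw [prob_compl_eq_one_sub hNm, hN0]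
    simp
  obtain ⟨t, u, K, hKc, hK0, hKA, ht, hu⟩ := refine_closed hf hNm.compl hN1 0
  let p0 : St h Nᶜ := ⟨K, [], [], hKc, hK0, hKA, fun z _ => by simp [bpre], fun z _ => by simp [bpre]⟩
  -- the tree of states
  choose q hq hqn using fun p : St h Nᶜ => step_ex hf hF hd p
  let T : List Bool → St h Nᶜ := fun s => s.foldl q p0
  have hT : ∀ s b, T (s ++ [b]) = q (T s) b := by
    intro s b
    simp only [T, List.foldl_append, List.foldl_cons, List.foldl_nil]
  have hlen : ∀ s : List Bool, s.length ≤ (T s).s.length ∧ s.length ≤ (T s).r.length := by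
    intro s
    induction s using List.reverseRecOn with
    | nil => simp
    | append_singleton s b ih =>
      rw [hT]
      have h3 := hq (T s) b
      simp only [List.length_append, List.length_cons, List.length_nil]
      omega
  -- the points
  have hP : ∀ y : Rl, ∃ z : Rl, ∀ k, z ∈ (T (bpre y k)).K := by
    intro y
    obtain ⟨z, hz⟩ := IsCompact.nonempty_iInter_of_sequence_nonempty_isCompact_isClosed
      (fun k => (T (bpre y k)).K)
      (fun k => by
        show (T (bpre y (k + 1))).K ⊆ (T (bpre y k)).K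
        rw [bpre_succ, hT]
        exact (hq _ _).1)
      (fun k => nonempty_of_measure_ne_zero (T (bpre y k)).pos)
      (T (bpre y 0)).closed.isCompact
      (fun k => (T (bpre y k)).closed)
    exact ⟨z, fun k => Set.mem_iInter.1 hz k⟩
  choose P hPm using hP
  refine ⟨fun s => (T s).s, fun s => (T s).r, P, ⟨fun s => (hlen s).1, fun y k => ?_⟩,
    ⟨fun s => (hlen s).2, fun y k => ?_⟩, fun s => ?_⟩
  · exact (T (bpre y k)).hs _ (hPm y k)
  · exact (T (bpre y k)).hr _ (hPm y k)
  · obtain ⟨n, hn1, hn2, hn3⟩ := hqn (T s)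
    refine ⟨n, ?_, ?_, ?_⟩
    · show n < (T (s ++ [false])).r.length
      rw [hT]
      exact hn1
    · show n < (T (s ++ [true])).r.length
      rw [hT]
      exact hn2
    · show (T (s ++ [false])).r[n]? ≠ (T (s ++ [true])).r[n]?
      rw [hT, hT]
      exact hn3

end Pool.Agent.TJ
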