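import Pool.Agent.H.MP_8387fc_lc.TJ.SchW
import Pool.Agent.H.MP_8387fc_lc.TJ.CodB
import Pool.Agent.H.MP_8387fc_lc.TJ.CodD

/-!
# Module MonoW: weakly order preserving functions

`f` is weakly order preserving above `b`, with modulus `g`: the value `f x` is computable from all values `f y` with `y`
above `g x`. The proof of `incW` is the same as for order preserving functions (`MonoInc.lean`), with a perfect set on which
`g` is low.
-/

set_option autoImplicit false

namespace Pool.Agent.TJ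

open MeasureTheory Pool.Agent.H.MP_ad67df_lc

/-- For `x, y` above `b` with `y ≥_T g x`, the real `f x` is computable from `f y`. -/
def Follows (f g : Rl → Rl) (b : Rl) : Prop :=
  ∀ x y, Le b x → Le b y → Le (g x) y → Le (f x) (f y)

theorem incW {μ : Measure Rl} [IsFiniteMeasure μ] (hμ : μ ≠ 0) {f g : Rl → Rl} {b : Rl}
    (hb : ∀ᵐ x ∂μ, Le b x) (hf : AEMeasurable f μ) (hg : AEMeasurable g μ)
    (h0 : ∀ d, μ {x | f x = d} = 0) (hM : Follows f g b) :
    ∃ c, Le b c ∧ ∀ x, Le c x → Le x (f x) := by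
  obtain ⟨ρ, X, c2, hX1, hX2, hX3, hQ, hInc⟩ := schemeW hμ hb hf hg h0
  obtain ⟨c1, hc1⟩ := sch_ge hQ hInc
  obtain ⟨yB, hyB⟩ : ∃ yB : Rl, ∀ s : List Bool, Le (jn b (g (X (z0 s)))) yB := by
    refine ⟨js fun n => jn b (g (X (z0 ((Encodable.decode (α := List Bool) n).getD [])))),
      fun s => ?_⟩
    have h1 := js_ge (fun n => jn b (g (X (z0 ((Encodable.decode (α := List Bool) n).getD [])))))
      (Encodable.encode s)
    simp only [Encodable.encodek, Option.getD_some] at h1
    exact h1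
  have hbB : Le b yB := (jn_l b (g (X (z0 [])))).trans (hyB [])
  have hQB : ∀ s, Le (f (X (z0 s))) (f yB) := fun s =>
    hM _ _ (hX1 _) hbB ((jn_r _ _).trans (hyB s))
  obtain ⟨y, n, s, hD⟩ := exists_data hQ hInc (c := f yB) hQB (jn c1 c2)
  have hdec := decode_data hD
  -- the real `Y` computes the moduli of `yB` and of the six reals `X (y a j)`
  obtain ⟨Y, hY0, hY1, hY2⟩ : ∃ Y : Rl, Le b Y ∧ Le (g yB) Y ∧
      ∀ a j, a < 2 → j < 3 → Le (g (X (y a j))) Y := by
    refine ⟨jn b (jn (g yB) (j6 fun a j => if a < 2 ∧ j < 3 then g (X (y a j)) else yB)), jn_l _ _,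
      (jn_l _ _).trans (jn_r _ _), ?_⟩
    intro a j ha hj
    have e : ∀ q : ℕ → ℕ → Rl, Le (q a j) (j6 q) := by
      intro q
      unfold j6
      interval_cases a
      · refine Le.trans ?_ (jn_l _ _)
        interval_cases j
        · exact (jn_l _ _).trans (jn_l _ _)
        · exact (jn_r _ _).trans (jn_l _ _)
        · exact jn_r _ _
      · refine Le.trans ?_ (jn_r _ _)
        interval_cases j
        · exact (jn_l _ _).trans (jn_l _ _)
        · exact (jn_r _ _).trans (jn_l _ _)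
        · exact jn_r _ _
    have h1 := e fun a j => if a < 2 ∧ j < 3 then g (X (y a j)) else yB
    simp only [ha, hj, and_self, if_true] at h1
    exact h1.trans ((jn_r _ _).trans (jn_r _ _))
  have hY3 : Le (jn c1 c2) (f Y) := by
    have h7 : ∀ a j, a < 2 → j < 3 → Le (f (X (y a j))) (f Y) :=
      fun a j ha hj => hM _ _ (hX1 _) hY0 (hY2 a j ha hj)
    refine hdec.trans (jn_lub (hM _ _ hbB hY0 hY1) ?_)
    exact jn_lub (jn_lub (jn_lub (h7 0 0 (by norm_num) (by norm_num))
      (h7 0 1 (by norm_num) (by norm_num))) (h7 0 2 (by norm_num) (by norm_num)))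
      (jn_lub (jn_lub (h7 1 0 (by norm_num) (by norm_num)) (h7 1 1 (by norm_num) (by norm_num)))
        (h7 1 2 (by norm_num) (by norm_num)))
  refine ⟨jn b (jn (g Y) c2), jn_l _ _, fun x hx => ?_⟩
  have hbx : Le b x := (jn_l _ _).trans hx
  have hYx : Le (g Y) x := (jn_l _ _).trans ((jn_r _ _).trans hx)
  have hcx : Le c2 x := (jn_r _ _).trans ((jn_r _ _).trans hx)
  have hgx : Le (g (X x)) x := (hX3 x).trans (jn_lub (Le.refl x) hcx)
  have hQx : Le (f (X x)) (f x) := hM _ _ (hX1 x) hbx hgx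
  have hcf : Le (jn c1 c2) (f x) := hY3.trans (hM _ _ hY0 hbx hYx)
  exact (hc1 x).trans (jn_lub hQx ((jn_l _ _).trans hcf))

/-- A weakly order preserving function with countably many values is constant on a cone. -/
theorem constW {f g : Rl → Rl} {b : Rl} (hM : Follows f g b)
    (hV : (f '' {y | Le b y}).Countable) : ∃ c d, ∀ x, Le c x → Eqv (f x) d := by
  obtain ⟨v, hv⟩ := hV.exists_eq_range ⟨f b, b, Le.refl b, rfl⟩
  have h1 : ∀ n, ∃ y, Le b y ∧ f y = v n := by
    intro n
    have h2 : v n ∈ f '' {y | Le b y} := by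
      rw [hv]
      exact ⟨n, rfl⟩
    obtain ⟨y, hy, hy'⟩ := h2
    exact ⟨y, hy, hy'⟩
  choose y hy hy' using h1
  -- above `c` the value is above all values
  obtain ⟨c, hc⟩ : ∃ c, c = js fun n => jn b (g (y n)) := ⟨_, rfl⟩
  have hcn : ∀ n, Le (jn b (g (y n))) c := by
    intro n
    rw [hc]
    exact js_ge (fun n => jn b (g (y n))) n
  have hbc : Le b c := (jn_l _ _).trans (hcn 0)
  have h3 : ∀ x z, Le c x → Le b z → Le (f z) (f x) := by
    intro x z hx hz
    have h4 : f z ∈ Set.range v := by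
      rw [← hv]
      exact ⟨z, hz, rfl⟩
    obtain ⟨n, hn⟩ := h4
    rw [← hn, ← hy' n]
    exact hM _ _ (hy n) (hbc.trans hx) (((jn_r _ _).trans (hcn n)).trans hx)
  exact ⟨c, f c, fun x hx => ⟨h3 c x (Le.refl c) (hbc.trans hx), h3 x c hx hbc⟩⟩

end Pool.Agent.TJ
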