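import Pool.Agent.H.MP_8387fc_lc.TJ.CoinC
import Pool.Agent.H.MP_8387fc_lc.TJ.RedC

/-!
# Module NullFib: countable sets of reals are null, fibres of order reflecting functions
-/

set_option autoImplicit false

namespace Pool.Agent.TJ

open MeasureTheory Pool.Agent.H.MP_ad67df_lc

/-- A single real is contained in cylinders of measure `2 ^ (- n)`. -/
theorem coin_singleton (z : Rl) : coin {z} = 0 := by
  have h1 : ∀ n : ℕ, coin {z} ≤ (2⁻¹ : ENNReal) ^ n := by
    intro n
    have h2 := coin_cyl (bpre z n)
    have h3 : (bpre z n).length = n := by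
      unfold bpre
      exact List.length_ofFn
    rw [h3] at h2
    rw [← h2]
    refine measure_mono ?_
    intro w hw
    have h4 : w = z := hw
    show bpre w n = bpre z n
    rw [h4]
  have h5 : Filter.Tendsto (fun n : ℕ => (2⁻¹ : ENNReal) ^ n) Filter.atTop (nhds 0) :=
    ENNReal.tendsto_pow_atTop_nhds_zero_of_lt_one (by norm_num)
  exact nonpos_iff_eq_zero.1 (ge_of_tendsto' h5 h1)

theorem null_fibre {f H : Rl → Rl} {b : Rl}
    (h : ∀ x y, Le b x → Le b y → Le (f x) (f y) → Le x (H y)) (d : Rl) :
    coin {z | f (jn b z) = d} = 0 := by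
  by_cases he : ∃ z, f (jn b z) = d
  · obtain ⟨z, hz⟩ := he
    have h1 : {z | f (jn b z) = d} ⊆ {w | Le w (H (jn b z))} := by
      intro w hw
      have h2 : f (jn b w) = f (jn b z) := hw.trans hz.symm
      refine (jn_r b w).trans (h _ _ (jn_l _ _) (jn_l _ _) ?_)
      rw [h2]
      exact Le.refl _
    have h3 : {w : Rl | f (jn b w) = d}.Countable := (countable_le _).mono h1
    rw [← Set.biUnion_of_singleton {w : Rl | f (jn b w) = d}, measure_biUnion_null_iff h3]
    exact fun w _ => coin_singleton w
  · have h4 : {z | f (jn b z) = d} = ∅ := by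
      ext z
      exact ⟨fun hz => he ⟨z, hz⟩, fun hz => hz.elim⟩
    rw [h4]
    exact measure_empty

end Pool.Agent.TJ
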