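import Pool.Agent.H.MP_8387fc_lc.TJ.EncL
import Pool.Agent.H.MP_8387fc_lc.TJ.App

/-!
# Module PartA

Replace `b` by `b' = b + chi U + chs S`; the reals `x i = jn b' (W U u y' z i)` with `y' = y + c`,
where `c` is from `lusin` for the measures of `law_W` (for `b'`; they do not depend on `y'`).
-/

set_option autoImplicit false

namespace Pool.Agent.TJ

open MeasureTheory Pool.Agent.H.MP_ad67df_lc

private theorem PartA_red (w : Rl) {q : ℕ → ℕ} (hq : Computable q) {s : ℕ → Bool}
    (hs : Computable s) : Le (fun n => s n && w (q n)) w := by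
  rw [le_iff]
  have h1 : RI {orc w} (fun n => (w (q n)).toNat) := RI.comp (RI.ofOracle w) (RI.of_comp hq)
  have hp : Computable₂ (fun a n : ℕ => bif s n then a else 0) :=
    Computable.cond (hs.comp Computable.snd) Computable.fst (Computable.const 0)
  refine RI_congr (RI_comp2 hp h1 (RI.of_comp Computable.id)) fun n => ?_
  show (bif s n then (w (q n)).toNat else 0) = (s n && w (q n)).toNat
  cases s n <;> rfl

private theorem PartA_s1 (i : ℕ) (x : ℕ → Rl) : Le (sj {i} x) (x i) := by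
  have h1 : Computable (fun n : ℕ => decide (n.unpair.1 = i)) := by
    have h2 : Primrec₂ (fun a b : ℕ => decide (a = b)) := Primrec.eq.decide
    exact (h2.comp (Primrec.fst.comp Primrec.unpair) (Primrec.const i)).to_comp
  have h3 := PartA_red (x i) (q := fun n => n.unpair.2)
    (Primrec.snd.comp Primrec.unpair).to_comp h1
  have h4 : sj {i} x = fun n => decide (n.unpair.1 = i) && x i n.unpair.2 := by
    funext n
    unfold sj
    by_cases h : n.unpair.1 = i
    · rw [if_pos (show n.unpair.1 ∈ ({i} : Set ℕ) from h), h, decide_eq_true rfl, Bool.true_and]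
    · rw [if_neg (show n.unpair.1 ∉ ({i} : Set ℕ) from h), decide_eq_false h, Bool.false_and]
  rw [h4]
  exact h3

private theorem PartA_s2 (x : ℕ → Rl) : Le (sj {0, 1} x) (jn (x 0) (x 1)) := by
  have h1 : Computable (fun n : ℕ => decide (n.unpair.1 < 2)) := by
    have h2 : Primrec₂ (fun a b : ℕ => decide (a < b)) := Primrec.nat_lt.decide
    exact (h2.comp (Primrec.fst.comp Primrec.unpair) (Primrec.const 2)).to_comp
  have hq : Computable (fun n : ℕ => 2 * n.unpair.2 + n.unpair.1) :=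
    (Primrec.nat_add.comp (Primrec.nat_mul.comp (Primrec.const 2)
      (Primrec.snd.comp Primrec.unpair)) (Primrec.fst.comp Primrec.unpair)).to_comp
  have h3 := PartA_red (jn (x 0) (x 1)) hq h1
  have h4 : sj {0, 1} x = fun n => decide (n.unpair.1 < 2) &&
      jn (x 0) (x 1) (2 * n.unpair.2 + n.unpair.1) := by
    funext n
    unfold sj
    by_cases h : n.unpair.1 < 2
    · have h5 : n.unpair.1 = 0 ∨ n.unpair.1 = 1 := by omega
      rw [if_pos (show n.unpair.1 ∈ ({0, 1} : Set ℕ) from h5), decide_eq_true h, Bool.true_and]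
      unfold jn
      rcases h5 with h6 | h6
      · rw [h6, if_pos (by omega), show (2 * n.unpair.2 + 0) / 2 = n.unpair.2 by omega]
      · rw [h6, if_neg (by omega), show (2 * n.unpair.2 + 1) / 2 = n.unpair.2 by omega]
    · have h5 : n.unpair.1 ∉ ({0, 1} : Set ℕ) := by
        rintro (h6 | h6)
        · rw [h6] at h
          omega
        · have h7 : n.unpair.1 = 1 := h6
          omega
      rw [if_neg h5, decide_eq_false h, Bool.false_and]
  rw [h4]
  exact h3

theorem partA {f : Rl → Rl} (hf : UM f) (b : Rl) {U : Set ℕ} {u : ℕ} (hu : u ∈ U)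
    {S : ℕ → Set ℕ} (hS : ∀ m, S m ⊆ U) (hS' : ∀ m, ∃ j ∈ U, j ∉ S m)
    (h : ∀ x : ℕ → Rl, (∀ i ∈ U, Le b (x i)) →
      Le (f (sj U x)) (jn (sj U x) (js fun m => f (sj (S m) x)))) (y : Rl) :
    ∃ x, Le y x ∧ Le (f x) x := by
  choose j hjU hjS using hS'
  obtain ⟨b', hb'⟩ : ∃ b', b' = jn b (jn (chi U) (chs S)) := ⟨_, rfl⟩
  have hb : Le b b' := by
    rw [hb']
    exact jn_l _ _
  have hU : Le (chi U) b' := by
    rw [hb']
    exact (jn_l _ _).trans (jn_r _ _)
  have hC : Le (chs S) b' := by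
    rw [hb']
    exact (jn_r _ _).trans (jn_r _ _)
  choose ν hν hν' using fun m => law_W b' hu (hS m) (hjU m) (hjS m)
  obtain ⟨c, hc⟩ := lusin ν hν hf
  have hae := hc (fun m z => sj (S m) fun i => jn b' (W U u (jn y c) z i))
    (fun m => meas_W b' U u (jn y c) (S m)) fun m => hν' m (jn y c)
  obtain ⟨z, hz⟩ := hae.exists
  have hbx : ∀ i, Le b' (jn b' (W U u (jn y c) z i)) := fun i => jn_l _ _
  have hb'X : Le b' (sj U fun i => jn b' (W U u (jn y c) z i)) :=
    (hbx u).trans (sj_ge hu (fun i => jn b' (W U u (jn y c) z i)))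
  have hy' : Le (jn y c) (sj U fun i => jn b' (W U u (jn y c) z i)) :=
    (le_W b' hu (jn y c) z).trans (jn_lub (Le.refl _) (hU.trans hb'X))
  refine ⟨sj U fun i => jn b' (W U u (jn y c) z i), (jn_l _ _).trans hy', ?_⟩
  refine (h (fun i => jn b' (W U u (jn y c) z i)) fun i _ => hb.trans (hbx i)).trans
    (jn_lub (Le.refl _) (hz.trans (jn_lub ?_ ((jn_r _ _).trans hy'))))
  exact (js_sj_le hS fun i => jn b' (W U u (jn y c) z i)).trans
    (jn_lub (Le.refl _) (hC.trans hb'X))

/-- Two reals. -/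
theorem partA2 {f : Rl → Rl} (hf : UM f) (b : Rl)
    (hTI : ∀ x y, Le b x → Eqv x y → Eqv (f x) (f y))
    (h : ∀ x y, Le b x → Le b y → Le (f (jn x y)) (jn (jn x y) (jn (f x) (f y)))) (y : Rl) :
    ∃ x, Le y x ∧ Le (f x) x := by
  refine partA hf b (U := {0, 1}) (u := 0) (Or.inl rfl) (S := fun m => {m % 2}) ?_ ?_ ?_ y
  · intro m i hi
    have h1 : i = m % 2 := hi
    rw [h1]
    rcases Nat.mod_two_eq_zero_or_one m with h2 | h2
    · rw [h2]
      exact Or.inl rfl
    · rw [h2]
      exact Or.inr rfl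
  · intro m
    rcases Nat.mod_two_eq_zero_or_one m with h2 | h2
    · refine ⟨1, Or.inr rfl, ?_⟩
      rw [h2]
      exact one_ne_zero
    · refine ⟨0, Or.inl rfl, ?_⟩
      rw [h2]
      exact zero_ne_one
  · intro x hx
    have h0 : Le b (x 0) := hx 0 (Or.inl rfl)
    have h1 : Le b (x 1) := hx 1 (Or.inr rfl)
    have g0 : Le (x 0) (sj {0, 1} x) := sj_ge (Or.inl rfl) x
    have g1 : Le (x 1) (sj {0, 1} x) := sj_ge (Or.inr rfl) x
    have hE : Eqv (sj {0, 1} x) (jn (x 0) (x 1)) := ⟨PartA_s2 x, jn_lub g0 g1⟩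
    have hF := hTI _ _ (h0.trans g0) hE
    have e0 : Le (f (x 0)) (js fun m => f (sj {m % 2} x)) := by
      have k1 : Eqv (x 0) (sj {0} x) := ⟨sj_ge (Set.mem_singleton 0) x, PartA_s1 0 x⟩
      exact (hTI _ _ h0 k1).1.trans (js_ge (fun m => f (sj {m % 2} x)) 0)
    have e1 : Le (f (x 1)) (js fun m => f (sj {m % 2} x)) := by
      have k1 : Eqv (x 1) (sj {1} x) := ⟨sj_ge (Set.mem_singleton 1) x, PartA_s1 1 x⟩
      exact (hTI _ _ h1 k1).1.trans (js_ge (fun m => f (sj {m % 2} x)) 1)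
    refine (hF.1.trans (h _ _ h0 h1)).trans (jn_lub ?_ ?_)
    · exact hE.2.trans (jn_l _ _)
    · exact jn_lub (e0.trans (jn_r _ _)) (e1.trans (jn_r _ _))

end Pool.Agent.TJ
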