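import Pool.Agent.H.MP_8387fc_lc.TJ.HomC
import Pool.Agent.H.MP_8387fc_lc.TJ.Dec
import Pool.Agent.H.MP_8387fc_lc.TJ.CodB
import Pool.Agent.H.MP_8387fc_lc.TJ.CodD
import Pool.Agent.H.MP_8387fc_lc.TJ.Scheme

/-!
# Module PartB: join homomorphisms are constant or the identity on a cone

If some value `d` has positive measure: `hom_const`. Otherwise apply `scheme` to `h z = f (jn b z)`
and let `Q y = f (jn b (P y))`. Take `c2`, `c1` from `sch_le`, `sch_ge`, `c' = jn c1 c2`, `c0` from
`hom_reg`. Let `yB` be the join (`js`) of the reals `jn b (P (z0 s))` over all strings `s`, so that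
`Q (z0 s) ≤ f yB` for all `s`. `exists_data` with `c := f yB` and `x := c'` and `decode_data` give
`c' ≤ f Y`, where `Y` is the join of `yB` and the six reals `jn b (P (y a j))`. Let `x` be above `Y`,
`c0`, `c'` and `b`. Then `f x ≤ x`, `c' ≤ f Y ≤ f x`, `P x ≤ x`, `Q x ≤ f x` and
`x ≤ jn (Q x) c' ≤ f x`.
-/

set_option autoImplicit false

namespace Pool.Agent.TJ

open MeasureTheory Pool.Agent.H.MP_ad67df_lc

private theorem PartB_meas (b : Rl) : Measurable fun z : Rl => jn b z := by
  refine measurable_pi_iff.2 fun n => ?_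
  unfold jn
  by_cases h : n % 2 = 0
  · simp only [h, if_true]
    exact measurable_const
  · simp only [h, if_false]
    exact measurable_pi_apply _

theorem partB {f : Rl → Rl} {b : Rl} (hf : UM f)
    (hTI : ∀ x y, Le b x → Eqv x y → Eqv (f x) (f y))
    (hJ : ∀ x y, Le b x → Le b y → Eqv (f (jn x y)) (jn (f x) (f y))) :
    (∃ c d, ∀ x, Le c x → Eqv (f x) d) ∨ ∃ c, ∀ x, Le c x → Eqv (f x) x := by
  by_cases hd : ∃ d, coin {z | f (jn b z) = d} ≠ 0
  · obtain ⟨d, hd⟩ := hd
    exact Or.inl (hom_const hf hTI hJ hd)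
  right
  push Not at hd
  have hm : AEMeasurable (fun z => f (jn b z)) coin := by
    have h1 : AEMeasurable f (coin.map fun z => jn b z) := hf _ inferInstance
    exact h1.comp_measurable (PartB_meas b)
  obtain ⟨σ, ρ, P, hP, hQ, hInc⟩ := scheme hm hd
  obtain ⟨c2, hc2⟩ := sch_le hP
  obtain ⟨c1, hc1⟩ := sch_ge hQ hInc
  obtain ⟨c0, hc0⟩ := hom_reg hf hTI hJ
  have hmono : ∀ {x y : Rl}, Le b x → Le x y → Le (f x) (f y) := fun hx hxy =>
    hom_mono hTI hJ hx hxy
  obtain ⟨yB, hyB⟩ : ∃ yB : Rl, ∀ s : List Bool, Le (jn b (P (z0 s))) yB := by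
    refine ⟨js fun n => jn b (P (z0 ((Encodable.decode (α := List Bool) n).getD []))), fun s => ?_⟩
    have h1 := js_ge (fun n => jn b (P (z0 ((Encodable.decode (α := List Bool) n).getD []))))
      (Encodable.encode s)
    simp only [Encodable.encodek, Option.getD_some] at h1
    exact h1
  have hbB : Le b yB := (jn_l b (P (z0 []))).trans (hyB [])
  have hQB : ∀ s, Le (f (jn b (P (z0 s)))) (f yB) := fun s => hmono (jn_l _ _) (hyB s)
  obtain ⟨y, n, s, hD⟩ := exists_data hQ hInc (c := f yB) hQB (jn c1 c2)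
  have hdec := decode_data hD
  obtain ⟨Y, hY1, hY2⟩ : ∃ Y : Rl, Le yB Y ∧ Le (jn c1 c2) (f Y) := by
    refine ⟨jn yB (j6 fun a j => if a < 2 ∧ j < 3 then jn b (P (y a j)) else yB), jn_l _ _, ?_⟩
    refine hdec.trans (jn_lub (hmono hbB (jn_l _ _)) ?_)
    have h6 : ∀ a j, a < 2 → j < 3 → Le (jn b (P (y a j)))
        (j6 fun a j => if a < 2 ∧ j < 3 then jn b (P (y a j)) else yB) := by
      intro a j ha hj
      have e : ∀ q : ℕ → ℕ → Rl, Le (q a j) (j6 q) := by
        intro q
        unfold j6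
        interval_cases a
        · refine Le.trans ?_ (jn_l _ _)
          interval_cases j
          · exact (jn_l _ _).trans (jn_l _ _)
          · exact (jn_r _ _).trans (jn_l _ _)
          · exact jn_r _ _
        · refine Le.trans ?_ (jn_r _ _)
          interval_cases j
          · exact (jn_l _ _).trans (jn_l _ _)
          · exact (jn_r _ _).trans (jn_l _ _)
          · exact jn_r _ _
      have h1 := e fun a j => if a < 2 ∧ j < 3 then jn b (P (y a j)) else yB
      simp only [ha, hj, and_self, if_true] at h1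
      exact h1
    have h7 : ∀ a j, a < 2 → j < 3 → Le (f (jn b (P (y a j))))
        (f (jn yB (j6 fun a j => if a < 2 ∧ j < 3 then jn b (P (y a j)) else yB))) :=
      fun a j ha hj => hmono (jn_l _ _) ((h6 a j ha hj).trans (jn_r _ _))
    exact jn_lub (jn_lub (jn_lub (h7 0 0 (by norm_num) (by norm_num))
      (h7 0 1 (by norm_num) (by norm_num))) (h7 0 2 (by norm_num) (by norm_num)))
      (jn_lub (jn_lub (h7 1 0 (by norm_num) (by norm_num)) (h7 1 1 (by norm_num) (by norm_num)))
        (h7 1 2 (by norm_num) (by norm_num)))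
  have hbY : Le b Y := hbB.trans hY1
  refine ⟨jn Y (jn c0 (jn c1 c2)), fun x hx => ?_⟩
  have hYx : Le Y x := (jn_l _ _).trans hx
  have hc0x : Le c0 x := (jn_l _ _).trans ((jn_r _ _).trans hx)
  have hcx : Le (jn c1 c2) x := (jn_r _ _).trans ((jn_r _ _).trans hx)
  have hbx : Le b x := hbY.trans hYx
  have hPx : Le (P x) x := (hc2 x).trans (jn_lub (Le.refl x) ((jn_r _ _).trans hcx))
  have hQx : Le (f (jn b (P x))) (f x) := hmono (jn_l _ _) (jn_lub hbx hPx)
  have hcf : Le (jn c1 c2) (f x) := hY2.trans (hmono hbY hYx)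
  exact ⟨hc0 x hc0x, (hc1 x).trans (jn_lub hQx ((jn_l _ _).trans hcf))⟩

end Pool.Agent.TJ
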