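import Pool.Agent.H.MP_8387fc_lc.TJ.EncL
import Pool.Agent.H.MP_8387fc_lc.TJ.App

/-!
# Module PartC: values at joins cannot be decomposed

Replace `b` by `b' = b + chi U + chs S`; the reals `x i = jn b' (W U u y' z i)` with `y' = y + c`,
where `c` is from `lusin_seq` for the measures of `law_W` (for `b'`; they do not depend on `y'`).
-/

set_option autoImplicit false

namespace Pool.Agent.TJ

open MeasureTheory Pool.Agent.H.MP_ad67df_lc

private theorem PartC_red (w : Rl) {q : ℕ → ℕ} (hq : Computable q) {s : ℕ → Bool}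
    (hs : Computable s) : Le (fun n => s n && w (q n)) w := by
  rw [le_iff]
  have h1 : RI {orc w} (fun n => (w (q n)).toNat) := RI.comp (RI.ofOracle w) (RI.of_comp hq)
  have hp : Computable₂ (fun a n : ℕ => bif s n then a else 0) :=
    Computable.cond (hs.comp Computable.snd) Computable.fst (Computable.const 0)
  refine RI_congr (RI_comp2 hp h1 (RI.of_comp Computable.id)) fun n => ?_
  show (bif s n then (w (q n)).toNat else 0) = (s n && w (q n)).toNat
  cases s n <;> rfl

private theorem PartC_s2 (x : ℕ → Rl) : Le (sj {0, 1} x) (jn (x 0) (x 1)) := by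
  have h1 : Computable (fun n : ℕ => decide (n.unpair.1 < 2)) := by
    have h2 : Primrec₂ (fun a b : ℕ => decide (a < b)) := Primrec.nat_lt.decide
    exact (h2.comp (Primrec.fst.comp Primrec.unpair) (Primrec.const 2)).to_comp
  have hq : Computable (fun n : ℕ => 2 * n.unpair.2 + n.unpair.1) :=
    (Primrec.nat_add.comp (Primrec.nat_mul.comp (Primrec.const 2)
      (Primrec.snd.comp Primrec.unpair)) (Primrec.fst.comp Primrec.unpair)).to_comp
  have h3 := PartC_red (jn (x 0) (x 1)) hq h1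
  have h4 : sj {0, 1} x = fun n => decide (n.unpair.1 < 2) &&
      jn (x 0) (x 1) (2 * n.unpair.2 + n.unpair.1) := by
    funext n
    unfold sj
    by_cases h : n.unpair.1 < 2
    · have h5 : n.unpair.1 = 0 ∨ n.unpair.1 = 1 := by omega
      rw [if_pos (show n.unpair.1 ∈ ({0, 1} : Set ℕ) from h5), decide_eq_true h, Bool.true_and]
      unfold jn
      rcases h5 with h6 | h6
      · rw [h6, if_pos (by omega), show (2 * n.unpair.2 + 0) / 2 = n.unpair.2 by omega]
      · rw [h6, if_neg (by omega), show (2 * n.unpair.2 + 1) / 2 = n.unpair.2 by omega]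
    · have h5 : n.unpair.1 ∉ ({0, 1} : Set ℕ) := by
        rintro (h6 | h6)
        · rw [h6] at h
          omega
        · have h7 : n.unpair.1 = 1 := h6
          omega
      rw [if_neg h5, decide_eq_false h, Bool.false_and]
  rw [h4]
  exact h3

/-- The column number `i` of a real. -/
def col (i : ℕ) (w : Rl) : Rl := fun n => w (Nat.pair i n)

theorem meas_col (i : ℕ) : Measurable (col i) :=
  measurable_pi_iff.2 fun n => measurable_pi_apply (Nat.pair i n)

theorem col_sj {S : Set ℕ} {i : ℕ} (hi : i ∈ S) (x : ℕ → Rl) : col i (sj S x) = x i := by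
  funext n
  unfold col sj
  rw [Nat.unpair_pair]
  exact if_pos hi

theorem UM_col {g : Rl → Rl} (hg : UM g) (i : ℕ) : UM fun w => g (col i w) := by
  intro ν hν
  exact (hg (ν.map (col i)) inferInstance).comp_measurable (meas_col i)

theorem partC {Q : Rl → Rl → Prop} (hQ : ∀ x y z, Q x y → Le y z → Q x z) {f H : Rl → Rl}
    {g : ℕ → Rl → Rl} (hg : ∀ m, UM (g m)) (b : Rl) {U : Set ℕ} {u : ℕ}
    (hu : u ∈ U) {S : ℕ → Set ℕ} (hS : ∀ m, S m ⊆ U) (hS' : ∀ m, ∃ j ∈ U, j ∉ S m)
    (h : ∀ x : ℕ → Rl, (∀ i ∈ U, Le b (x i)) →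
      Q (f (sj U x)) (jn (H (sj U x)) (js fun m => g m (sj (S m) x)))) (y : Rl) :
    ∃ x : ℕ → Rl, (∀ i ∈ U, Le b (x i)) ∧ Le y (sj U x) ∧
      Q (f (sj U x)) (jn (H (sj U x)) (sj U x)) := by
  choose j hjU hjS using hS'
  obtain ⟨b', hb'⟩ : ∃ b', b' = jn b (jn (chi U) (chs S)) := ⟨_, rfl⟩
  have hb : Le b b' := by
    rw [hb']
    exact jn_l _ _
  have hU : Le (chi U) b' := by
    rw [hb']
    exact (jn_l _ _).trans (jn_r _ _)
  have hC : Le (chs S) b' := by
    rw [hb']
    exact (jn_r _ _).trans (jn_r _ _)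
  choose ν hν hν' using fun m => law_W b' hu (hS m) (hjU m) (hjS m)
  obtain ⟨c, hc⟩ := lusin_seq ν hν hg
  have hae := hc (fun m z => sj (S m) fun i => jn b' (W U u (jn y c) z i))
    (fun m => meas_W b' U u (jn y c) (S m)) fun m => hν' m (jn y c)
  obtain ⟨z, hz⟩ := hae.exists
  have hbx : ∀ i, Le b' (jn b' (W U u (jn y c) z i)) := fun i => jn_l _ _
  have hb'X : Le b' (sj U fun i => jn b' (W U u (jn y c) z i)) :=
    (hbx u).trans (sj_ge hu (fun i => jn b' (W U u (jn y c) z i)))
  have hy' : Le (jn y c) (sj U fun i => jn b' (W U u (jn y c) z i)) :=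
    (le_W b' hu (jn y c) z).trans (jn_lub (Le.refl _) (hU.trans hb'X))
  refine ⟨fun i => jn b' (W U u (jn y c) z i), fun i _ => hb.trans (hbx i),
    (jn_l _ _).trans hy', ?_⟩
  refine hQ _ _ _ (h (fun i => jn b' (W U u (jn y c) z i)) fun i _ => hb.trans (hbx i))
    (jn_lub (jn_l _ _) (Le.trans ?_ (jn_r _ _)))
  refine hz.trans (jn_lub ?_ ((jn_r _ _).trans hy'))
  exact (js_sj_le hS fun i => jn b' (W U u (jn y c) z i)).trans
    (jn_lub (Le.refl _) (hC.trans hb'X))

/-- Two reals. -/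
theorem partC2 {Q : Rl → Rl → Prop} (hQ : ∀ x y z, Q x y → Le y z → Q x z)
    {f H g₁ g₂ : Rl → Rl} (hg₁ : UM g₁) (hg₂ : UM g₂) (b : Rl)
    (h : ∀ x y, Le b x → Le b y → Q (f (jn x y)) (jn (H (jn x y)) (jn (g₁ x) (g₂ y)))) (y : Rl) :
    ∃ x, Le y x ∧ Q (f x) (jn (H x) x) := by
  have h0 : (0 : ℕ) ∈ ({0, 1} : Set ℕ) := Or.inl rfl
  have h1 : (1 : ℕ) ∈ ({0, 1} : Set ℕ) := Or.inr rfl
  obtain ⟨x, hx, hy, hf⟩ := partC hQ (f := fun w => f (jn (col 0 w) (col 1 w)))
    (H := fun w => H (jn (col 0 w) (col 1 w)))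
    (g := fun m w => if m % 2 = 0 then g₁ (col 0 w) else g₂ (col 1 w))
    (fun m => by
      by_cases hm : m % 2 = 0
      · simp only [if_pos hm]
        exact UM_col hg₁ 0
      · simp only [if_neg hm]
        exact UM_col hg₂ 1) b (U := {0, 1}) (u := 0) h0 (S := fun m => {m % 2})
    (fun m i hi => by
      have h2 : i = m % 2 := hi
      rcases Nat.mod_two_eq_zero_or_one m with h3 | h3
      · rw [h2, h3]
        exact h0
      · rw [h2, h3]
        exact h1)
    (fun m => by
      rcases Nat.mod_two_eq_zero_or_one m with h3 | h3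
      · refine ⟨1, h1, ?_⟩
        rw [h3]
        exact one_ne_zero
      · refine ⟨0, h0, ?_⟩
        rw [h3]
        exact zero_ne_one)
    (fun x hx => by
      simp only [col_sj h0, col_sj h1]
      refine hQ _ _ _ (h _ _ (hx 0 h0) (hx 1 h1)) (jn_lub (jn_l _ _) (Le.trans ?_ (jn_r _ _)))
      refine jn_lub ?_ ?_
      · have h4 := js_ge (fun m => if m % 2 = 0 then g₁ (col 0 (sj {m % 2} x)) else
          g₂ (col 1 (sj {m % 2} x))) 0
        simp only [Nat.zero_mod, if_true] at h4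
        rwa [col_sj (Set.mem_singleton 0)] at h4
      · have h4 := js_ge (fun m => if m % 2 = 0 then g₁ (col 0 (sj {m % 2} x)) else
          g₂ (col 1 (sj {m % 2} x))) 1
        simp only [show 1 % 2 = 1 from rfl, one_ne_zero, if_false] at h4
        rwa [col_sj (Set.mem_singleton 1)] at h4) y
  simp only [col_sj h0, col_sj h1] at hf
  have g0 : Le (sj {0, 1} x) (jn (x 0) (x 1)) := PartC_s2 x
  exact ⟨jn (x 0) (x 1), hy.trans g0, hQ _ _ _ hf (jn_lub (jn_l _ _) (g0.trans (jn_r _ _)))⟩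

end Pool.Agent.TJ
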