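import Pool.Agent.H.MP_8387fc_lc.TJ.PartC
import Pool.Agent.H.MP_8387fc_lc.TJ.Basis

/-!
# Module PartD: decompositions at joins of two reals, on a cone
-/

set_option autoImplicit false

namespace Pool.Agent.TJ

open MeasureTheory Pool.Agent.H.MP_ad67df_lc

theorem partD {Q : Rl → Rl → Prop} (hQ : ∀ x y z, Q x y → Le y z → Q x z)
    {f H g₁ g₂ : Rl → Rl} (hg₁ : UM g₁) (hg₂ : UM g₂) (b : Rl)
    (h : ∀ x y, Le b x → Le b y → Q (f (jn x y)) (jn (H (jn x y)) (jn (g₁ x) (g₂ y))))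
    (hI : ∀ x y, Le b x → Eqv x y → Q (f x) (jn (H x) x) → Q (f y) (jn (H y) y)) :
    ∃ c, ∀ x, Le c x → Q (f x) (jn (H x) x) := by
  obtain ⟨c, hc⟩ := low_join2 hg₁ hg₂ b
  refine ⟨c, fun x hx => ?_⟩
  obtain ⟨u₁, u₂, k1, k2, k3, k4, k5, k6, k7⟩ := hc x hx
  refine hI (jn u₁ u₂) x (k1.trans (jn_l _ _)) ⟨jn_lub k5 k6, k7⟩ ?_
  refine hQ _ _ _ (h u₁ u₂ k1 k2) (jn_lub (jn_l _ _) ?_)
  exact (jn_lub k3 k4).trans (k7.trans (jn_r _ _))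

end Pool.Agent.TJ
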