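import Pool.Agent.H.MP_8387fc_lc.TJ.InfC
import Pool.Agent.H.MP_8387fc_lc.TJ.InfW
import Pool.Agent.H.MP_8387fc_lc.TJ.EncL
import Pool.Agent.H.MP_8387fc_lc.TJ.App
import Pool.Agent.H.MP_8387fc_lc.TJ.Basis

/-!
# Module PartE: infinite joins, on a cone
-/

set_option autoImplicit false

namespace Pool.Agent.TJ

open MeasureTheory Pool.Agent.H.MP_ad67df_lc

/-- Every real `v` above some `c` is the join of reals `x i ≥ b`, `i ∈ U`, such that the values of the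
`g m` at the joins over the sets `S m` are (uniformly) computable from `v`. -/
theorem low_joins {g : ℕ → Rl → Rl} (hg : ∀ m, UM (g m)) (b : Rl) {U : Set ℕ} {u : ℕ}
    (hu : u ∈ U) {S : ℕ → Set ℕ} (hS : ∀ m, S m ⊆ U) (hS' : ∀ m, ∃ j ∈ U, j ∉ S m) :
    ∃ c : Rl, ∀ v, Le c v → ∃ x : ℕ → Rl, (∀ i, Le b (x i)) ∧ Eqv (sj U x) v ∧
      Le (js fun m => g m (sj (S m) x)) v := by
  choose j hjU hjS using hS'
  obtain ⟨b', hb'⟩ : ∃ b', b' = jn b (jn (chi U) (chs S)) := ⟨_, rfl⟩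
  have hb : Le b b' := by
    rw [hb']
    exact jn_l _ _
  have hU : Le (chi U) b' := by
    rw [hb']
    exact (jn_l _ _).trans (jn_r _ _)
  have hC : Le (chs S) b' := by
    rw [hb']
    exact (jn_r _ _).trans (jn_r _ _)
  choose ν hν hν' using fun m => law_W b' hu (hS m) (hjU m) (hjS m)
  have hhalf : ∀ k : ℕ, (0 : ENNReal) < (2⁻¹ : ENNReal) ^ (k + 5) := fun k =>
    pos_iff_ne_zero.2 (pow_ne_zero _ (by simp))
  have h1 : ∀ k : ℕ, ∃ (L : ℕ) (C : List (List Bool)),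
      ν k.unpair.1 {z | g k.unpair.1 z k.unpair.2 ≠ decide (bpre z L ∈ C)} ≤
        (2⁻¹ : ENNReal) ^ (k + 5) := by
    intro k
    have := hν k.unpair.1
    exact apx_fun (ν k.unpair.1) (hg _ _ (hν _)) k.unpair.2 (hhalf k)
  choose L C hLC using h1
  have h2 : ∀ k : ℕ, ∃ G : Set Rl, IsOpen G ∧
      {z | g k.unpair.1 z k.unpair.2 ≠ decide (bpre z (L k) ∈ C k)} ⊆ G ∧
      ν k.unpair.1 G ≤ (2⁻¹ : ENNReal) ^ (k + 4) := by
    intro k
    have := hν k.unpair.1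
    obtain ⟨G, h3, h4, h5⟩ := Set.exists_isOpen_le_add
      {z | g k.unpair.1 z k.unpair.2 ≠ decide (bpre z (L k) ∈ C k)} (ν k.unpair.1)
      (hhalf k).ne'
    refine ⟨G, h4, h3, h5.trans ((add_le_add_left (hLC k) _).trans (le_of_eq ?_))⟩
    rw [← mul_two, pow_succ (2⁻¹ : ENNReal) (k + 4), mul_assoc,
      ENNReal.inv_mul_cancel (by norm_num) (by norm_num), mul_one]
  choose G hG hGs hGν using h2
  obtain ⟨c0, hc0⟩ := exists_code fun k => Encodable.encode (L k, C k)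
  obtain ⟨c1, hc1⟩ := inf_avoid b' U u S hν hν' hG hGν
  refine ⟨jn b' (jn c0 c1), fun v hv => ?_⟩
  have hbv : Le b' v := (jn_l _ _).trans hv
  have h0v : Le c0 v := (jn_l _ _).trans ((jn_r _ _).trans hv)
  have h1v : Le c1 v := (jn_r _ _).trans ((jn_r _ _).trans hv)
  obtain ⟨z, hz, hz'⟩ := hc1 v
  have hzv : Le z v := hz.trans (jn_lub (Le.refl v) h1v)
  have hXv : Le (sj U fun i => jn b' (W U u v z i)) v :=
    (W_le b' U u v z).trans (jn_lub (jn_lub hzv (Le.refl v)) (jn_lub hbv (hU.trans hbv)))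
  have hb'X : Le b' (sj U fun i => jn b' (W U u v z i)) :=
    (jn_l b' (W U u v z u)).trans (sj_ge hu (fun i => jn b' (W U u v z i)))
  refine ⟨fun i => jn b' (W U u v z i), fun i => hb.trans (jn_l _ _), ⟨hXv, ?_⟩, ?_⟩
  · exact (le_W b' hu v z).trans (jn_lub (Le.refl _) (hU.trans hb'X))
  · have h3 : (js fun m => g m (XW b' U u S m v z)) = fun k : ℕ =>
        decide (bpre (XW b' U u S k.unpair.1 v z) (L k) ∈ C k) := by
      funext k
      by_contra hne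
      exact hz' k (hGs k hne)
    have h4 := app_le (fun m => XW b' U u S m v z) c0 L C hc0
    rw [← h3] at h4
    refine h4.trans (jn_lub ?_ h0v)
    exact (js_sj_le hS fun i => jn b' (W U u v z i)).trans (jn_lub hXv (hC.trans hbv))

/-- Joins of two reals: the set of the `x` such that `f x` is reducible to `H x ⊕ x` meets all Turing
degrees of a cone. -/
theorem partE2 {Q : Rl → Rl → Prop} (hQ : ∀ x y z, Q x y → Le y z → Q x z)
    {f H g₁ g₂ : Rl → Rl} (hg₁ : UM g₁) (hg₂ : UM g₂) (b : Rl)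
    (h : ∀ x y, Le b x → Le b y → Q (f (jn x y)) (jn (H (jn x y)) (jn (g₁ x) (g₂ y)))) :
    ∃ c, ∀ v, Le c v → ∃ x, Le b x ∧ Eqv x v ∧ Q (f x) (jn (H x) x) := by
  obtain ⟨c, hc⟩ := low_join2 hg₁ hg₂ b
  refine ⟨c, fun v hv => ?_⟩
  obtain ⟨u₁, u₂, k1, k2, k3, k4, k5, k6, k7⟩ := hc v hv
  refine ⟨jn u₁ u₂, k1.trans (jn_l _ _), ⟨jn_lub k5 k6, k7⟩, ?_⟩
  refine hQ _ _ _ (h u₁ u₂ k1 k2) (jn_lub (jn_l _ _) ?_)
  exact (jn_lub k3 k4).trans (k7.trans (jn_r _ _))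

/-- Infinite joins. -/
theorem partE {Q : Rl → Rl → Prop} (hQ : ∀ x y z, Q x y → Le y z → Q x z) {f H : Rl → Rl}
    {g : ℕ → Rl → Rl} (hg : ∀ m, UM (g m)) (b : Rl) {U : Set ℕ} {u : ℕ}
    (hu : u ∈ U) {S : ℕ → Set ℕ} (hS : ∀ m, S m ⊆ U) (hS' : ∀ m, ∃ j ∈ U, j ∉ S m)
    (h : ∀ x : ℕ → Rl, (∀ i ∈ U, Le b (x i)) →
      Q (f (sj U x)) (jn (H (sj U x)) (js fun m => g m (sj (S m) x)))) :
    ∃ c, ∀ v, Le c v → ∃ x, Le b x ∧ Eqv x v ∧ Q (f x) (jn (H x) x) := by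
  obtain ⟨c, hc⟩ := low_joins hg b hu hS hS'
  refine ⟨c, fun v hv => ?_⟩
  obtain ⟨x, k1, k2, k3⟩ := hc v hv
  refine ⟨sj U x, (k1 u).trans (sj_ge hu x), k2, ?_⟩
  exact hQ _ _ _ (h x fun i _ => k1 i) (jn_lub (jn_l _ _) (k3.trans (k2.2.trans (jn_r _ _))))

end Pool.Agent.TJ
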