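import Pool.Agent.H.MP_8387fc_lc.TJ.MonoInc
import Pool.Agent.H.MP_8387fc_lc.TJ.NullFib

/-!
# Module PartR: the hull of an increasing function
-/

set_option autoImplicit false

namespace Pool.Agent.TJ

open MeasureTheory Pool.Agent.H.MP_ad67df_lc

/-- If `f x ≤ f y` implies `x ≤ H y`, then `f x ≤ H x` as soon as `f x` is above some real. -/
theorem refl_le {f H : Rl → Rl} (hf : UM f) (b : Rl)
    (h : ∀ x y, Le b x → Le b y → Le (f x) (f y) → Le x (H y)) :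
    ∃ c, ∀ x, Le b x → Le c (f x) → Le (f x) (H x) := by
  obtain ⟨c, hc⟩ := low_join hf b
  refine ⟨c, fun x hbx hx => ?_⟩
  obtain ⟨u₁, u₂, h1, h2, h3, h4, -, -, h5⟩ := hc (f x) hx
  exact h5.trans (jn_lub (h _ _ h1 hbx h3) (h _ _ h2 hbx h4))

theorem partR {f H : Rl → Rl} (hf : UM f) (b : Rl)
    (h : ∀ x y, Le b x → Le b y → Le (f x) (f y) → Le x (H y))
    (h' : (∀ x, Le b x → Le x (f x)) ∨ ∀ x y, Le b x → Le x y → Le (f x) (f y)) :
    ∃ c, ∀ x, Le c x → Le x (f x) ∧ Le (f x) (H x) := by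
  obtain ⟨c, hc⟩ := refl_le hf b h
  have h1 : ∃ c', Le b c' ∧ ∀ x, Le c' x → Le x (f x) := by
    rcases h' with h' | h'
    · exact ⟨b, Le.refl b, h'⟩
    · exact mono_inc hf h' (null_fibre h)
  obtain ⟨c', hb, hc'⟩ := h1
  refine ⟨jn c c', fun x hx => ?_⟩
  have h2 : Le x (f x) := hc' x ((jn_r _ _).trans hx)
  exact ⟨h2, hc x (hb.trans ((jn_r _ _).trans hx)) (((jn_l _ _).trans hx).trans h2)⟩

end Pool.Agent.TJ
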