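import Pool.Agent.H.MP_8387fc_lc.TJ.MonoW
import Pool.Agent.H.MP_8387fc_lc.TJ.PartR

/-!
# Module RefW: weakly order preserving functions which reflect the order
-/

set_option autoImplicit false

namespace Pool.Agent.TJ

open MeasureTheory Pool.Agent.H.MP_ad67df_lc

/-- The law of `b ⊕ z`. -/
theorem law_b (b : Rl) : ∃ μ : Measure Rl, IsFiniteMeasure μ ∧ μ ≠ 0 ∧ (∀ᵐ x ∂μ, Le b x) ∧
    ∀ S : Set Rl, NullMeasurableSet S μ → μ S = coin {z | jn b z ∈ S} := by
  have hmeas : Measurable fun z : Rl => jn b z := meas_jn b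
  refine ⟨coin.map fun z => jn b z, inferInstance, ?_, ?_, fun S hS => ?_⟩
  · intro h1
    have h2 : (coin.map fun z : Rl => jn b z) Set.univ = 1 := by
      rw [Measure.map_apply hmeas MeasurableSet.univ, Set.preimage_univ, measure_univ]
    rw [h1] at h2
    simp at h2
  · have hm : MeasurableSet {x : Rl | (fun n => x (2 * n)) = b} :=
      (measurable_pi_lambda (fun x : Rl => fun n => x (2 * n)) fun n => measurable_pi_apply (2 * n))
        (measurableSet_singleton b)
    have h1 : ∀ᵐ x ∂(coin.map fun z : Rl => jn b z), x ∈ {x : Rl | (fun n => x (2 * n)) = b} := by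
      refine (ae_map_iff hmeas.aemeasurable hm).2 (ae_of_all _ fun z => ?_)
      show (fun n => jn b z (2 * n)) = b
      funext n
      simp [jn]
    filter_upwards [h1] with x hx
    have h2 : (fun n => x (2 * n)) = b := hx
    rw [← h2, le_iff]
    refine RI.comp (RI.ofOracle x) (g := fun n => 2 * n) (RI.of_comp ?_)
    exact (Primrec.nat_mul.comp (Primrec.const 2) Primrec.id).to_comp
  · rw [Measure.map_apply₀ hmeas.aemeasurable hS]
    rfl

theorem incW_coin {f g : Rl → Rl} {b : Rl} (hf : UM f) (hg : UM g) (hM : Follows f g b)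
    (hn : ∀ d, coin {z | f (jn b z) = d} = 0) : ∃ c, Le b c ∧ ∀ x, Le c x → Le x (f x) := by
  obtain ⟨μ, hfin, hne, hb, hS⟩ := law_b b
  refine incW hne hb (hf μ hfin) (hg μ hfin) (fun d => ?_) hM
  have h1 : NullMeasurableSet {x | f x = d} μ :=
    (hf μ hfin).nullMeasurable (measurableSet_singleton d)
  exact (hS _ h1).trans (hn d)

/-- An increasing function is diffuse. -/
theorem diffuse_of_inc {f : Rl → Rl} {b : Rl} (hf : UM f) (hI : ∀ x, Le b x → Le x (f x)) :
    ∃ μ : Measure Rl, IsFiniteMeasure μ ∧ μ ≠ 0 ∧ (∀ᵐ x ∂μ, Le b x) ∧ AEMeasurable f μ ∧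
      ∀ d, μ {x | f x = d} = 0 := by
  obtain ⟨μ, hfin, hne, hb, hS⟩ := law_b b
  refine ⟨μ, hfin, hne, hb, hf μ hfin, fun d => ?_⟩
  have h1 : NullMeasurableSet {x | f x = d} μ :=
    (hf μ hfin).nullMeasurable (measurableSet_singleton d)
  exact (hS _ h1).trans
    (null_fibre (f := f) (H := f) (b := b) (fun x y hx _ h => (hI x hx).trans h) d)

/-- Countable fibres are null. -/
theorem null_of_countable {f : Rl → Rl} {b d : Rl} (h : {x | Le b x ∧ f x = d}.Countable) :
    coin {z | f (jn b z) = d} = 0 := by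
  have hinj : Function.Injective fun z : Rl => jn b z := by
    intro z w hzw
    funext n
    have h1 : jn b z (2 * n + 1) = jn b w (2 * n + 1) := congrFun hzw (2 * n + 1)
    have h2 : (2 * n + 1) / 2 = n := by omega
    simpa [jn, h2] using h1
  have h3 : {z : Rl | f (jn b z) = d}.Countable := by
    refine (h.preimage hinj).mono ?_
    intro z hz
    exact ⟨jn_l b z, hz⟩
  rw [← Set.biUnion_of_singleton {z : Rl | f (jn b z) = d}, measure_biUnion_null_iff h3]
  exact fun w _ => coin_singleton w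

/-- The upper bound. -/
theorem ideal_le {f : Rl → Rl} (hf : UM f) {I : Rl → Set Rl}
    (hI : ∀ y, (∀ x z, Le x z → z ∈ I y → x ∈ I y) ∧ ∀ x z, x ∈ I y → z ∈ I y → jn x z ∈ I y)
    (b : Rl) (h : ∀ x y, Le b x → Le b y → Le (f x) (f y) → x ∈ I y) :
    ∃ c, ∀ x, Le b x → Le c (f x) → f x ∈ I x := by
  obtain ⟨c, hc⟩ := low_join hf b
  refine ⟨c, fun x hbx hx => ?_⟩
  obtain ⟨u₁, u₂, h1, h2, h3, h4, -, -, h5⟩ := hc (f x) hx
  exact (hI x).1 _ _ h5 ((hI x).2 _ _ (h _ _ h1 hbx h3) (h _ _ h2 hbx h4))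

theorem refW {f g H : Rl → Rl} {b : Rl} (hf : UM f) (hg : UM g) (hM : Follows f g b)
    (h : ∀ x y, Le b x → Le b y → Le (f x) (f y) → Le x (H y)) :
    ∃ c, ∀ x, Le c x → Le x (f x) ∧ Le (f x) (H x) := by
  obtain ⟨c, hc⟩ := refl_le hf b h
  obtain ⟨c', hb', hc'⟩ := incW_coin hf hg hM (null_fibre h)
  refine ⟨jn c c', fun x hx => ?_⟩
  have h2 : Le x (f x) := hc' x ((jn_r _ _).trans hx)
  exact ⟨h2, hc x (hb'.trans ((jn_r _ _).trans hx)) (((jn_l _ _).trans hx).trans h2)⟩

end Pool.Agent.TJ
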