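import Pool.Agent.H.MP_8387fc_lc.TJ.SchG
import Pool.Agent.H.MP_8387fc_lc.TJ.Dec
import Pool.Agent.H.MP_8387fc_lc.TJ.Basis

/-!
# Module SchW: a perfect set on which one function is injective and another one is low
-/

set_option autoImplicit false

namespace Pool.Agent.TJ

open MeasureTheory Pool.Agent.H.MP_ad67df_lc

/-- the bits with even numbers -/
private def ev (w : Rl) : Rl := fun n => w (2 * n)

/-- the bits with odd numbers -/
private def od (w : Rl) : Rl := fun n => w (2 * n + 1)

private theorem meas_ev : Measurable ev := measurable_pi_lambda _ fun n => measurable_pi_apply _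

private theorem meas_od : Measurable od := measurable_pi_lambda _ fun n => measurable_pi_apply _

private theorem ev_jn (x y : Rl) : ev (jn x y) = x := by
  funext n
  simp [ev, jn]

private theorem od_jn (x y : Rl) : od (jn x y) = y := by
  funext n
  have h : (2 * n + 1) / 2 = n := by omega
  simp [od, jn, h]

private theorem ev_le (w : Rl) : Le (ev w) w := by
  rw [le_iff]
  refine RI.comp (RI.ofOracle w) (g := fun n => 2 * n) (RI.of_comp ?_)
  exact (Primrec.nat_mul.comp (Primrec.const 2) Primrec.id).to_comp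

private theorem od_le (w : Rl) : Le (od w) w := by
  rw [le_iff]
  refine RI.comp (RI.ofOracle w) (g := fun n => 2 * n + 1) (RI.of_comp ?_)
  exact (Primrec.succ.comp (Primrec.nat_mul.comp (Primrec.const 2) Primrec.id)).to_comp

theorem schemeW {μ : Measure Rl} [IsFiniteMeasure μ] (hμ : μ ≠ 0) {f g : Rl → Rl} {b : Rl}
    (hb : ∀ᵐ x ∂μ, Le b x) (hf : AEMeasurable f μ) (hg : AEMeasurable g μ)
    (h0 : ∀ d, μ {x | f x = d} = 0) :
    ∃ (ρ : List Bool → List Bool) (X : Rl → Rl) (c : Rl), (∀ y, Le b (X y)) ∧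
      (∀ y, Le (X y) (jn y c)) ∧ (∀ y, Le (g (X y)) (jn y c)) ∧ Sch ρ (fun y => f (X y)) ∧
      Inc ρ := by
  obtain ⟨g2, hg2, heq⟩ := hg
  have hF : Measurable fun x : Rl => jn x (g2 x) := by
    refine measurable_pi_lambda _ fun n => ?_
    by_cases hn : n % 2 = 0
    · have h1 : (fun x : Rl => jn x (g2 x) n) = fun x : Rl => x (n / 2) := by
        funext x
        simp [jn, hn]
      rw [h1]
      exact measurable_pi_apply _
    · have h1 : (fun x : Rl => jn x (g2 x) n) = fun x : Rl => g2 x (n / 2) := by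
        funext x
        simp [jn, hn]
      rw [h1]
      exact (measurable_pi_apply _).comp hg2
  obtain ⟨F, hFe⟩ : ∃ F : Rl → Rl, F = fun x : Rl => jn x (g2 x) := ⟨_, rfl⟩
  rw [← hFe] at hF
  have hevF : (ev ∘ F) = id := by
    funext x
    show ev (F x) = x
    rw [hFe]
    exact ev_jn _ _
  have hmap : (μ.map F).map ev = μ := by
    rw [Measure.map_map meas_ev hF, hevF, Measure.map_id]
  have hμ' : μ.map F ≠ 0 := by
    intro h
    rw [h, Measure.map_zero] at hmap
    exact hμ hmap.symm
  have hh : AEMeasurable (fun w => f (ev w)) (μ.map F) := by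
    have h1 : AEMeasurable f ((μ.map F).map ev) := by
      rw [hmap]
      exact hf
    exact h1.comp_measurable meas_ev
  have hnull : ∀ S : Set Rl, μ S = 0 → (μ.map F) (ev ⁻¹' S) = 0 := by
    intro S hS
    obtain ⟨N, hN1, hN2, hN3⟩ := exists_measurable_superset_of_null hS
    refine measure_mono_null (Set.preimage_mono hN1) ?_
    rw [Measure.map_apply hF (meas_ev hN2), ← Set.preimage_comp, hevF]
    exact hN3
  have h0' : ∀ d, (μ.map F) {w | f (ev w) = d} = 0 := fun d => hnull _ (h0 d)
  have hA : (μ.map F) {w | Le b (ev w) ∧ g (ev w) = g2 (ev w) ∧ od w = g2 (ev w)}ᶜ = 0 := by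
    refine measure_mono_null (t := ev ⁻¹' {x | ¬ (Le b x ∧ g x = g2 x)} ∪
      {w | od w = g2 (ev w)}ᶜ) ?_ (measure_union_null (hnull _ ?_) ?_)
    · intro w hw
      by_cases h1 : Le b (ev w) ∧ g (ev w) = g2 (ev w)
      · refine Or.inr fun h2 => hw ⟨h1.1, h1.2, h2⟩
      · exact Or.inl h1
    · exact ae_iff.1 (hb.and heq)
    · have hm : MeasurableSet {w : Rl | od w = g2 (ev w)} :=
        measurableSet_eq_fun meas_od (hg2.comp meas_ev)
      rw [Measure.map_apply hF hm.compl]
      have h1 : F ⁻¹' {w | od w = g2 (ev w)}ᶜ = ∅ := by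
        ext x
        simp only [Set.mem_preimage, Set.mem_compl_iff, Set.mem_setOf_eq, Set.mem_empty_iff_false,
          iff_false, not_not]
        rw [hFe]
        show od (jn x (g2 x)) = g2 (ev (jn x (g2 x)))
        rw [ev_jn, od_jn]
      rw [h1]
      exact measure_empty
  obtain ⟨σ, ρ, P, hP, hQ, hInc, hPA⟩ := schemeG hμ' hh h0' hA
  obtain ⟨c, hc⟩ := sch_le hP
  refine ⟨ρ, fun y => ev (P y), c, fun y => (hPA y).1, fun y => (ev_le _).trans (hc y),
    fun y => ?_, hQ, hInc⟩
  have h1 := hPA y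
  rw [h1.2.1, ← h1.2.2]
  exact (od_le _).trans (hc y)

end Pool.Agent.TJ
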